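import Pool.Agent.FRB.Fin

/-!
# FRB/Rad: the main theorem for `X`

`rad a` = the join of all normal, invariant, locally finite subgroups.  It is normal, invariant (`a` permutes...: each
member is mapped into itself), locally finite (`lf_sSup` with `Y = ⊤`).  Let `Q = X ⧸ rad a` with `quo`; `quo_hyp`.
`SS (quo ..) ⊤`: let `L` be a normal invariant locally finite subgroup of `Q`; its preimage `L' = comap mk L` is normal,
invariant, contains `rad a`, and is locally finite (extension: for a finite set `s ⊆ L'` the image of `closure s` in
`Q` is finite and `closure s ⊓ rad a` is finitely generated by Schreier, hence finite; or apply `lf_ext` to the type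
`L'` with the normal subgroup `(rad a).subgroupOf L'`); so `L' ≤ rad a` and `L = ⊥`.
By `ss_trivial` every element of `Q` is trivial, so `rad a = ⊤` and `X` is locally finite.
-/

set_option autoImplicit false

namespace Pool.Agent.FRB

universe u

variable {r k : ℕ} {X : Type u} [Group X]

/-- The locally finite radical. -/
def rad (a : MulAut X) : Subgroup X := sSup {L : Subgroup X | L.Normal ∧ Inv a L ∧ LF L}

theorem rad_normal (a : MulAut X) : (rad a).Normal := by
  refine ⟨fun n hn g => ?_⟩
  have h : rad a ≤ Subgroup.comap (MulAut.conj g).toMonoidHom (rad a) := by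
    refine sSup_le fun L hL x hx => ?_
    have h1 : g * x * g⁻¹ ∈ L := hL.1.conj_mem x hx g
    exact (le_sSup (a := L) hL : L ≤ rad a) h1
  exact h hn

theorem rad_inv (a : MulAut X) : Inv a (rad a) := by
  intro n hn
  have h : rad a ≤ Subgroup.comap a.toMonoidHom (rad a) := by
    refine sSup_le fun L hL x hx => ?_
    exact (le_sSup (a := L) hL : L ≤ rad a) (hL.2.1 x hx)
  exact h hn

theorem rad_lf (a : MulAut X) : LF (rad a) := by
  refine lf_sSup (Y := ⊤) (fun L _ => le_top) (fun L hL y _ x hx => ?_) (fun L hL => hL.2.2)
  have h1 := hL.1.conj_mem x hx y⁻¹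
  rwa [inv_inv] at h1

theorem rad_max {a : MulAut X} {L : Subgroup X} (h1 : L.Normal) (h2 : Inv a L) (h3 : LF L) : L ≤ rad a :=
  le_sSup ⟨h1, h2, h3⟩

private theorem clos_inj {G H : Type*} [Group G] [Group H] (f : G →* H) (hf : Function.Injective f)
    (s : Set G) (h : ((Subgroup.closure (f '' s) : Subgroup H) : Set H).Finite) :
    ((Subgroup.closure s : Subgroup G) : Set G).Finite := by
  rw [← MonoidHom.map_closure, Subgroup.coe_map] at h
  exact Set.Finite.of_finite_image h hf.injOn

private theorem clos_map {G H : Type*} [Group G] [Group H] (f : G →* H) (s : Set G)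
    (h : ((Subgroup.closure s : Subgroup G) : Set G).Finite) :
    ((Subgroup.closure (f '' s) : Subgroup H) : Set H).Finite := by
  rw [← MonoidHom.map_closure, Subgroup.coe_map]
  exact h.image f

private theorem lf_of_coe {S : Subgroup X} (h : LF (⊤ : Subgroup S)) : LF S := by
  classical
  intro s hs
  have h1 : (s : Set X) = S.subtype '' ((s.subtype (fun x => x ∈ S) : Finset S) : Set S) := by
    ext x
    constructor
    · intro hx
      exact ⟨⟨x, hs hx⟩, by simpa using hx, rfl⟩
    · rintro ⟨y, hy, rfl⟩
      simpa using hy
  rw [h1]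
  exact clos_map S.subtype _ (h _ (by intro x _; exact Subgroup.mem_top x))

private theorem lf_comap (N : Subgroup X) [N.Normal] (hN : LF N) (L : Subgroup (X ⧸ N)) (hL : LF L) :
    LF (L.comap (QuotientGroup.mk' N)) := by
  classical
  apply lf_of_coe
  set S : Subgroup X := L.comap (QuotientGroup.mk' N) with hS
  have hNS : (N.subgroupOf S).Normal := Subgroup.normal_subgroupOf
  refine lf_ext (N.subgroupOf S) ?_ ?_
  · intro t ht
    apply clos_inj S.subtype S.subtype_injective
    have h1 : S.subtype '' (t : Set S) = ((t.image S.subtype : Finset X) : Set X) := by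
      rw [Finset.coe_image]
    rw [h1]
    apply hN
    intro x hx
    rw [Finset.coe_image] at hx
    obtain ⟨y, hy, rfl⟩ := hx
    exact ht hy
  · intro t
    have hle : N.subgroupOf S ≤ N.comap S.subtype := le_refl _
    set φ : (S ⧸ N.subgroupOf S) →* (X ⧸ N) := QuotientGroup.map (N.subgroupOf S) N S.subtype hle
      with hφ
    have hφi : Function.Injective φ := by
      rw [injective_iff_map_eq_one]
      intro q
      induction q using QuotientGroup.induction_on with
      | H x =>
        intro hx
        rw [hφ, QuotientGroup.map_mk, QuotientGroup.eq_one_iff] at hx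
        rw [QuotientGroup.eq_one_iff]
        exact hx
    apply clos_inj φ hφi
    have h1 : φ '' (t : Set (S ⧸ N.subgroupOf S)) = ((t.image φ : Finset (X ⧸ N)) : Set (X ⧸ N)) := by
      rw [Finset.coe_image]
    rw [h1]
    apply hL
    intro x hx
    rw [Finset.coe_image] at hx
    obtain ⟨q, hq, rfl⟩ := hx
    induction q using QuotientGroup.induction_on with
    | H y =>
      rw [hφ, QuotientGroup.map_mk]
      exact y.2

theorem lf_of_hyp {a : MulAut X} (h : Root r k) (H : Hyp r a) : LF (⊤ : Subgroup X) := by
  have hn : (rad a).Normal := rad_normal a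
  have hSS : SS (quo a (rad a) (rad_inv a) H.pow5) (⊤ : Subgroup (X ⧸ rad a)) := by
    intro L _ hLi hLn hLf
    have h1 : (L.comap (QuotientGroup.mk' (rad a))).Normal := by
      refine ⟨fun n hn' g => ?_⟩
      rw [Subgroup.mem_comap] at hn' ⊢
      have h2 := hLn (QuotientGroup.mk' (rad a) g⁻¹) (Subgroup.mem_top _) _ hn'
      rw [← map_inv, inv_inv] at h2
      rw [map_mul, map_mul]
      exact h2
    have h2 : Inv a (L.comap (QuotientGroup.mk' (rad a))) := by
      intro x hx
      exact hLi _ hx
    have h3 : LF (L.comap (QuotientGroup.mk' (rad a))) := lf_comap (rad a) (rad_lf a) L hLf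
    have h4 := rad_max h1 h2 h3
    rw [Subgroup.eq_bot_iff_forall]
    intro q hq
    induction q using QuotientGroup.induction_on with
    | H x =>
      rw [QuotientGroup.eq_one_iff]
      exact h4 hq
  have h5 : rad a = ⊤ := by
    rw [Subgroup.eq_top_iff']
    intro x
    rw [← QuotientGroup.eq_one_iff]
    exact ss_trivial h (quo_hyp H (rad a) (rad_inv a)) hSS (x : X ⧸ rad a)
  rw [← h5]
  exact rad_lf a

end Pool.Agent.FRB
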