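import Pool.Agent.FRB.Defs

/-!
# FRB/LFx: locally finite groups (classical facts)

* `lf_ext`: let `s` be a finite set, `G = closure s`, `N' = N ⊓ G`.  The image of `G` in `X ⧸ N` is finite, so `N'` has
  finite index in `G`; by Schreier `N'` is finitely generated (`Subgroup.fg_of_index_ne_zero`), hence finite, and
  `G` is finite.
* `lf_sup`: `T` normalises `S`.  Let `s ⊆ S ⊔ T` be finite.  In the group `Y = S ⊔ T` the subgroup `S` is normal and
  `Y ⧸ S` is a quotient of `T`, so it is locally finite; use `lf_ext` (for the type `Y`) or argue directly with Schreier.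
* `lf_sSup`: a finite subset of `sSup 𝓕` lies in the supremum of finitely many members of `𝓕`
  (`Subgroup.mem_iSup...`, or closure_induction for elements + finite unions), which is locally finite by `lf_sup` and
  induction; all members are normalised by `Y` and contained in `Y`.
* `lf_comm`: a finitely generated commutative torsion group is finite (Mathlib:
  `CommGroup.finite_of_fg_torsion`); apply it to `closure s`, which is commutative
  (`Subgroup.closureCommGroupOfComm` or `Subgroup.isMulCommutative_closure`).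
-/

set_option autoImplicit false

namespace Pool.Agent.FRB

universe u

variable {X : Type u} [Group X]

theorem lf_mono {S T : Subgroup X} (h : S ≤ T) (hT : LF T) : LF S :=
  fun s hs => hT s (hs.trans h)

/-- A finitely generated subgroup `G` covered by finitely many left cosets of a locally finite subgroup is
finite (Schreier). -/
private theorem lf_core {S G : Subgroup X} (hS : LF S) (hG : G.FG) {F : Set X} (hF : F.Finite)
    (h : ∀ g ∈ G, ∃ t ∈ F, t⁻¹ * g ∈ S) : (G : Set X).Finite := by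
  classical
  have hGfg : Group.FG G := (Group.fg_iff_subgroup_fg G).2 hG
  have hFf : Finite F := hF
  choose! t ht1 ht2 using h
  have hquot : Finite (G ⧸ S.subgroupOf G) := by
    refine Finite.of_injective (fun q : G ⧸ S.subgroupOf G => (⟨t (q.out : G), ht1 _ (q.out : G).2⟩ : F)) ?_
    intro q q' hqq
    have e : t (q.out : G) = t (q'.out : G) := congrArg Subtype.val hqq
    have h1 := ht2 _ (q.out : G).2
    have h2 := ht2 _ (q'.out : G).2
    rw [e] at h1
    have h3 : ((q.out : G) : X)⁻¹ * (q'.out : G) ∈ S := by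
      have := S.mul_mem (S.inv_mem h1) h2
      have e2 : ((t (q'.out : G))⁻¹ * ((q.out : G) : X))⁻¹ * ((t (q'.out : G))⁻¹ * ((q'.out : G) : X)) =
          ((q.out : G) : X)⁻¹ * (q'.out : G) := by group
      rwa [e2] at this
    rw [← q.out_eq, ← q'.out_eq]
    exact QuotientGroup.eq.2 (Subgroup.mem_subgroupOf.2 (by simpa using h3))
  have hidx : (S.subgroupOf G).FiniteIndex := Subgroup.finiteIndex_of_finite_quotient
  have hfg : Group.FG (S.subgroupOf G) := Subgroup.fg_of_index_ne_zero (S.subgroupOf G)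
  have hfg2 : ∃ s : Finset X, Subgroup.closure (s : Set X) = (S.subgroupOf G).map G.subtype := by
    obtain ⟨s, hs⟩ := (Group.fg_iff_subgroup_fg _).1 hfg
    refine ⟨s.image G.subtype, ?_⟩
    rw [← hs, MonoidHom.map_closure, Finset.coe_image]
  obtain ⟨s, hs⟩ := hfg2
  have hle : (S.subgroupOf G).map G.subtype ≤ S := by
    rintro _ ⟨x, hx, rfl⟩
    exact Subgroup.mem_subgroupOf.1 hx
  have hfin : (((S.subgroupOf G).map G.subtype : Subgroup X) : Set X).Finite := by
    rw [← hs]
    refine hS s ?_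
    refine (Subgroup.subset_closure).trans ?_
    rw [hs]
    exact hle
  have hfin2 : Finite (S.subgroupOf G) := by
    have h1 : ((S.subgroupOf G : Subgroup G) : Set G).Finite := by
      refine Set.Finite.of_finite_image (f := G.subtype) ?_ (Subtype.val_injective.injOn)
      exact hfin
    exact h1
  have hGf : Finite G := by
    refine Finite.of_equiv ((G ⧸ S.subgroupOf G) × (S.subgroupOf G)) ?_
    exact (Subgroup.groupEquivQuotientProdSubgroup (s := S.subgroupOf G)).symm
  exact hGf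

theorem lf_ext (N : Subgroup X) [N.Normal] (hN : LF N)
    (hQ : ∀ s : Finset (X ⧸ N), ((Subgroup.closure (s : Set (X ⧸ N)) : Subgroup (X ⧸ N)) : Set (X ⧸ N)).Finite) :
    LF (⊤ : Subgroup X) := by
  classical
  intro s _
  have h1 := hQ (s.image (QuotientGroup.mk' N))
  refine lf_core hN ⟨s, rfl⟩ (h1.image Quotient.out) fun g hg => ?_
  refine ⟨(QuotientGroup.mk' N g).out, ⟨_, ?_, rfl⟩, ?_⟩
  · have h2 : QuotientGroup.mk' N g ∈ (Subgroup.closure (s : Set X)).map (QuotientGroup.mk' N) := ⟨g, hg, rfl⟩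
    rw [MonoidHom.map_closure] at h2
    rw [Finset.coe_image]
    exact h2
  · rw [← QuotientGroup.eq]
    exact Quotient.out_eq _

theorem lf_comm {S : Subgroup X} (hc : ∀ x ∈ S, ∀ y ∈ S, Commute x y) (ht : ∀ x ∈ S, ∃ n : ℕ, 0 < n ∧ x ^ n = 1) :
    LF S := by
  intro s hs
  have hle : Subgroup.closure (s : Set X) ≤ S := (Subgroup.closure_le S).2 hs
  let _ : CommGroup (Subgroup.closure (s : Set X)) :=
    { (inferInstance : Group (Subgroup.closure (s : Set X))) with
      mul_comm := fun x y => Subtype.ext (hc _ (hle x.2) _ (hle y.2)) }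
  have hfg : Group.FG (Subgroup.closure (s : Set X)) := (Group.fg_iff_subgroup_fg _).2 ⟨s, rfl⟩
  have htor : IsMulTorsion (Subgroup.closure (s : Set X)) := by
    intro x
    obtain ⟨n, hn, hx⟩ := ht _ (hle x.2)
    refine isOfFinOrder_iff_pow_eq_one.2 ⟨n, hn, Subtype.ext ?_⟩
    exact hx
  exact CommGroup.finite_of_fg_isMulTorsion _ htor

/-- products `t σ` with `t ∈ T0`, `σ ∈ S` form a subgroup if `T0` normalises `S` -/
private def prodSub (S T0 : Subgroup X) (hn : ∀ t ∈ T0, ∀ s ∈ S, t⁻¹ * s * t ∈ S) : Subgroup X where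
  carrier := {g | ∃ t ∈ T0, t⁻¹ * g ∈ S}
  one_mem' := ⟨1, T0.one_mem, by simp⟩
  mul_mem' := by
    rintro a b ⟨t, ht, h⟩ ⟨t', ht', h'⟩
    refine ⟨t * t', T0.mul_mem ht ht', ?_⟩
    have := S.mul_mem (hn t' ht' _ h) h'
    have e : t'⁻¹ * (t⁻¹ * a) * t' * (t'⁻¹ * b) = (t * t')⁻¹ * (a * b) := by group
    rwa [e] at this
  inv_mem' := by
    rintro a ⟨t, ht, h⟩
    refine ⟨t⁻¹, T0.inv_mem ht, ?_⟩
    have := hn t⁻¹ (T0.inv_mem ht) _ (S.inv_mem h)
    have e : t⁻¹⁻¹ * (t⁻¹ * a)⁻¹ * t⁻¹ = t⁻¹⁻¹ * a⁻¹ := by group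
    rwa [e] at this

theorem lf_sup {S T : Subgroup X} (hS : LF S) (hT : LF T) (hn : ∀ t ∈ T, ∀ s ∈ S, t⁻¹ * s * t ∈ S) :
    LF (S ⊔ T) := by
  classical
  intro s hs
  have h1 : S ⊔ T ≤ prodSub S T hn := by
    refine sup_le ?_ ?_
    · intro x hx
      exact ⟨1, T.one_mem, by simpa using hx⟩
    · intro x hx
      exact ⟨x, hx, by simp⟩
  have h2 : ∀ x ∈ (s : Set X), ∃ t ∈ T, t⁻¹ * x ∈ S := fun x hx => h1 (hs hx)
  choose! f hf1 hf2 using h2
  have hsub : ((s.image f : Finset X) : Set X) ⊆ T := by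
    intro y hy
    rw [Finset.coe_image] at hy
    obtain ⟨x, hx, rfl⟩ := hy
    exact hf1 x hx
  have hfin := hT (s.image f) hsub
  have hle : Subgroup.closure ((s.image f : Finset X) : Set X) ≤ T := (Subgroup.closure_le T).2 hsub
  have hn' : ∀ t ∈ Subgroup.closure ((s.image f : Finset X) : Set X), ∀ s ∈ S, t⁻¹ * s * t ∈ S :=
    fun t ht => hn t (hle ht)
  have h3 : Subgroup.closure (s : Set X) ≤
      prodSub S (Subgroup.closure ((s.image f : Finset X) : Set X)) hn' := by
    rw [Subgroup.closure_le]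
    intro x hx
    refine ⟨f x, Subgroup.subset_closure ?_, hf2 x hx⟩
    rw [Finset.coe_image]
    exact ⟨x, hx, rfl⟩
  exact lf_core hS ⟨s, rfl⟩ hfin fun g hg => h3 hg

theorem lf_sSup {𝓕 : Set (Subgroup X)} {Y : Subgroup X} (h1 : ∀ L ∈ 𝓕, L ≤ Y)
    (h2 : ∀ L ∈ 𝓕, ∀ y ∈ Y, ∀ x ∈ L, y⁻¹ * x * y ∈ L) (h3 : ∀ L ∈ 𝓕, LF L) : LF (sSup 𝓕) := by
  classical
  set 𝓖 : Set (Subgroup X) := {L | L ≤ Y ∧ (∀ y ∈ Y, ∀ x ∈ L, y⁻¹ * x * y ∈ L) ∧ LF L} with h𝓖
  have hFG : 𝓕 ⊆ 𝓖 := fun L hL => ⟨h1 L hL, h2 L hL, h3 L hL⟩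
  have hbot : (⊥ : Subgroup X) ∈ 𝓖 := by
    refine ⟨bot_le, ?_, ?_⟩
    · intro y _ x hx
      rw [Subgroup.mem_bot] at hx
      subst hx
      rw [Subgroup.mem_bot]
      group
    · intro s hs
      have hle : Subgroup.closure (s : Set X) ≤ ⊥ := (Subgroup.closure_le _).2 hs
      refine Set.Finite.subset (Set.finite_singleton (1 : X)) fun x hx => ?_
      exact Subgroup.mem_bot.1 (hle hx)
  have hdir : DirectedOn (· ≤ ·) 𝓖 := by
    rintro L ⟨l1, l2, l3⟩ M ⟨m1, m2, m3⟩
    refine ⟨L ⊔ M, ⟨sup_le l1 m1, ?_, lf_sup l3 m3 fun t ht => l2 t (m1 ht)⟩, le_sup_left, le_sup_right⟩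
    intro y hy x hx
    have hle : L ⊔ M ≤ (L ⊔ M).comap (MulAut.conj y⁻¹ : X →* X) := by
      refine sup_le ?_ ?_
      · intro z hz
        rw [Subgroup.mem_comap]
        refine Subgroup.mem_sup_left ?_
        have := l2 y hy z hz
        simpa [MulAut.conj_apply] using this
      · intro z hz
        rw [Subgroup.mem_comap]
        refine Subgroup.mem_sup_right ?_
        have := m2 y hy z hz
        simpa [MulAut.conj_apply] using this
    have h4 := hle hx
    rw [Subgroup.mem_comap] at h4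
    simpa [MulAut.conj_apply] using h4
  intro s hs
  have h4 : ∀ x ∈ s, ∃ L ∈ 𝓖, x ∈ L := by
    intro x hx
    exact (Subgroup.mem_sSup_of_directedOn ⟨_, hbot⟩ hdir).1 (sSup_le_sSup hFG (hs hx))
  have h5 : ∀ s' : Finset X, s' ⊆ s → ∃ L ∈ 𝓖, (s' : Set X) ⊆ L := by
    intro s'
    induction s' using Finset.induction_on with
    | empty => exact fun _ => ⟨⊥, hbot, by simp⟩
    | insert a s' ha ih =>
      intro hsub
      obtain ⟨L, hL, hL2⟩ := ih ((Finset.subset_insert a s').trans hsub)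
      obtain ⟨M, hM, hM2⟩ := h4 a (hsub (Finset.mem_insert_self a s'))
      obtain ⟨K, hK, hK1, hK2⟩ := hdir L hL M hM
      refine ⟨K, hK, ?_⟩
      rw [Finset.coe_insert, Set.insert_subset_iff]
      exact ⟨hK2 hM2, hL2.trans hK1⟩
  obtain ⟨L, hL, hL2⟩ := h5 s (Finset.Subset.refl s)
  exact hL.2.2 s hL2

end Pool.Agent.FRB
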