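import Pool.Agent.FRB.Comm

/-!
# FRB/Same: two eigen-elements of degree 1

`same_finite`, strong induction on `Nat.card X`: if all eigen-elements of degree 2 of the finite group `X` are trivial
then eigen-elements `x`, `y` of degree 1 commute.  `same`: the finite invariant subgroup generated by `x`, `y`.
-/

set_option autoImplicit false

namespace Pool.Agent.FRB

universe u

variable {r k : ℕ}

private theorem same_pow {X : Type u} [Group X] {x : X} {m M : ℕ} (hx : x ^ (r ^ m) = 1) (hm : m ≤ M) :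
    x ^ (r ^ M) = 1 := by
  obtain ⟨t, rfl⟩ := Nat.exists_eq_add_of_le hm
  rw [pow_add, pow_mul, hx, one_pow]

theorem same_finite (h : Root r k) (n : ℕ) : ∀ (X : Type u) [Group X] [Finite X] (a : MulAut X), Hyp r a →
    Nat.card X = n → (∀ e : X, Eig r k a 2 e → e = 1) → ∀ x y : X, Eig r k a 1 x → Eig r k a 1 y → Commute x y := by
  induction n using Nat.strong_induction_on with
  | _ n ih =>
    intro X _ _ a H hn h2 x y hx hy
    rcases subsingleton_or_nontrivial X with hs | hs
    · exact Subsingleton.elim _ _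
    have hr : Fact r.Prime := ⟨h.prime⟩
    have hpg : IsPGroup r X := fun g => H.tors g
    have hZ : Nontrivial (Subgroup.center X) := hpg.center_nontrivial
    have hcard : Nat.card (X ⧸ Subgroup.center X) < n := by
      have h1 := Subgroup.card_eq_card_quotient_mul_card_subgroup (Subgroup.center X)
      have h3 : 1 < Nat.card (Subgroup.center X) := Finite.one_lt_card
      have h4 : 0 < Nat.card (X ⧸ Subgroup.center X) := Nat.card_pos
      rw [← hn, h1]
      exact lt_mul_of_one_lt_right h4 h3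
    have hc : ∀ z ∈ Subgroup.center X, ∀ g : X, Commute z g := fun z hz g =>
      ((Subgroup.mem_center_iff.1 hz) g).symm
    have hQ : ∀ e : X ⧸ Subgroup.center X,
        Eig r k (quo a (Subgroup.center X) (inv_center a) H.pow5) 2 e → e = 1 := by
      intro e he
      obtain ⟨t, ht, ht2⟩ := lift_quo h H (inv_center a) hc he
      rw [← ht, h2 t ht2]
      rfl
    have hcomm := ih _ hcard (X ⧸ Subgroup.center X) (quo a (Subgroup.center X) (inv_center a) H.pow5)
      (quo_hyp H _ _) rfl hQ (x : X ⧸ Subgroup.center X) (y : X ⧸ Subgroup.center X)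
      (quo_eig _ _ _ hx) (quo_eig _ _ _ hy)
    have hcZ : x⁻¹ * y⁻¹ * x * y ∈ Subgroup.center X := by
      have h3 : (x : X ⧸ Subgroup.center X) * (y : X ⧸ Subgroup.center X) =
        (y : X ⧸ Subgroup.center X) * (x : X ⧸ Subgroup.center X) := hcomm
      have h4 : ((y * x : X) : X ⧸ Subgroup.center X) = ((x * y : X) : X ⧸ Subgroup.center X) := by
        rw [QuotientGroup.mk_mul, QuotientGroup.mk_mul]
        exact h3.symm
      have h5 := QuotientGroup.eq.1 h4
      have h6 : (y * x)⁻¹ * (x * y) = x⁻¹ * y⁻¹ * x * y := by group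
      rw [h6] at h5
      exact h5
    obtain ⟨m1, hm1⟩ := H.tors x
    obtain ⟨m2, hm2⟩ := H.tors y
    obtain ⟨m3, hm3⟩ := H.tors (x⁻¹ * y⁻¹ * x * y)
    obtain ⟨M, hM⟩ : ∃ M, M = max m1 (max m2 m3) := ⟨_, rfl⟩
    have hxM : x ^ (r ^ M) = 1 := same_pow hm1 (by rw [hM]; exact le_max_left _ _)
    have hyM : y ^ (r ^ M) = 1 := same_pow hm2 (by
      rw [hM]; exact (le_max_left _ _).trans (le_max_right _ _))
    have hcM : (x⁻¹ * y⁻¹ * x * y) ^ (r ^ M) = 1 := same_pow hm3 (by
      rw [hM]; exact (le_max_right _ _).trans (le_max_right _ _))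
    have h7 := comm_pow_pow (x := x) (y := y) rfl (hc _ hcZ x) (hc _ hcZ y) (k ^ (1 * r ^ M)) (k ^ (1 * r ^ M))
    have h8 : a (x⁻¹ * y⁻¹ * x * y) = (x⁻¹ * y⁻¹ * x * y) ^ (k ^ (2 * r ^ M)) := by
      rw [map_mul, map_mul, map_mul, map_inv, map_inv, Eig.at h hx hxM, Eig.at h hy hyM, h7]
      have h9 : k ^ (1 * r ^ M) * k ^ (1 * r ^ M) = k ^ (2 * r ^ M) := by
        rw [← pow_add]
        exact congrArg (fun t => k ^ t) (by ring)
      rw [h9]
    have h10 : x⁻¹ * y⁻¹ * x * y = 1 := h2 _ ⟨M, hcM, h8⟩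
    change x * y = y * x
    have h11 : (y * x)⁻¹ * (x * y) = 1 := by
      rw [← h10]
      group
    exact (inv_mul_eq_one.1 h11).symm

theorem same {X : Type u} [Group X] {a : MulAut X} (h : Root r k) (H : Hyp r a) {x y : X} (hx : Eig r k a 1 x)
    (hy : Eig r k a 1 y)
    (h2 : ∀ e ∈ Subgroup.closure ({x, y} : Set X), Eig r k a 2 e → e = 1) : Commute x y := by
  have hS : Inv a (Subgroup.closure ({x, y} : Set X)) := inv_pair h hx hy
  have hfin : Finite (Subgroup.closure ({x, y} : Set X)) := finite_coe (H.two x y)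
  have hxm : x ∈ Subgroup.closure ({x, y} : Set X) := Subgroup.subset_closure (by simp)
  have hym : y ∈ Subgroup.closure ({x, y} : Set X) := Subgroup.subset_closure (by simp)
  have h3 := same_finite h _ (Subgroup.closure ({x, y} : Set X)) (res a _ hS H.pow5) (res_hyp H _ hS) rfl
    (fun e he => Subtype.ext (h2 e e.2 ((res_eig H _ hS).1 he))) ⟨x, hxm⟩ ⟨y, hym⟩
    ((res_eig H _ hS).2 hx) ((res_eig H _ hS).2 hy)
  exact congrArg Subtype.val h3

end Pool.Agent.FRB
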