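import Pool.Agent.FRB.Pair
import Pool.Agent.FRB.Same
import Pool.Agent.FRB.LFx

/-!
# FRB/A1: the subgroup generated by the eigen-elements of degree 1 is locally finite

Consider groups `X` (with `Hyp`) generated by `Lam r k a 1`.
* `one_a`: if the eigen-elements of degree 2 are trivial, the generators commute (`same`), `X` is abelian, so `lf_comm`.
* `one_b`: if those of degrees 3 and 4 are trivial: for `q` of degree 2 and `x` of degree 1 `pair12` (with `x`, `q`)
  gives `c`, `w` of degrees 3 and 4, trivial, so `q` commutes with `x`: `q` is central.  Let `N` be the closure of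
  the eigen-elements of degree 2: central, invariant, LF by `lf_comm`.  In `X ⧸ N` the eigen-elements of degrees
  2, 3, 4 lift to `X` (`lift_quo`), so they are trivial (those of degree 2 lie in `N`); `X ⧸ N` is generated by
  eigen-elements of degree 1; so `one_a` applies to `X ⧸ N`, and `lf_ext`.
* `one_c`: if those of degree 4 are trivial: for `v` of degree 3 and `x` of degree 1 `pair31` gives `c` of degree 4,
  trivial, and `w = [v,c] = 1`: `v` commutes with `x`, so `v` is central; quotient by the closure of the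
  eigen-elements of degree 3 and apply `one_b` (degrees 3, 4 are trivial in the quotient by `lift_quo`).
* `one_d`: no condition: eigen-elements of degree 4 commute with those of degree 1 (`comm`), so they are central;
  quotient and `one_c`.
* `a1_lf`: apply `one_d` to the invariant subgroup `closure (Lam r k a 1)` (`res_hyp`, `res_eig`); transfer the result
  from the type to the subgroup.
* `ai_lf`: from `a1_lf` for the root `k^i` (`Root.pow`, `eig_root`), `i = 1, 2, 3, 4`.
-/

set_option autoImplicit false

namespace Pool.Agent.FRB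

universe u

variable {r k : ℕ}

private theorem comm_all {X : Type u} [Group X] {L : Set X} (hg : Subgroup.closure L = ⊤) {q : X}
    (hq : ∀ x ∈ L, Commute q x) : ∀ x : X, Commute q x := by
  intro x
  have h1 : Subgroup.closure L ≤ Subgroup.centralizer {q} := by
    rw [Subgroup.closure_le]
    intro y hy
    rw [SetLike.mem_coe, Subgroup.mem_centralizer_singleton_iff]
    exact (hq y hy).eq.symm
  rw [hg] at h1
  have h2 := h1 (Subgroup.mem_top x)
  rw [Subgroup.mem_centralizer_singleton_iff] at h2
  exact h2.symm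

private theorem cq_aux {X : Type u} [Group X] {a : MulAut X} (h : Root r k) (H : Hyp r a)
    (hg : Subgroup.closure (Lam r k a 1) = ⊤) (j : ℕ)
    (hcen : ∀ q : X, Eig r k a j q → ∀ x : X, Commute q x)
    (P : ∀ (Q : Type u) [Group Q] (a' : MulAut Q), Hyp r a' → Subgroup.closure (Lam r k a' 1) = ⊤ →
      (∀ e : Q, Eig r k a' j e → e = 1) →
      (∀ i, (∀ e : X, Eig r k a i e → e = 1) → ∀ e : Q, Eig r k a' i e → e = 1) →
      LF (⊤ : Subgroup Q)) : LF (⊤ : Subgroup X) := by
  set N : Subgroup X := Subgroup.closure (Lam r k a j) with hN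
  have hc : ∀ n ∈ N, ∀ x : X, Commute n x := by
    intro n hn x
    have h1 : N ≤ Subgroup.centralizer {x} := by
      rw [hN, Subgroup.closure_le]
      intro y hy
      rw [SetLike.mem_coe, Subgroup.mem_centralizer_singleton_iff]
      exact (hcen y hy x).eq
    have h2 := h1 hn
    rw [Subgroup.mem_centralizer_singleton_iff] at h2
    exact h2
  have hnorm : N.Normal := by
    refine ⟨fun n hn g => ?_⟩
    have h1 : g * n * g⁻¹ = n := by
      rw [← (hc n hn g).eq, mul_inv_cancel_right]
    rw [h1]
    exact hn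
  have hinv : Inv a N := inv_closure fun x hx => Subgroup.subset_closure (Eig.app h hx)
  have hLF : LF N := lf_comm (fun x hx y _ => hc x hx y) (fun x _ => by
    obtain ⟨n, hn⟩ := H.tors x
    exact ⟨r ^ n, pow_pos h.prime.pos n, hn⟩)
  have hgQ : Subgroup.closure (Lam r k (quo a N hinv H.pow5) 1) = ⊤ := by
    rw [eq_top_iff]
    intro q _
    obtain ⟨x, rfl⟩ := QuotientGroup.mk_surjective q
    have hx : x ∈ Subgroup.closure (Lam r k a 1) := by
      rw [hg]
      exact Subgroup.mem_top x
    have h1 : Subgroup.closure (Lam r k a 1) ≤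
        (Subgroup.closure (Lam r k (quo a N hinv H.pow5) 1)).comap (QuotientGroup.mk' N) := by
      rw [Subgroup.closure_le]
      intro y hy
      exact Subgroup.subset_closure (quo_eig N hinv H.pow5 hy)
    exact h1 hx
  have hlift : ∀ i, ∀ e : X ⧸ N, Eig r k (quo a N hinv H.pow5) i e →
      ∃ x : X, (x : X ⧸ N) = e ∧ Eig r k a i x := fun i e he => lift_quo h H hinv hc he
  have hQ := P (X ⧸ N) (quo a N hinv H.pow5) (quo_hyp H N hinv) hgQ (by
    intro e he
    obtain ⟨x, rfl, hx⟩ := hlift j e he
    exact (QuotientGroup.eq_one_iff x).2 (Subgroup.subset_closure hx)) (by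
    intro i hi e he
    obtain ⟨x, rfl, hx⟩ := hlift i e he
    rw [hi x hx]
    rfl)
  exact lf_ext N hLF fun s => hQ s (fun _ _ => Subgroup.mem_top _)

theorem one_a {X : Type u} [Group X] {a : MulAut X} (h : Root r k) (H : Hyp r a)
    (hg : Subgroup.closure (Lam r k a 1) = ⊤) (h2 : ∀ e : X, Eig r k a 2 e → e = 1) : LF (⊤ : Subgroup X) := by
  have h1 : ∀ y ∈ Lam r k a 1, ∀ x : X, Commute y x := fun y hy =>
    comm_all hg fun x hx => same h H hy hx fun e _ he => h2 e he
  have h3 : ∀ x y : X, Commute x y := fun x =>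
    comm_all hg fun y hy => (h1 y hy x).symm
  refine lf_comm (fun x _ y _ => h3 x y) (fun x _ => ?_)
  obtain ⟨n, hn⟩ := H.tors x
  exact ⟨r ^ n, pow_pos h.prime.pos n, hn⟩

theorem one_b {X : Type u} [Group X] {a : MulAut X} (h : Root r k) (H : Hyp r a)
    (hg : Subgroup.closure (Lam r k a 1) = ⊤) (h3 : ∀ e : X, Eig r k a 3 e → e = 1)
    (h4 : ∀ e : X, Eig r k a 4 e → e = 1) : LF (⊤ : Subgroup X) := by
  refine cq_aux h H hg 2 ?_ ?_
  · intro q hq
    refine comm_all hg fun x hx => ?_
    obtain ⟨c, w, s, ⟨hc, hw, hrel, -⟩, -, -⟩ := pair12 h H (show Eig r k a 1 x from hx) hq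
    rw [h3 c hc, h4 w hw, one_zpow, one_mul, mul_one] at hrel
    have h5 : x * q = q * x := by
      calc x * q = q * (q⁻¹ * x * q) := by group
        _ = q * x := by rw [hrel]
    exact h5.symm
  · intro Q _ a' HQ hgQ h2 _
    exact one_a h HQ hgQ h2

theorem one_c {X : Type u} [Group X] {a : MulAut X} (h : Root r k) (H : Hyp r a)
    (hg : Subgroup.closure (Lam r k a 1) = ⊤) (h4 : ∀ e : X, Eig r k a 4 e → e = 1) : LF (⊤ : Subgroup X) := by
  refine cq_aux h H hg 3 ?_ ?_
  · intro v hv
    refine comm_all hg fun x hx => ?_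
    obtain ⟨c, w, s, hc, hw, hrel, hw2, -⟩ := pair31 h H hv (show Eig r k a 1 x from hx)
    have hc1 := h4 c hc
    rw [hc1] at hw2
    have hw1 : w = 1 := by
      rw [← hw2]
      group
    rw [hc1, hw1, one_zpow, one_mul, mul_one] at hrel
    have h5 : v * x = x * v := by
      calc v * x = x * (x⁻¹ * v * x) := by group
        _ = x * v := by rw [hrel]
    exact h5
  · intro Q _ a' HQ hgQ h3 hi
    exact one_b h HQ hgQ h3 (hi 4 h4)

theorem one_d {X : Type u} [Group X] {a : MulAut X} (h : Root r k) (H : Hyp r a)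
    (hg : Subgroup.closure (Lam r k a 1) = ⊤) : LF (⊤ : Subgroup X) := by
  refine cq_aux h H hg 4 ?_ ?_
  · intro v hv
    exact comm_all hg fun x hx => comm h H (by norm_num) hv (show Eig r k a 1 x from hx)
  · intro Q _ a' HQ hgQ h4 _
    exact one_c h HQ hgQ h4

theorem a1_lf {X : Type u} [Group X] {a : MulAut X} (h : Root r k) (H : Hyp r a) :
    LF (Subgroup.closure (Lam r k a 1)) := by
  set S : Subgroup X := Subgroup.closure (Lam r k a 1) with hS
  have hinv : Inv a S := inv_closure fun x hx => Subgroup.subset_closure (Eig.app h hx)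
  have hg : Subgroup.closure (Lam r k (res a S hinv H.pow5) 1) = ⊤ := by
    have h1 : Lam r k (res a S hinv H.pow5) 1 = (fun x : S => (x : X)) ⁻¹' (Lam r k a 1) := by
      ext x
      exact res_eig H S hinv
    rw [h1]
    exact Subgroup.closure_closure_coe_preimage
  have h1 := one_d h (res_hyp H S hinv) hg
  intro s hs
  classical
  have h2 := h1 (s.attach.image fun x => (⟨x.1, hs x.2⟩ : S)) (fun _ _ => Subgroup.mem_top _)
  have h3 : Subgroup.closure (s : Set X) ≤ (Subgroup.closure
      ((s.attach.image fun x => (⟨x.1, hs x.2⟩ : S) : Finset S) : Set S)).map S.subtype := by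
    rw [Subgroup.closure_le]
    intro x hx
    refine ⟨⟨x, hs hx⟩, Subgroup.subset_closure ?_, rfl⟩
    rw [Finset.mem_coe, Finset.mem_image]
    exact ⟨⟨x, hx⟩, Finset.mem_attach _ _, rfl⟩
  refine Set.Finite.subset (h2.image S.subtype) ?_
  intro x hx
  exact h3 hx

theorem ai_lf {X : Type u} [Group X] {a : MulAut X} (h : Root r k) (H : Hyp r a) {i : ℕ} (hi : ¬ 5 ∣ i) :
    LF (Subgroup.closure (Lam r k a i)) := by
  have h1 : Lam r k a i = Lam r (k ^ i) a 1 := by
    ext x
    have h2 := eig_root (r := r) (k := k) (a := a) i 1 x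
    rw [mul_one] at h2
    exact h2.symm
  rw [h1]
  exact a1_lf (h.pow hi) H

end Pool.Agent.FRB
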