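import Pool.Agent.FRB.SSd

/-!
# FRB/Chain: the centraliser of a subnormal subgroup

`S0 ⊲ S1 ⊲ S2 ⊲ X`, all invariant, with locally finite factors (`S_{i+1} = S_i A_i`, `A_i` locally finite), `SS a ⊤`.
Then `C_X(S0) = 1`:
* by `ss_down`, `SS a S2`, `SS a S1`; by `cent_one`: (A) `C_{S1}(S0) = 1`, (B) `C_{S2}(S1) = 1`, (C) `C_X(S2) = 1`.
* (D) `C_{S2}(S0) = 1`: let `c ∈ S2` commute with `S0`, `s ∈ S1`.  `d = c⁻¹ s⁻¹ c s`: `s⁻¹ c s` centralises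
  `s⁻¹ S0 s = S0` (`S1` normalises `S0`), so `d` centralises `S0`; `c⁻¹ s⁻¹ c ∈ S1` (`S2` normalises `S1`), so
  `d ∈ S1`; so `d = 1` by (A).  Hence `c` commutes with `S1`, and `c = 1` by (B).
* (E) `C_X(S1) = 1`: let `c` commute with `S1`, `s ∈ S2`; `d = c⁻¹ s⁻¹ c s ∈ S2` (`S2` is normal) centralises `S1`
  (`S2` normalises `S1`), so `d = 1` by (B); so `c` commutes with `S2` and `c = 1` by (C).
* (F) `C_X(S0) = 1`: let `c` commute with `S0`, `s ∈ S1`; `d = c⁻¹ s⁻¹ c s ∈ S2` (as `s ∈ S2 ⊲ X`) centralises `S0`,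
  so `d = 1` by (D); so `c` commutes with `S1`, and `c = 1` by (E).
-/

set_option autoImplicit false

namespace Pool.Agent.FRB

universe u

variable {r k : ℕ} {X : Type u} [Group X] {a : MulAut X}

private theorem ch_step {S : Subgroup X} {s c : X} (hs : ∀ x ∈ S, s * x * s⁻¹ ∈ S)
    (hc : ∀ x ∈ S, Commute c x) : ∀ x ∈ S, Commute (c⁻¹ * s⁻¹ * c * s) x := by
  intro x hx
  have h1 : Commute (s⁻¹ * c * s) x := by
    have h2 : c * (s * x * s⁻¹) = s * x * s⁻¹ * c := hc _ (hs x hx)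
    change s⁻¹ * c * s * x = x * (s⁻¹ * c * s)
    calc s⁻¹ * c * s * x = s⁻¹ * (c * (s * x * s⁻¹)) * s := by group
      _ = s⁻¹ * (s * x * s⁻¹ * c) * s := by rw [h2]
      _ = x * (s⁻¹ * c * s) := by group
  have h3 : c⁻¹ * s⁻¹ * c * s = c⁻¹ * (s⁻¹ * c * s) := by group
  rw [h3]
  exact (hc x hx).inv_left.mul_left h1

private theorem ch_comm {s c : X} (h : c⁻¹ * s⁻¹ * c * s = 1) : Commute c s := by
  have h1 : (s * c)⁻¹ * (c * s) = 1 := by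
    rw [mul_inv_rev, ← mul_assoc]
    exact h
  exact (inv_mul_eq_one.1 h1).symm

theorem chain (H : Hyp r a) (hSS : SS a (⊤ : Subgroup X)) {S0 S1 S2 A0 A1 A2 : Subgroup X}
    (i0 : Inv a S0) (i1 : Inv a S1) (i2 : Inv a S2) (h01 : S0 ≤ S1) (h12 : S1 ≤ S2)
    (n0 : ∀ y ∈ S1, ∀ x ∈ S0, y⁻¹ * x * y ∈ S0) (n1 : ∀ y ∈ S2, ∀ x ∈ S1, y⁻¹ * x * y ∈ S1)
    (n2 : ∀ y : X, ∀ x ∈ S2, y⁻¹ * x * y ∈ S2)
    (l0 : LF A0) (l1 : LF A1) (l2 : LF A2)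
    (d0 : ∀ y ∈ S1, ∃ s ∈ S0, ∃ α ∈ A0, α ∈ S1 ∧ y = s * α)
    (d1 : ∀ y ∈ S2, ∃ s ∈ S1, ∃ α ∈ A1, α ∈ S2 ∧ y = s * α)
    (d2 : ∀ y : X, ∃ s ∈ S2, ∃ α ∈ A2, y = s * α) {c : X} (hc : ∀ s ∈ S0, Commute c s) : c = 1 := by
  have iT : Inv a (⊤ : Subgroup X) := fun _ _ => Subgroup.mem_top _
  have s2 : SS a S2 := ss_down hSS iT le_top i2 H.pow5 fun y _ => n2 y
  have s1 : SS a S1 := ss_down s2 i2 h12 i1 H.pow5 n1
  have m0 : ∀ s ∈ S1, ∀ x ∈ S0, s * x * s⁻¹ ∈ S0 := by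
    intro s hs x hx
    have := n0 s⁻¹ (S1.inv_mem hs) x hx
    rwa [inv_inv] at this
  have m1 : ∀ s ∈ S2, ∀ x ∈ S1, s * x * s⁻¹ ∈ S1 := by
    intro s hs x hx
    have := n1 s⁻¹ (S2.inv_mem hs) x hx
    rwa [inv_inv] at this
  have hA : ∀ c ∈ S1, (∀ s ∈ S0, Commute c s) → c = 1 := fun c h h' =>
    cent_one H s1 i1 h01 i0 n0 l0 d0 h h'
  have hB : ∀ c ∈ S2, (∀ s ∈ S1, Commute c s) → c = 1 := fun c h h' =>
    cent_one H s2 i2 h12 i1 n1 l1 d1 h h'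
  have hC : ∀ c : X, (∀ s ∈ S2, Commute c s) → c = 1 := fun c h' =>
    cent_one H hSS iT le_top i2 (fun y _ => n2 y) l2
      (fun y _ => by
        obtain ⟨s, hs, α, hα, h⟩ := d2 y
        exact ⟨s, hs, α, hα, Subgroup.mem_top _, h⟩) (Subgroup.mem_top c) h'
  have hD : ∀ c ∈ S2, (∀ s ∈ S0, Commute c s) → c = 1 := by
    intro c h h'
    refine hB c h fun s hs => ch_comm (hA _ ?_ (ch_step (m0 s hs) h'))
    exact S1.mul_mem (n1 c h s⁻¹ (S1.inv_mem hs)) hs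
  have hE : ∀ c : X, (∀ s ∈ S1, Commute c s) → c = 1 := by
    intro c h'
    refine hC c fun s hs => ch_comm (hB _ ?_ (ch_step (m1 s hs) h'))
    exact S2.mul_mem (n2 c s⁻¹ (S2.inv_mem hs)) hs
  refine hE c fun s hs => ch_comm (hD _ ?_ (ch_step (m0 s hs) hc))
  exact S2.mul_mem (n2 c s⁻¹ (S2.inv_mem (h12 hs))) (h12 hs)

end Pool.Agent.FRB
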