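import Pool.Agent.FRB.Nrm
import Pool.Agent.FRB.Chain
import Pool.Agent.FRB.A1

/-!
# FRB/AbE: in a group with trivial locally finite radical the eigen-elements of a given degree commute

* `cent34`: an element commuting with all eigen-elements of degrees 3 and 4 is trivial: `chain` with `S0`, `S1`, `S2`,
  `A0 = A2 = closure (Lam 1)`, `A1 = closure (Lam 2)` (`a1_lf`, `ai_lf`, FRB/Nrm).
* `cent234`: an element commuting with all eigen-elements of degrees 2, 3, 4 is trivial (special case of `cent34`).
* `eig1_comm`: let `x`, `y` have degree 1.  By `same` it is enough that every eigen-element `q` of degree 2 in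
  `closure {x, y}` is trivial.  `q` commutes with degree 3 (`comm`), and with degree 4, because `x` and `y` do
  (`comm`, 1 + 4 = 5).  So `q = 1` by `cent34`.
* `eig_comm`: apply `eig1_comm` to the root `k^i` (`Root.pow`, `eig_root`); degree 0 by `Eig.triv`.
-/

set_option autoImplicit false

namespace Pool.Agent.FRB

universe u

variable {r k : ℕ} {X : Type u} [Group X] {a : MulAut X}

private theorem commute_closure {c : X} {S : Set X} (hS : ∀ t ∈ S, Commute c t) :
    ∀ s ∈ Subgroup.closure S, Commute c s := by
  intro s hs
  induction hs using Subgroup.closure_induction with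
  | mem x hx => exact hS x hx
  | one => exact Commute.one_right c
  | mul x y _ _ hx hy => exact hx.mul_right hy
  | inv x _ hx => exact hx.inv_right

theorem cent34 (h : Root r k) (H : Hyp r a) (hSS : SS a (⊤ : Subgroup X)) {c : X}
    (h3 : ∀ t : X, Eig r k a 3 t → Commute c t) (h4 : ∀ t : X, Eig r k a 4 t → Commute c t) : c = 1 := by
  have hi : ¬ 5 ∣ 2 := by norm_num
  refine chain H hSS (inv_S0 h) (inv_S1 h) (inv_S2 h) S0_le_S1 S1_le_S2 (nrm0 h H) (nrm1 h H)
    (nrm2 h H) (a1_lf h H) (ai_lf h H hi) (a1_lf h H) (dec0 h H) (dec1 h H) (dec2 h H) ?_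
  refine commute_closure ?_
  rintro t (ht | ht)
  · exact h3 t ht
  · exact h4 t ht

theorem eig1_comm (h : Root r k) (H : Hyp r a) (hSS : SS a (⊤ : Subgroup X)) {x y : X} (hx : Eig r k a 1 x)
    (hy : Eig r k a 1 y) : Commute x y := by
  refine same h H hx hy ?_
  intro e he h2
  refine cent34 h H hSS ?_ ?_
  · intro t ht
    exact comm h H (by norm_num) h2 ht
  · intro t ht
    refine (commute_closure (c := t) (S := {x, y}) ?_ e he).symm
    rintro z (hz | hz)
    · subst hz
      exact comm h H (by norm_num) ht hx
    · rw [Set.mem_singleton_iff] at hz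
      subst hz
      exact comm h H (by norm_num) ht hy

theorem eig_comm (h : Root r k) (H : Hyp r a) (hSS : SS a (⊤ : Subgroup X)) {i : ℕ} {x y : X}
    (hx : Eig r k a i x) (hy : Eig r k a i y) : Commute x y := by
  by_cases hi : 5 ∣ i
  · rw [Eig.triv h H hi hx]
    exact Commute.one_left y
  · refine eig1_comm (h.pow hi) H hSS ?_ ?_
    · rw [eig_root, mul_one]
      exact hx
    · rw [eig_root, mul_one]
      exact hy

end Pool.Agent.FRB
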