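import Pool.Agent.FRB.EigB

/-!
# FRB/Sub: restriction to an invariant subgroup

`res a S hS h5` is the restriction of `a` to `S` (FRB/Defs).  `res_hyp`: each field by mapping into `X` with
`S.subtype` (`Subgroup.map_closure`... : `(closure s).map S.subtype = closure (S.subtype '' s)`, a subset of a finite
set; `Set.Finite.of_finite_image` or `Set.Finite.preimage` with injectivity).
-/

set_option autoImplicit false

namespace Pool.Agent.FRB

variable {r k : ℕ} {X : Type*} [Group X] {a : MulAut X}

@[simp] theorem res_coe (S : Subgroup X) (hS : Inv a S) (h5 : ∀ x : X, a (a (a (a (a x)))) = x) (x : S) :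
    ((res a S hS h5 x : S) : X) = a (x : X) := rfl

private theorem sub_fin (S : Subgroup X) (s : Set S)
    (h : ((Subgroup.closure (S.subtype '' s) : Subgroup X) : Set X).Finite) :
    ((Subgroup.closure s : Subgroup S) : Set S).Finite := by
  refine Set.Finite.of_finite_image (f := S.subtype) ?_ (S.subtype_injective.injOn)
  rw [← MonoidHom.map_closure] at h
  exact h

theorem res_hyp (H : Hyp r a) (S : Subgroup X) (hS : Inv a S) : Hyp r (res a S hS H.pow5) := by
  refine ⟨fun x => ?_, fun x => ?_, fun x hx => ?_, fun x y => ?_, fun x => ?_⟩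
  · obtain ⟨n, hn⟩ := H.tors (x : X)
    exact ⟨n, Subtype.ext hn⟩
  · exact Subtype.ext (H.pow5 x)
  · exact Subtype.ext (H.fpf x (congrArg Subtype.val hx))
  · apply sub_fin
    have h := H.two (x : X) (y : X)
    rw [Set.image_pair]
    exact h
  · apply sub_fin
    have h := H.orb (x : X)
    simp only [Set.image_insert_eq, Set.image_singleton]
    exact h

theorem res_eig (H : Hyp r a) (S : Subgroup X) (hS : Inv a S) {i : ℕ} {x : S} :
    Eig r k (res a S hS H.pow5) i x ↔ Eig r k a i (x : X) := by
  constructor
  · rintro ⟨N, h1, h2⟩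
    exact ⟨N, congrArg Subtype.val h1, congrArg Subtype.val h2⟩
  · rintro ⟨N, h1, h2⟩
    exact ⟨N, Subtype.ext h1, Subtype.ext h2⟩

/-- finite type from a finite subgroup -/
theorem finite_coe {S : Subgroup X} (hS : (S : Set X).Finite) : Finite S := hS.to_subtype

end Pool.Agent.FRB
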