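import Pool.Agent.FRB.Lift
import Pool.Agent.FRB.Sub

/-!
# FRB/Comm: eigen-elements of opposite degrees commute

`comm_finite`: strong induction on `Nat.card X`.  If `X` is trivial: clear.  Otherwise the centre `Z` is nontrivial
(finite `r`-group); in `X ⧸ Z` (`quo_hyp`, `quo_eig`) the images of `x`, `y` commute, so `c = x⁻¹ * y⁻¹ * x * y` is
central.  Then `[x^m, y^n] = c^(m n)`, so `a c = [x^(K^i), y^(K^j)] = c^(K^(i+j)) = c` where `K = k^(r^M)` for `M` large
(`Eig.at`; `5 | i + j` and `K^5 = 1 (mod r^M)`; the order of `c` divides `r^M`), so `c = 1` by `H.fpf`.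

`comm`: apply `comm_finite` in the finite invariant subgroup generated by `x` and `y` (`inv_pair`, `res_hyp`, `res_eig`).
-/

set_option autoImplicit false

namespace Pool.Agent.FRB

universe u

variable {r k : ℕ}

/-- commutators with a central value are bimultiplicative -/
theorem comm_pow_pow {X : Type u} [Group X] {x y c : X} (hc : x⁻¹ * y⁻¹ * x * y = c) (hcx : Commute c x)
    (hcy : Commute c y) (m n : ℕ) : (x ^ m)⁻¹ * (y ^ n)⁻¹ * x ^ m * y ^ n = c ^ (m * n) := by
  have h1 : y⁻¹ * x * y = x * c := by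
    rw [← hc]
    group
  have h2 : ∀ n : ℕ, (y ^ n)⁻¹ * x * y ^ n = x * c ^ n := by
    intro n
    induction n with
    | zero => simp
    | succ n ih =>
      have h3 : (y ^ (n + 1))⁻¹ * x * y ^ (n + 1) = y⁻¹ * ((y ^ n)⁻¹ * x * y ^ n) * y := by
        rw [pow_succ]
        group
      have h4 : y⁻¹ * (x * c ^ n) * y = (y⁻¹ * x * y) * c ^ n := by
        have h5 : c ^ n * y = y * c ^ n := (hcy.pow_left n).eq
        rw [mul_assoc y⁻¹, mul_assoc x, h5]
        group
      rw [h3, ih, h4, h1, mul_assoc, ← pow_succ']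
  have h6 : (y ^ n)⁻¹ * x ^ m * y ^ n = x ^ m * c ^ (m * n) := by
    have h7 : ((y ^ n)⁻¹ * x * ((y ^ n)⁻¹)⁻¹) ^ m = (y ^ n)⁻¹ * x ^ m * ((y ^ n)⁻¹)⁻¹ := conj_pow
    rw [inv_inv] at h7
    rw [← h7, h2, ((hcx.pow_left n).symm).mul_pow, ← pow_mul, mul_comm n m]
  rw [mul_assoc ((x ^ m)⁻¹), mul_assoc ((x ^ m)⁻¹), h6, inv_mul_cancel_left]

theorem comm_finite (h : Root r k) {i j : ℕ} (hij : 5 ∣ i + j) (n : ℕ) : ∀ (X : Type u) [Group X] [Finite X]
    (a : MulAut X), Hyp r a → Nat.card X = n → ∀ x y : X, Eig r k a i x → Eig r k a j y → Commute x y := by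
  induction n using Nat.strong_induction_on with
  | _ n ih =>
    intro X _ _ a H hcard x y hx hy
    rcases subsingleton_or_nontrivial X with hs | hs
    · exact Subsingleton.elim _ _
    have : Fact r.Prime := ⟨h.prime⟩
    have hp : IsPGroup r X := H.tors
    have hZ : Nontrivial (Subgroup.center X) := hp.center_nontrivial
    have hlt : Nat.card (X ⧸ Subgroup.center X) < n := by
      have h1 : Nat.card X = Nat.card (X ⧸ Subgroup.center X) * Nat.card (Subgroup.center X) :=
        Subgroup.card_eq_card_quotient_mul_card_subgroup _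
      have h2 : 1 < Nat.card (Subgroup.center X) := Finite.one_lt_card
      have h3 : 0 < Nat.card (X ⧸ Subgroup.center X) := Nat.card_pos
      rw [← hcard, h1]
      exact lt_mul_of_one_lt_right h3 h2
    have hq := ih _ hlt (X ⧸ Subgroup.center X) (quo a (Subgroup.center X) (inv_center a) H.pow5)
      (quo_hyp H _ (inv_center a)) rfl (x : X ⧸ Subgroup.center X) (y : X ⧸ Subgroup.center X)
      (quo_eig _ (inv_center a) H.pow5 hx) (quo_eig _ (inv_center a) H.pow5 hy)
    obtain ⟨c, hc⟩ : ∃ c, c = x⁻¹ * y⁻¹ * x * y := ⟨_, rfl⟩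
    have hcZ : c ∈ Subgroup.center X := by
      have h1 : ((y * x : X) : X ⧸ Subgroup.center X) = ((x * y : X) : X ⧸ Subgroup.center X) :=
        hq.eq.symm
      rw [QuotientGroup.eq] at h1
      have h2 : c = (y * x)⁻¹ * (x * y) := by
        rw [hc]
        group
      rw [h2]
      exact h1
    have hcom : ∀ g : X, Commute c g := fun g => (Subgroup.mem_center_iff.1 hcZ g).symm
    obtain ⟨N1, h1⟩ := H.tors x
    obtain ⟨N2, h2⟩ := H.tors y
    obtain ⟨N3, h3⟩ := H.tors c
    obtain ⟨M, hM⟩ : ∃ M, M = max N1 (max N2 N3) := ⟨_, rfl⟩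
    have up : ∀ (g : X) (N : ℕ), N ≤ M → g ^ (r ^ N) = 1 → g ^ (r ^ M) = 1 := by
      intro g N hN hg
      obtain ⟨d, hd⟩ := pow_dvd_pow r hN
      rw [hd, pow_mul, hg, one_pow]
    have h1' := up x N1 (hM ▸ le_max_left _ _) h1
    have h2' := up y N2 (hM ▸ (le_max_left _ _).trans (le_max_right _ _)) h2
    have h3' := up c N3 (hM ▸ (le_max_right _ _).trans (le_max_right _ _)) h3
    have hac : a c = c := by
      have h4 : a c = (x ^ (k ^ (i * r ^ M)))⁻¹ * (y ^ (k ^ (j * r ^ M)))⁻¹ *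
          x ^ (k ^ (i * r ^ M)) * y ^ (k ^ (j * r ^ M)) := by
        rw [hc, map_mul, map_mul, map_mul, map_inv, map_inv, hx.at h h1', hy.at h h2']
      rw [h4, comm_pow_pow hc.symm (hcom x) (hcom y)]
      obtain ⟨l, hl⟩ := hij
      have h5 : k ^ (i * r ^ M) * k ^ (j * r ^ M) = (k ^ (5 * r ^ M)) ^ l := by
        rw [← pow_add, ← pow_mul, ← add_mul, hl]
        congr 1
        ring
      have h6 : k ^ (i * r ^ M) * k ^ (j * r ^ M) ≡ 1 [MOD r ^ (M + 1)] := by
        rw [h5]
        have h7 := (h.pow5_lift M).pow l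
        rwa [one_pow] at h7
      have h8 : orderOf c ∣ r ^ (M + 1) :=
        (orderOf_dvd_of_pow_eq_one h3').trans (pow_dvd_pow r (Nat.le_succ M))
      have h9 := pow_eq_pow_iff_modEq.2 (h6.of_dvd h8)
      rw [h9, pow_one]
    have hc1 := H.fpf c hac
    rw [hc1] at hc
    show x * y = y * x
    have h10 : x * y = y * x * (x⁻¹ * y⁻¹ * x * y) := by group
    rw [h10, ← hc, mul_one]

theorem comm {X : Type u} [Group X] {a : MulAut X} (h : Root r k) (H : Hyp r a) {i j : ℕ} (hij : 5 ∣ i + j)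
    {x y : X} (hx : Eig r k a i x) (hy : Eig r k a j y) : Commute x y := by
  have hS := inv_pair h hx hy
  have hfin : Finite (Subgroup.closure ({x, y} : Set X)) := finite_coe (H.two x y)
  have hxm : x ∈ Subgroup.closure ({x, y} : Set X) := Subgroup.subset_closure (by simp)
  have hym : y ∈ Subgroup.closure ({x, y} : Set X) := Subgroup.subset_closure (by simp)
  have h1 := comm_finite h hij _ (Subgroup.closure ({x, y} : Set X))
    (res a (Subgroup.closure ({x, y} : Set X)) hS H.pow5) (res_hyp H _ hS) rfl ⟨x, hxm⟩ ⟨y, hym⟩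
    ((res_eig H _ hS).2 hx) ((res_eig H _ hS).2 hy)
  exact congrArg Subtype.val h1.eq

end Pool.Agent.FRB
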