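import Mathlib

/-!
# FRB: binary finite Frobenius groups with complement of order 5 (definitions)

`r` is a prime with `r = 1 (mod 5)`, `k` a primitive fifth root of unity modulo `r`; `k ^ (r ^ N)` is a fifth root
of unity modulo `r ^ (N+1)` congruent to `k` modulo `r`.  `X` is a group, all elements have `r`-power order, `a` an
automorphism of `X` with `a^5 = 1`.  `Eig r k a i x` means that `a x` is the power `zeta ^ i` of `x`.
-/

set_option autoImplicit false

namespace Pool.Agent.FRB

/-- `k` is a primitive fifth root of unity modulo the prime `r`, `r = 1 (mod 5)`. -/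
structure Root (r k : ℕ) : Prop where
  prime : r.Prime
  mod5 : r % 5 = 1
  pow5 : k ^ 5 ≡ 1 [MOD r]
  ne1 : ¬ k ≡ 1 [MOD r]

/-- The subgroup `S` is invariant under `a`. -/
def Inv {X : Type*} [Group X] (a : MulAut X) (S : Subgroup X) : Prop := ∀ x ∈ S, a x ∈ S

/-- Eigen-elements of degree `i`: `a` raises `x` to the power `k ^ (i * r ^ N)`, where `x ^ (r ^ N) = 1`. -/
def Eig (r k : ℕ) {X : Type*} [Group X] (a : MulAut X) (i : ℕ) (x : X) : Prop :=
  ∃ N : ℕ, x ^ (r ^ N) = 1 ∧ a x = x ^ (k ^ (i * r ^ N))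

/-- The standing hypotheses on `X` and `a`. -/
structure Hyp (r : ℕ) {X : Type*} [Group X] (a : MulAut X) : Prop where
  tors : ∀ x : X, ∃ n : ℕ, x ^ (r ^ n) = 1
  pow5 : ∀ x : X, a (a (a (a (a x)))) = x
  fpf : ∀ x : X, a x = x → x = 1
  two : ∀ x y : X, ((Subgroup.closure ({x, y} : Set X) : Subgroup X) : Set X).Finite
  orb : ∀ x : X, ((Subgroup.closure ({x, a x, a (a x), a (a (a x)), a (a (a (a x)))} : Set X) :
    Subgroup X) : Set X).Finite

/-- `S` is locally finite. -/
def LF {X : Type*} [Group X] (S : Subgroup X) : Prop :=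
  ∀ s : Finset X, (s : Set X) ⊆ S → ((Subgroup.closure (s : Set X) : Subgroup X) : Set X).Finite

/-- `Y` has no nontrivial locally finite `a`-invariant subgroup normalised by `Y`. -/
def SS {X : Type*} [Group X] (a : MulAut X) (Y : Subgroup X) : Prop :=
  ∀ L : Subgroup X, L ≤ Y → Inv a L → (∀ y ∈ Y, ∀ x ∈ L, y⁻¹ * x * y ∈ L) → LF L → L = ⊥

/-- The set of eigen-elements of degree `i`. -/
def Lam (r k : ℕ) {X : Type*} [Group X] (a : MulAut X) (i : ℕ) : Set X := {x | Eig r k a i x}

/-- The restriction of `a` to an invariant subgroup. -/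
def res {X : Type*} [Group X] (a : MulAut X) (S : Subgroup X) (hS : Inv a S)
    (h5 : ∀ x : X, a (a (a (a (a x)))) = x) : MulAut S where
  toFun x := ⟨a x, hS x x.2⟩
  invFun x := ⟨a (a (a (a x))), hS _ (hS _ (hS _ (hS _ x.2)))⟩
  left_inv x := Subtype.ext (h5 x)
  right_inv x := Subtype.ext (h5 x)
  map_mul' x y := Subtype.ext (map_mul a (x : X) (y : X))

/-- The automorphism induced by `a` on a quotient by an invariant normal subgroup. -/
def quo {X : Type*} [Group X] (a : MulAut X) (N : Subgroup X) [N.Normal] (hN : Inv a N)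
    (h5 : ∀ x : X, a (a (a (a (a x)))) = x) : MulAut (X ⧸ N) :=
  MonoidHom.toMulEquiv
    (QuotientGroup.map N N (a : X →* X) (fun x hx => hN x hx))
    (QuotientGroup.map N N ((a * a * a * a : MulAut X) : X →* X)
      (fun x hx => hN _ (hN _ (hN _ (hN _ hx)))))
    (by
      ext x
      exact congrArg (QuotientGroup.mk (s := N)) (h5 x))
    (by
      ext x
      exact congrArg (QuotientGroup.mk (s := N)) (h5 x))

/-- The relations satisfied by eigen-elements `x` of degree 1 and `y` of degree 2: there are eigen-elements `c`,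
`w` of degrees 3, 4 with `[x,y] = c w^s`, `[x,c] = w`, `c` commutes with `y`, `w` commutes with `x` and `y`. -/
def PairRel (r k : ℕ) {X : Type*} [Group X] (a : MulAut X) (x y c w : X) (s : ℤ) : Prop :=
  Eig r k a 3 c ∧ Eig r k a 4 w ∧ y⁻¹ * x * y = x * (c * w ^ s) ∧ x⁻¹ * c⁻¹ * x * c = w ∧
    Commute c y ∧ Commute w x ∧ Commute w y

end Pool.Agent.FRB
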