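import Pool.Agent.FRB.Num

/-!
# FRB/EigB: elementary properties of eigen-elements

All from FRB/Num.  `Eig.at`: if `x^(r^N) = 1 = x^(r^M)`, the exponents `k^(i r^N)` and `k^(i r^M)` are congruent
modulo `r^(min N M + 1)`, hence modulo a multiple of the order of `x` (`pow_eq_pow_iff_modEq`, `orderOf_dvd_of_pow_eq_one`).
`Eig.triv`: if `5 | i` then `k^(i r^M) = 1 (mod r^M)`, so `a x = x` and `x = 1` by `H.fpf`.
`Eig.disj`: `x ^ (k^(i r^M)) = x ^ (k^(j r^M))`, the difference of the exponents is coprime to the order of `x`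
(`Root.cop`), so `x = 1`.
`eig_root`: `(k^j)^(i * r^N) = k^(j * i * r^N)`, definitional up to `pow_mul`, `mul_assoc`.
`inv_closure`: `Subgroup.closure_induction` (for inverses `map_inv`).
-/

set_option autoImplicit false

namespace Pool.Agent.FRB

variable {r k : ℕ} {X : Type*} [Group X] {a : MulAut X}

private theorem pw {x : X} {N u v : ℕ} (hx : x ^ (r ^ N) = 1) (huv : u ≡ v [MOD r ^ (N + 1)]) :
    x ^ u = x ^ v := by
  rw [pow_eq_pow_iff_modEq]
  exact huv.of_dvd ((orderOf_dvd_of_pow_eq_one hx).trans (pow_dvd_pow r (Nat.le_succ N)))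

theorem Eig.at (h : Root r k) {i : ℕ} {x : X} (hx : Eig r k a i x) {M : ℕ} (hM : x ^ (r ^ M) = 1) :
    a x = x ^ (k ^ (i * r ^ M)) := by
  obtain ⟨N, hN, hx⟩ := hx
  rw [hx]
  rcases le_total N M with hle | hle
  · exact (pw hN (h.stable hle i)).symm
  · exact pw hM (h.stable hle i)

private theorem up {x : X} {N M : ℕ} (hN : x ^ (r ^ N) = 1) (hle : N ≤ M) : x ^ (r ^ M) = 1 := by
  obtain ⟨d, rfl⟩ := Nat.exists_eq_add_of_le hle
  rw [pow_add, pow_mul, hN, one_pow]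

theorem Eig.one (i : ℕ) : Eig r k a i (1 : X) :=
  ⟨0, one_pow _, by rw [map_one, one_pow]⟩

theorem Eig.pow (h : Root r k) {i : ℕ} {x : X} (hx : Eig r k a i x) (n : ℕ) : Eig r k a i (x ^ n) := by
  obtain ⟨N, hN, hx⟩ := hx
  refine ⟨N, ?_, ?_⟩
  · rw [← pow_mul, mul_comm, pow_mul, hN, one_pow]
  · rw [map_pow, hx, ← pow_mul, ← pow_mul, mul_comm]

theorem Eig.inv (h : Root r k) {i : ℕ} {x : X} (hx : Eig r k a i x) : Eig r k a i x⁻¹ := by
  obtain ⟨N, hN, hx⟩ := hx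
  refine ⟨N, ?_, ?_⟩
  · rw [inv_pow, hN, inv_one]
  · rw [map_inv, hx, inv_pow]

theorem Eig.zpow (h : Root r k) {i : ℕ} {x : X} (hx : Eig r k a i x) (n : ℤ) : Eig r k a i (x ^ n) := by
  obtain ⟨m, rfl | rfl⟩ := n.eq_nat_or_neg
  · rw [zpow_natCast]
    exact hx.pow h m
  · rw [zpow_neg, zpow_natCast]
    exact (hx.pow h m).inv h

theorem Eig.mul (h : Root r k) {i : ℕ} {x y : X} (hx : Eig r k a i x) (hy : Eig r k a i y)
    (hxy : Commute x y) : Eig r k a i (x * y) := by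
  obtain ⟨N, hN, hx'⟩ := id hx
  obtain ⟨M, hM, hy'⟩ := id hy
  have h1 : x ^ (r ^ max N M) = 1 := up hN (le_max_left _ _)
  have h2 : y ^ (r ^ max N M) = 1 := up hM (le_max_right _ _)
  refine ⟨max N M, ?_, ?_⟩
  · rw [hxy.mul_pow, h1, h2, one_mul]
  · rw [map_mul, hx.at h h1, hy.at h h2, hxy.mul_pow]

theorem Eig.app (h : Root r k) {i : ℕ} {x : X} (hx : Eig r k a i x) : Eig r k a i (a x) := by
  obtain ⟨N, _, hx'⟩ := id hx
  rw [hx']
  exact hx.pow h _

theorem Eig.congr (h : Root r k) {i j : ℕ} {x : X} (hij : i ≡ j [MOD 5]) (hx : Eig r k a i x) :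
    Eig r k a j x := by
  obtain ⟨N, hN, hx'⟩ := hx
  refine ⟨N, hN, ?_⟩
  rw [hx']
  exact pw hN (h.congr5 hij N)

theorem eig_root (j i : ℕ) (x : X) : Eig r (k ^ j) a i x ↔ Eig r k a (j * i) x := by
  have h : ∀ N, (k ^ j) ^ (i * r ^ N) = k ^ (j * i * r ^ N) := fun N => by
    rw [← pow_mul, mul_assoc]
  unfold Eig
  simp only [h]

theorem Eig.triv (h : Root r k) (H : Hyp r a) {i : ℕ} {x : X} (hi : 5 ∣ i) (hx : Eig r k a i x) : x = 1 := by
  have h0 : i ≡ 0 [MOD 5] := (Nat.modEq_zero_iff_dvd).2 hi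
  obtain ⟨N, _, hx'⟩ := hx.congr h h0
  refine H.fpf x ?_
  rw [hx', zero_mul, pow_zero, pow_one]

theorem Eig.disj (h : Root r k) {i j : ℕ} {x : X} (hij : ¬ i ≡ j [MOD 5]) (hi : Eig r k a i x)
    (hj : Eig r k a j x) : x = 1 := by
  obtain ⟨N, hN, _⟩ := id hi
  have h1 : x ^ (k ^ (i * r ^ N)) = x ^ (k ^ (j * r ^ N)) := by
    rw [← hi.at h hN, ← hj.at h hN]
  have h2 : x ^ ((k : ℤ) ^ (i * r ^ N) - (k : ℤ) ^ (j * r ^ N)) = 1 := by
    rw [zpow_sub, mul_inv_eq_one]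
    have e1 : x ^ ((k : ℤ) ^ (i * r ^ N)) = x ^ (k ^ (i * r ^ N)) := by
      rw [← zpow_natCast, Nat.cast_pow]
    have e2 : x ^ ((k : ℤ) ^ (j * r ^ N)) = x ^ (k ^ (j * r ^ N)) := by
      rw [← zpow_natCast, Nat.cast_pow]
    rw [e1, e2, h1]
  have h3 : x ^ ((r : ℤ) ^ N) = 1 := by
    rw [← Nat.cast_pow, zpow_natCast, hN]
  obtain ⟨u, v, huv⟩ := (h.cop hij N).pow_right (n := N)
  calc x = x ^ (1 : ℤ) := (zpow_one x).symm
    _ = x ^ (u * ((k : ℤ) ^ (i * r ^ N) - (k : ℤ) ^ (j * r ^ N)) + v * (r : ℤ) ^ N) := by rw [huv]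
    _ = 1 := by
      rw [zpow_add, mul_comm u, mul_comm v, zpow_mul, zpow_mul, h2, h3, one_zpow, one_zpow, one_mul]

theorem Eig.mem (h : Root r k) {i : ℕ} {x : X} (hx : Eig r k a i x) : a x ∈ Subgroup.zpowers x := by
  obtain ⟨N, _, hx'⟩ := hx
  rw [hx']
  exact Subgroup.pow_mem _ (Subgroup.mem_zpowers x) _

/-- A criterion: it is enough to know the image of `x` for one exponent. -/
theorem eig_of (N : ℕ) {i : ℕ} {x : X} (hN : x ^ (r ^ N) = 1) (hx : a x = x ^ (k ^ (i * r ^ N))) :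
    Eig r k a i x := ⟨N, hN, hx⟩

theorem inv_closure {s : Set X} (hs : ∀ x ∈ s, a x ∈ Subgroup.closure s) : Inv a (Subgroup.closure s) := by
  intro x hx
  induction hx using Subgroup.closure_induction with
  | mem x hx => exact hs x hx
  | one => rw [map_one]; exact Subgroup.one_mem _
  | mul x y _ _ hx hy => rw [map_mul]; exact Subgroup.mul_mem _ hx hy
  | inv x _ hx => rw [map_inv]; exact Subgroup.inv_mem _ hx

theorem inv_pair (h : Root r k) {i j : ℕ} {x y : X} (hx : Eig r k a i x) (hy : Eig r k a j y) :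
    Inv a (Subgroup.closure ({x, y} : Set X)) := by
  refine inv_closure fun z hz => ?_
  rcases hz with rfl | hz
  · exact (Subgroup.zpowers_le.2 (Subgroup.subset_closure (Set.mem_insert _ _))) (hx.mem h)
  · rw [Set.mem_singleton_iff] at hz
    subst hz
    exact (Subgroup.zpowers_le.2 (Subgroup.subset_closure
      (Set.mem_insert_of_mem _ (Set.mem_singleton _)))) (hy.mem h)

theorem inv_orb (H : Hyp r a) (x : X) :
    Inv a (Subgroup.closure ({x, a x, a (a x), a (a (a x)), a (a (a (a x)))} : Set X)) := by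
  refine inv_closure fun z hz => Subgroup.subset_closure ?_
  simp only [Set.mem_insert_iff, Set.mem_singleton_iff] at hz ⊢
  rcases hz with rfl | rfl | rfl | rfl | rfl
  · exact Or.inr (Or.inl rfl)
  · exact Or.inr (Or.inr (Or.inl rfl))
  · exact Or.inr (Or.inr (Or.inr (Or.inl rfl)))
  · exact Or.inr (Or.inr (Or.inr (Or.inr rfl)))
  · exact Or.inl (H.pow5 x)

end Pool.Agent.FRB
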