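import Pool.Agent.FRB.Trick
import Pool.Agent.FRB.AbE

/-!
# FRB/Fin: a group with trivial locally finite radical is trivial

* `comm12`: degrees 1 and 2 commute: in `pair12`, `c = 1` by `trick_c` and `cent34`, so `w = [x,c] = 1` and `[x,y] = 1`.
* `comm_all`: eigen-elements of degrees `i`, `j` in `1..4` commute: equal degrees `eig_comm`, `i + j = 5` `comm`, the
  others are `{j, 2j}` (mod 5) for some `j`: `comm12` for the root `k^j` (`Root.pow`, `eig_root`, `Eig.congr`):
  {1,2}: j=1; {2,4}: j=2; {3,1}: j=3; {4,3}: j=4.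
* `ss_trivial`: `X` is generated by eigen-elements (`gen` with `S = ⊤`), so it is commutative, locally finite
  (`lf_comm`), so `⊤ = ⊥` by `SS a ⊤`.
-/

set_option autoImplicit false

namespace Pool.Agent.FRB

universe u

variable {r k : ℕ} {X : Type u} [Group X] {a : MulAut X}

theorem comm12 (h : Root r k) (H : Hyp r a) (hSS : SS a (⊤ : Subgroup X)) {x y : X} (hx : Eig r k a 1 x)
    (hy : Eig r k a 2 y) : Commute x y := by
  obtain ⟨c, w, s, hP, -, -⟩ := pair12 h H hx hy
  obtain ⟨t2, t3, t4⟩ := trick_c h H (fun i x y => eig_comm h H hSS) hx hy hP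
  have hc : c = 1 := cent34 h H hSS t3 t4
  obtain ⟨-, -, h1, h2, -, -, -⟩ := hP
  subst hc
  have hw : w = 1 := by
    rw [← h2]; group
  subst hw
  have h3 : y⁻¹ * x * y = x := by
    rw [h1]; simp
  show x * y = y * x
  calc x * y = y * (y⁻¹ * x * y) := by group
    _ = y * x := by rw [h3]

private theorem comm12' (h : Root r k) (H : Hyp r a) (hSS : SS a (⊤ : Subgroup X)) {i j l : ℕ} (hl : ¬ 5 ∣ l)
    (hi : i ≡ l * 1 [MOD 5]) (hj : j ≡ l * 2 [MOD 5]) {x y : X} (hx : Eig r k a i x)
    (hy : Eig r k a j y) : Commute x y :=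
  comm12 (h.pow hl) H hSS ((eig_root l 1 x).2 (Eig.congr h hi hx)) ((eig_root l 2 y).2 (Eig.congr h hj hy))

theorem comm_all (h : Root r k) (H : Hyp r a) (hSS : SS a (⊤ : Subgroup X)) {i j : ℕ} {x y : X}
    (hx : Eig r k a i x) (hy : Eig r k a j y) : Commute x y := by
  by_cases hi : 5 ∣ i
  · rw [Eig.triv h H hi hx]; exact Commute.one_left _
  by_cases hj : 5 ∣ j
  · rw [Eig.triv h H hj hy]; exact Commute.one_right _
  by_cases hij : i ≡ j [MOD 5]
  · exact eig_comm h H hSS (Eig.congr h hij hx) hy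
  by_cases hs : 5 ∣ i + j
  · exact comm h H hs hx hy
  have key : j ≡ i * 2 [MOD 5] ∨ i ≡ j * 2 [MOD 5] := by
    unfold Nat.ModEq at *
    have hi5 : i % 5 = 1 ∨ i % 5 = 2 ∨ i % 5 = 3 ∨ i % 5 = 4 := by omega
    have hj5 : j % 5 = 1 ∨ j % 5 = 2 ∨ j % 5 = 3 ∨ j % 5 = 4 := by omega
    rcases hi5 with hi5 | hi5 | hi5 | hi5 <;> rcases hj5 with hj5 | hj5 | hj5 | hj5 <;> omega
  rcases key with hk | hk
  · exact comm12' h H hSS hi (by rw [mul_one]) hk hx hy
  · exact (comm12' h H hSS hj (by rw [mul_one]) hk hy hx).symm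

theorem ss_trivial (h : Root r k) (H : Hyp r a) (hSS : SS a (⊤ : Subgroup X)) (x : X) : x = 1 := by
  have hcl : ∀ x : X, x ∈ Subgroup.closure {e : X | ∃ i, Eig r k a i e} := by
    intro x
    have h1 := gen h H (S := (⊤ : Subgroup X)) (fun y _ => Subgroup.mem_top _) (Subgroup.mem_top x)
    refine Subgroup.closure_mono ?_ h1
    rintro e ⟨-, he⟩
    rcases he with he | he | he | he
    exacts [⟨_, he⟩, ⟨_, he⟩, ⟨_, he⟩, ⟨_, he⟩]
  have hcomm : ∀ x y : X, Commute x y := by
    intro x y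
    have h2 : ∀ (e : X), (∃ i, Eig r k a i e) → ∀ y : X, Commute e y := by
      rintro e ⟨i, he⟩ y
      induction hcl y using Subgroup.closure_induction with
      | mem z hz => obtain ⟨j, hj⟩ := hz; exact comm_all h H hSS he hj
      | one => exact Commute.one_right _
      | mul z w _ _ hz hw => exact Commute.mul_right hz hw
      | inv z _ hz => exact Commute.inv_right hz
    induction hcl x using Subgroup.closure_induction with
    | mem z hz => exact h2 z hz y
    | one => exact Commute.one_left _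
    | mul z w _ _ hz hw => exact Commute.mul_left hz hw
    | inv z _ hz => exact Commute.inv_left hz
  have hLF : LF (⊤ : Subgroup X) := by
    refine lf_comm (fun x _ y _ => hcomm x y) (fun x _ => ?_)
    obtain ⟨n, hn⟩ := H.tors x
    exact ⟨r ^ n, pow_pos h.prime.pos n, hn⟩
  have hbot := hSS ⊤ le_rfl (fun y _ => Subgroup.mem_top _) (fun y _ x _ => Subgroup.mem_top _) hLF
  have hx : x ∈ (⊥ : Subgroup X) := by
    rw [← hbot]; exact Subgroup.mem_top x
  exact Subgroup.mem_bot.1 hx

end Pool.Agent.FRB
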