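import Pool.Agent.FRB.EigB

/-!
# FRB/Fix: `a` acts without fixed points on all sections

`fix`: let `O` be the (finite, `a`-invariant) closure of the orbit of `x`.  The map `f z = z⁻¹ * a z` is injective
(`z⁻¹ a z = w⁻¹ a w` gives `a (w z⁻¹) = w z⁻¹`... so `w = z` by `H.fpf`).  It maps the finite set `N ⊓ O` into
itself, hence it is surjective there (`Set.Finite` + injective: `Finite.injective_iff_surjective`, or
`Set.Finite.surjOn_of_injOn_of_ncard_le` / `Set.surjOn_of_injOn_of_ncard_le`).  `x⁻¹ * a x ∈ N ⊓ O`, so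
`x⁻¹ * a x = m⁻¹ * a m` with `m ∈ N`, and `x = m`.
-/

set_option autoImplicit false

namespace Pool.Agent.FRB

variable {r k : ℕ} {X : Type*} [Group X] {a : MulAut X}

theorem fix (H : Hyp r a) {N : Subgroup X} (hN : Inv a N) {x : X} (hx : x⁻¹ * a x ∈ N) : x ∈ N := by
  have hinj : ∀ z w : X, z⁻¹ * a z = w⁻¹ * a w → z = w := by
    intro z w h
    have h1 : a (w * z⁻¹) = w * z⁻¹ := by
      rw [map_mul, map_inv]
      have h2 : a w = w * (z⁻¹ * a z) := by
        rw [h]
        group
      rw [h2]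
      group
    have h3 := H.fpf _ h1
    exact (mul_inv_eq_one.mp h3).symm
  have hO := inv_orb H x
  have hfin := H.orb x
  set O : Subgroup X := Subgroup.closure ({x, a x, a (a x), a (a (a x)), a (a (a (a x)))} : Set X)
    with hOdef
  have hxO : x ∈ O := Subgroup.subset_closure (by simp)
  have haxO : a x ∈ O := hO x hxO
  have hfin2 : Finite ↥(N ⊓ O) := by
    have h1 : ((N ⊓ O : Subgroup X) : Set X).Finite := hfin.subset (fun z hz => hz.2)
    exact h1.to_subtype
  let g : ↥(N ⊓ O) → ↥(N ⊓ O) := fun z =>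
    ⟨(z : X)⁻¹ * a (z : X), N.mul_mem (N.inv_mem z.2.1) (hN _ z.2.1),
      O.mul_mem (O.inv_mem z.2.2) (hO _ z.2.2)⟩
  have hg : Function.Injective g := by
    intro z w h
    exact Subtype.ext (hinj z w (congrArg Subtype.val h))
  have hs := Finite.surjective_of_injective hg
  obtain ⟨m, hm⟩ := hs ⟨x⁻¹ * a x, hx, O.mul_mem (O.inv_mem hxO) haxO⟩
  have h4 : (m : X)⁻¹ * a (m : X) = x⁻¹ * a x := congrArg Subtype.val hm
  have h5 := hinj _ _ h4
  rw [← h5]
  exact m.2.1

end Pool.Agent.FRB
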