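import Pool.Agent.FRB.Lift
import Pool.Agent.FRB.Sub

/-!
# FRB/Gen: everything is generated by eigen-elements

`center_dec`: let `x` be central, `x^(r^M) = 1`, `K = k^(r^M)`, so `K^5 = 1` modulo `r^M`.  Write `x_m = a^m x`
(central, commuting).  For `j = 0..4` put
`e_j = (x_0 * x_1^(K^(4j)) * x_2^(K^(3j)) * x_3^(K^(2j)) * x_4^(K^j))^f`, `5 f = 1 (mod r^M)`; then
`a e_j = e_j^(K^j)`, so `e_j` is an eigen-element of degree `j`, and `x = e_0 e_1 e_2 e_3 e_4`, because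
`sum_j K^(j m) = 0` for `m = 1..4`.

`gen_finite`: strong induction on `Nat.card X`, by passing to the quotient by the centre.

`gen`: apply `gen_finite` to the closure of the orbit of `x`.
-/

set_option autoImplicit false

namespace Pool.Agent.FRB

universe u

variable {r k : ℕ}

private theorem pw {A : Type*} [Monoid A] {y : A} {n s t : ℕ} (hy : y ^ n = 1) (h : s ≡ t [MOD n]) :
    y ^ s = y ^ t := by
  rw [pow_eq_pow_mod s hy, pow_eq_pow_mod t hy, h]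

private theorem sum_root (h : Root r k) (M : ℕ) {m : ℕ} (hm : ¬ 5 ∣ m) :
    k ^ (m * 0 * r ^ M) + k ^ (m * 1 * r ^ M) + k ^ (m * 2 * r ^ M) + k ^ (m * 3 * r ^ M) +
      k ^ (m * 4 * r ^ M) ≡ 0 [MOD r ^ M] := by
  have h1 : IsCoprime ((k : ℤ) ^ (m * r ^ M) - 1) (r : ℤ) := by
    have h2 := h.cop (i := m) (j := 0) (by
      intro h3
      exact hm ((Nat.modEq_zero_iff_dvd).1 h3)) M
    rwa [Nat.zero_mul, pow_zero] at h2
  have h2 : IsCoprime ((r : ℤ) ^ M) ((k : ℤ) ^ (m * r ^ M) - 1) := h1.symm.pow_left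
  have h3 : k ^ (m * 5 * r ^ M) ≡ 1 [MOD r ^ M] := by
    have h4 := (h.pow5_lift M).pow m
    rw [← pow_mul, one_pow] at h4
    have h5 : 5 * r ^ M * m = m * 5 * r ^ M := by ring
    rw [h5] at h4
    exact h4.of_dvd (pow_dvd_pow r (Nat.le_succ M))
  have h4 : ((r ^ M : ℕ) : ℤ) ∣ (k : ℤ) ^ (m * 5 * r ^ M) - 1 := by
    have h5 := (Nat.modEq_iff_dvd.1 h3.symm)
    push_cast at h5 ⊢
    exact h5
  set q : ℤ := (k : ℤ) ^ (m * r ^ M) with hq
  have e : ∀ j : ℕ, (k : ℤ) ^ (m * j * r ^ M) = q ^ j := by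
    intro j
    rw [hq, ← pow_mul]
    congr 1
    ring
  rw [e] at h4
  have h5 : q ^ 5 - 1 = (q ^ 0 + q ^ 1 + q ^ 2 + q ^ 3 + q ^ 4) * (q - 1) := by ring
  rw [h5] at h4
  have h6 : ((r ^ M : ℕ) : ℤ) ∣ q ^ 0 + q ^ 1 + q ^ 2 + q ^ 3 + q ^ 4 := by
    refine IsCoprime.dvd_of_dvd_mul_right ?_ h4
    push_cast
    exact h2
  refine (Nat.modEq_zero_iff_dvd).2 ?_
  have h7 : ((r ^ M : ℕ) : ℤ) ∣ ((k ^ (m * 0 * r ^ M) + k ^ (m * 1 * r ^ M) +
      k ^ (m * 2 * r ^ M) + k ^ (m * 3 * r ^ M) + k ^ (m * 4 * r ^ M) : ℕ) : ℤ) := by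
    rw [Nat.cast_add, Nat.cast_add, Nat.cast_add, Nat.cast_add, Nat.cast_pow k, Nat.cast_pow k,
      Nat.cast_pow k, Nat.cast_pow k, Nat.cast_pow k, e, e, e, e, e]
    exact h6
  exact_mod_cast h7

private theorem comm_dec {A : Type*} [CommGroup A] (α : A →* A) (h : Root r k) (M : ℕ)
    {x : A} (hx : x ^ (r ^ M) = 1) (h5 : α (α (α (α (α x)))) = x) :
    ∃ e0 e1 e2 e3 e4 : A, (e0 ^ (r ^ M) = 1 ∧ α e0 = e0 ^ (k ^ (0 * r ^ M))) ∧
      (e1 ^ (r ^ M) = 1 ∧ α e1 = e1 ^ (k ^ (1 * r ^ M))) ∧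
      (e2 ^ (r ^ M) = 1 ∧ α e2 = e2 ^ (k ^ (2 * r ^ M))) ∧
      (e3 ^ (r ^ M) = 1 ∧ α e3 = e3 ^ (k ^ (3 * r ^ M))) ∧
      (e4 ^ (r ^ M) = 1 ∧ α e4 = e4 ^ (k ^ (4 * r ^ M))) ∧ x = e0 * e1 * e2 * e3 * e4 := by
  obtain ⟨f, hf⟩ : ∃ f : ℕ, 5 * f ≡ 1 [MOD r ^ M] :=
    ⟨_, (Nat.exists_mul_mod_eq_of_coprime 1 (h.cop_5.pow_right M)
      (pow_ne_zero M h.prime.ne_zero)).choose_spec.2⟩
  set x0 := x with hx0
  set x1 := α x0 with hx1
  set x2 := α x1 with hx2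
  set x3 := α x2 with hx3
  set x4 := α x3 with hx4
  have p1 : x1 ^ (r ^ M) = 1 := by rw [hx1, ← map_pow, hx, map_one]
  have p2 : x2 ^ (r ^ M) = 1 := by rw [hx2, ← map_pow, p1, map_one]
  have p3 : x3 ^ (r ^ M) = 1 := by rw [hx3, ← map_pow, p2, map_one]
  have p4 : x4 ^ (r ^ M) = 1 := by rw [hx4, ← map_pow, p3, map_one]
  let E : ℕ → ℕ := fun i => k ^ (i * r ^ M)
  let e : ℕ → A := fun j => (x0 * x1 ^ (E (4 * j)) * x2 ^ (E (3 * j)) * x3 ^ (E (2 * j)) *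
    x4 ^ (E (1 * j))) ^ f
  have hE : ∀ i j, E i * E j = E (i + j) := by
    intro i j
    show k ^ (i * r ^ M) * k ^ (j * r ^ M) = k ^ ((i + j) * r ^ M)
    rw [← pow_add, add_mul]
  have hEc : ∀ {i j}, i ≡ j [MOD 5] → E i ≡ E j [MOD r ^ M] := fun hij =>
    (h.congr5 hij M).of_dvd (pow_dvd_pow r (Nat.le_succ M))
  have hpow : ∀ j, (e j) ^ (r ^ M) = 1 := by
    intro j
    show ((x0 * x1 ^ (E (4 * j)) * x2 ^ (E (3 * j)) * x3 ^ (E (2 * j)) * x4 ^ (E (1 * j))) ^ f) ^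
      (r ^ M) = 1
    have q : ∀ (z : A) (s : ℕ), z ^ (r ^ M) = 1 → (z ^ s) ^ (r ^ M) = 1 := by
      intro z s hz
      rw [← pow_mul, mul_comm, pow_mul, hz, one_pow]
    refine q _ _ ?_
    rw [mul_pow, mul_pow, mul_pow, mul_pow, hx, q _ _ p1, q _ _ p2, q _ _ p3, q _ _ p4]
    simp
  have hact : ∀ j, α (e j) = (e j) ^ (E j) := by
    intro j
    show α ((x0 * x1 ^ (E (4 * j)) * x2 ^ (E (3 * j)) * x3 ^ (E (2 * j)) * x4 ^ (E (1 * j))) ^ f) =
      ((x0 * x1 ^ (E (4 * j)) * x2 ^ (E (3 * j)) * x3 ^ (E (2 * j)) * x4 ^ (E (1 * j))) ^ f) ^ (E j)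
    rw [← pow_mul, mul_comm f, pow_mul, map_pow, map_mul, map_mul, map_mul, map_mul, map_pow,
      map_pow, map_pow, map_pow, ← hx1, ← hx2, ← hx3, ← hx4, h5]
    congr 1
    rw [mul_pow, mul_pow, mul_pow, mul_pow, ← pow_mul, ← pow_mul, ← pow_mul, ← pow_mul, hE, hE, hE,
      hE]
    have a1 : x1 ^ (E (4 * j + j)) = x1 := by
      rw [pw p1 (hEc (show 4 * j + j ≡ 0 [MOD 5] from by
        rw [Nat.modEq_zero_iff_dvd]; exact ⟨j, by ring⟩))]
      show x1 ^ (k ^ (0 * r ^ M)) = x1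
      rw [zero_mul, pow_zero, pow_one]
    have a2 : 3 * j + j = 4 * j := by ring
    have a3 : 2 * j + j = 3 * j := by ring
    have a4 : 1 * j + j = 2 * j := by ring
    rw [a1, a2, a3, a4, one_mul]
    ac_rfl
  have hprod : x0 = e 0 * e 1 * e 2 * e 3 * e 4 := by
    have b0 : ∀ j, e j = (x0 * x1 ^ (E (4 * j)) * x2 ^ (E (3 * j)) * x3 ^ (E (2 * j)) *
      x4 ^ (E (1 * j))) ^ f := fun _ => rfl
    rw [b0, b0, b0, b0, b0, ← mul_pow, ← mul_pow, ← mul_pow, ← mul_pow]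
    have c : ∀ (z : A) (m : ℕ), z ^ (r ^ M) = 1 → ¬ 5 ∣ m →
        z ^ (E (m * 0)) * z ^ (E (m * 1)) * z ^ (E (m * 2)) * z ^ (E (m * 3)) * z ^ (E (m * 4)) =
          1 := by
      intro z m hz hm
      rw [← pow_add, ← pow_add, ← pow_add, ← pow_add, pw hz (sum_root h M hm), pow_zero]
    have c1 := c x1 4 p1 (by norm_num)
    have c2 := c x2 3 p2 (by norm_num)
    have c3 := c x3 2 p3 (by norm_num)
    have c4 := c x4 1 p4 (by norm_num)
    have d : (x0 * x1 ^ (E (4 * 0)) * x2 ^ (E (3 * 0)) * x3 ^ (E (2 * 0)) * x4 ^ (E (1 * 0))) *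
        (x0 * x1 ^ (E (4 * 1)) * x2 ^ (E (3 * 1)) * x3 ^ (E (2 * 1)) * x4 ^ (E (1 * 1))) *
        (x0 * x1 ^ (E (4 * 2)) * x2 ^ (E (3 * 2)) * x3 ^ (E (2 * 2)) * x4 ^ (E (1 * 2))) *
        (x0 * x1 ^ (E (4 * 3)) * x2 ^ (E (3 * 3)) * x3 ^ (E (2 * 3)) * x4 ^ (E (1 * 3))) *
        (x0 * x1 ^ (E (4 * 4)) * x2 ^ (E (3 * 4)) * x3 ^ (E (2 * 4)) * x4 ^ (E (1 * 4))) =
        x0 ^ 5 *
        (x1 ^ (E (4 * 0)) * x1 ^ (E (4 * 1)) * x1 ^ (E (4 * 2)) * x1 ^ (E (4 * 3)) *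
          x1 ^ (E (4 * 4))) *
        (x2 ^ (E (3 * 0)) * x2 ^ (E (3 * 1)) * x2 ^ (E (3 * 2)) * x2 ^ (E (3 * 3)) *
          x2 ^ (E (3 * 4))) *
        (x3 ^ (E (2 * 0)) * x3 ^ (E (2 * 1)) * x3 ^ (E (2 * 2)) * x3 ^ (E (2 * 3)) *
          x3 ^ (E (2 * 4))) *
        (x4 ^ (E (1 * 0)) * x4 ^ (E (1 * 1)) * x4 ^ (E (1 * 2)) * x4 ^ (E (1 * 3)) *
          x4 ^ (E (1 * 4))) := by
      generalize E (4 * 0) = a0, E (4 * 1) = a1, E (4 * 2) = a2, E (4 * 3) = a3, E (4 * 4) = a4,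
        E (3 * 0) = b0, E (3 * 1) = b1, E (3 * 2) = b2, E (3 * 3) = b3, E (3 * 4) = b4,
        E (2 * 0) = c0, E (2 * 1) = c1, E (2 * 2) = c2, E (2 * 3) = c3, E (2 * 4) = c4,
        E (1 * 0) = d0, E (1 * 1) = d1, E (1 * 2) = d2, E (1 * 3) = d3, E (1 * 4) = d4
      have : x0 ^ 5 = x0 * x0 * x0 * x0 * x0 := by
        simp only [pow_succ, pow_zero, one_mul]
      rw [this]
      ac_rfl
    rw [d, c1, c2, c3, c4, mul_one, mul_one, mul_one, mul_one, ← pow_mul, pw hx hf, pow_one]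
  exact ⟨e 0, e 1, e 2, e 3, e 4, ⟨hpow 0, hact 0⟩, ⟨hpow 1, hact 1⟩, ⟨hpow 2, hact 2⟩,
    ⟨hpow 3, hact 3⟩, ⟨hpow 4, hact 4⟩, hprod⟩

theorem center_dec {X : Type u} [Group X] {a : MulAut X} (h : Root r k) (H : Hyp r a) {x : X}
    (hx : x ∈ Subgroup.center X) : x ∈ Subgroup.closure {e : X | ∃ i, Eig r k a i e} := by
  obtain ⟨M, hM⟩ := H.tors x
  let _ : CommGroup (Subgroup.center X) :=
    { (inferInstance : Group (Subgroup.center X)) with
      mul_comm := fun a b => Subtype.ext (Subgroup.mem_center_iff.1 b.2 a) }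
  let α : Subgroup.center X →* Subgroup.center X :=
    ((a : X →* X).comp (Subgroup.center X).subtype).codRestrict (Subgroup.center X)
      (fun z => inv_center a z z.2)
  have hα : ∀ z : Subgroup.center X, ((α z : Subgroup.center X) : X) = a (z : X) := fun _ => rfl
  obtain ⟨e0, e1, e2, e3, e4, h0, h1, h2, h3, h4, hprod⟩ := comm_dec α h M (x := ⟨x, hx⟩)
    (Subtype.ext hM) (Subtype.ext (H.pow5 x))
  have key : ∀ (i : ℕ) (e : Subgroup.center X), (e ^ (r ^ M) = 1 ∧ α e = e ^ (k ^ (i * r ^ M))) →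
      (e : X) ∈ Subgroup.closure {e : X | ∃ i, Eig r k a i e} := by
    intro i e he
    refine Subgroup.subset_closure ⟨i, M, ?_, ?_⟩
    · have := congrArg (fun z : Subgroup.center X => (z : X)) he.1
      simpa using this
    · exact congrArg (fun z : Subgroup.center X => (z : X)) he.2
  have hx' : x = (e0 : X) * e1 * e2 * e3 * e4 := by
    have := congrArg (fun z : Subgroup.center X => (z : X)) hprod
    simpa using this
  rw [hx']
  exact mul_mem (mul_mem (mul_mem (mul_mem (key 0 e0 h0) (key 1 e1 h1)) (key 2 e2 h2))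
    (key 3 e3 h3)) (key 4 e4 h4)

theorem gen_finite (h : Root r k) (n : ℕ) : ∀ (X : Type u) [Group X] [Finite X] (a : MulAut X), Hyp r a →
    Nat.card X = n → Subgroup.closure {e : X | ∃ i, Eig r k a i e} = ⊤ := by
  induction n using Nat.strong_induction_on with
  | _ n ih =>
    intro X _ _ a H hn
    rcases subsingleton_or_nontrivial X with hs | hs
    · exact Subsingleton.elim _ _
    have hp : Fact r.Prime := ⟨h.prime⟩
    have hP : IsPGroup r X := H.tors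
    have hZ : Nontrivial (Subgroup.center X) := hP.center_nontrivial
    have hcard : Nat.card (X ⧸ Subgroup.center X) < n := by
      have h1 := Subgroup.card_eq_card_quotient_mul_card_subgroup (Subgroup.center X)
      have h2 : 1 < Nat.card (Subgroup.center X) := Finite.one_lt_card
      have h3 : 0 < Nat.card (X ⧸ Subgroup.center X) := Nat.card_pos
      rw [hn] at h1
      nlinarith
    have hq := ih _ hcard (X ⧸ Subgroup.center X) (quo a (Subgroup.center X) (inv_center a) H.pow5)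
      (quo_hyp H _ (inv_center a)) rfl
    rw [eq_top_iff]
    intro x _
    have hx : (x : X ⧸ Subgroup.center X) ∈ Subgroup.map (QuotientGroup.mk' (Subgroup.center X))
        (Subgroup.closure {e : X | ∃ i, Eig r k a i e}) := by
      have h1 : (⊤ : Subgroup (X ⧸ Subgroup.center X)) ≤ Subgroup.map
          (QuotientGroup.mk' (Subgroup.center X))
          (Subgroup.closure {e : X | ∃ i, Eig r k a i e}) := by
        rw [← hq, Subgroup.closure_le]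
        rintro q ⟨i, hqi⟩
        obtain ⟨y, hy, hyi⟩ := lift_quo h H (inv_center a)
          (fun n hn x => (Subgroup.mem_center_iff.1 hn x).symm) hqi
        exact ⟨y, Subgroup.subset_closure ⟨i, hyi⟩, hy⟩
      exact h1 trivial
    obtain ⟨y, hy, hyx⟩ := hx
    have h2 : y⁻¹ * x ∈ Subgroup.center X := QuotientGroup.eq.1 hyx
    have h3 := mul_mem hy (center_dec h H h2)
    rwa [mul_inv_cancel_left] at h3

theorem gen {X : Type u} [Group X] {a : MulAut X} (h : Root r k) (H : Hyp r a) {S : Subgroup X} (hS : Inv a S)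
    {x : X} (hx : x ∈ S) :
    x ∈ Subgroup.closure ({e : X | e ∈ S ∧ (Eig r k a 1 e ∨ Eig r k a 2 e ∨ Eig r k a 3 e ∨ Eig r k a 4 e)}) := by
  set O : Subgroup X := Subgroup.closure ({x, a x, a (a x), a (a (a x)), a (a (a (a x)))} : Set X)
    with hO
  have hOf : Finite O := (H.orb x).to_subtype
  have hOi : Inv a O := inv_orb H x
  have hOS : O ≤ S := by
    rw [hO, Subgroup.closure_le]
    have i1 := hS _ hx
    have i2 := hS _ i1
    have i3 := hS _ i2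
    have i4 := hS _ i3
    intro y hy
    simp only [Set.mem_insert_iff, Set.mem_singleton_iff] at hy
    rcases hy with rfl | rfl | rfl | rfl | rfl
    · exact hx
    · exact i1
    · exact i2
    · exact i3
    · exact i4
  have hxO : x ∈ O := Subgroup.subset_closure (by simp)
  have h1 := gen_finite h (Nat.card O) O (res a O hOi H.pow5) (res_hyp H O hOi) rfl
  have h2 : (⟨x, hxO⟩ : O) ∈ Subgroup.closure {e : O | ∃ i, Eig r k (res a O hOi H.pow5) i e} := by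
    rw [h1]
    trivial
  have h3 : x ∈ Subgroup.map O.subtype
      (Subgroup.closure {e : O | ∃ i, Eig r k (res a O hOi H.pow5) i e}) := ⟨_, h2, rfl⟩
  rw [MonoidHom.map_closure] at h3
  refine (Subgroup.closure_le _).2 ?_ h3
  rintro _ ⟨e, ⟨i, he⟩, rfl⟩
  have he' : Eig r k a i (e : X) := (res_eig H O hOi).1 he
  have h4 : i % 5 = 0 ∨ i % 5 = 1 ∨ i % 5 = 2 ∨ i % 5 = 3 ∨ i % 5 = 4 := by omega
  rcases h4 with h4 | h4 | h4 | h4 | h4
  · have h5 : (e : X) = 1 := Eig.triv h H (Nat.dvd_of_mod_eq_zero h4) he'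
    show (e : X) ∈ _
    rw [h5]
    exact one_mem _
  · exact Subgroup.subset_closure ⟨hOS e.2, Or.inl (Eig.congr h (j := 1) h4 he')⟩
  · exact Subgroup.subset_closure ⟨hOS e.2, Or.inr (Or.inl (Eig.congr h (j := 2) h4 he'))⟩
  · exact Subgroup.subset_closure ⟨hOS e.2, Or.inr (Or.inr (Or.inl (Eig.congr h (j := 3) h4 he')))⟩
  · exact Subgroup.subset_closure ⟨hOS e.2, Or.inr (Or.inr (Or.inr (Eig.congr h (j := 4) h4 he')))⟩

end Pool.Agent.FRB
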