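import Pool.Agent.FRB.Quo

/-!
# FRB/Lift: eigen-elements lift through central extensions

`lift_central`: the elements `x, a x, a (a x), ...` are powers of `x` modulo `N` and commute. With
`K = k^(i r^M)` the product of the `(a^j x)^(K^(5-j))` is mapped by `a` to its `K`-th power; its `e`-th power, where
`5 e = 1 (mod r^M)`, is congruent to `x` modulo `N`.
-/

set_option autoImplicit false

namespace Pool.Agent.FRB

variable {r k : ℕ} {X : Type*} [Group X] {a : MulAut X}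

/-- `s` is congruent to `x ^ j` modulo `N` -/
private def PrL (N : Subgroup X) (x : X) (j : ℕ) (s : X) : Prop := ∃ n ∈ N, s = x ^ j * n

private theorem PrL.mul {N : Subgroup X} {x : X} (hcx : ∀ n ∈ N, Commute n x) {j l : ℕ} {s t : X}
    (hs : PrL N x j s) (ht : PrL N x l t) : PrL N x (j + l) (s * t) := by
  obtain ⟨n, hn, rfl⟩ := hs
  obtain ⟨m, hm, rfl⟩ := ht
  refine ⟨n * m, N.mul_mem hn hm, ?_⟩
  have h1 : n * x ^ l = x ^ l * n := ((hcx n hn).pow_right l).eq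
  calc x ^ j * n * (x ^ l * m) = x ^ j * (n * x ^ l) * m := by simp only [mul_assoc]
    _ = x ^ j * (x ^ l * n) * m := by rw [h1]
    _ = x ^ (j + l) * (n * m) := by rw [pow_add]; simp only [mul_assoc]

private theorem PrL.comm {N : Subgroup X} {x : X} (hcx : ∀ n ∈ N, Commute n x)
    (hcN : ∀ n ∈ N, ∀ m ∈ N, Commute n m) {j l : ℕ} {s t : X}
    (hs : PrL N x j s) (ht : PrL N x l t) : Commute s t := by
  obtain ⟨n, hn, rfl⟩ := hs
  obtain ⟨m, hm, rfl⟩ := ht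
  refine Commute.mul_left (Commute.mul_right (Commute.pow_pow_self x j l) ?_)
    (Commute.mul_right ((hcx n hn).pow_right l) (hcN n hn m hm))
  exact (hcx m hm).symm.pow_left j

private theorem PrL.pow {N : Subgroup X} {x : X} (hcx : ∀ n ∈ N, Commute n x) {j : ℕ} {s : X}
    (hs : PrL N x j s) (l : ℕ) : PrL N x (j * l) (s ^ l) := by
  obtain ⟨n, hn, rfl⟩ := hs
  refine ⟨n ^ l, N.pow_mem hn l, ?_⟩
  rw [((hcx n hn).symm.pow_left j).mul_pow, ← pow_mul]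

private theorem PrL.app {N : Subgroup X} (hN : Inv a N) {x : X} (hcx : ∀ n ∈ N, Commute n x)
    {K : ℕ} (h1 : PrL N x K (a x)) {j : ℕ} {s : X} (hs : PrL N x j s) :
    PrL N x (K * j) (a s) := by
  obtain ⟨n, hn, rfl⟩ := hs
  rw [map_mul, map_pow]
  have h2 := (h1.pow hcx j).mul hcx (l := 0) (t := a n) ⟨a n, hN n hn, by rw [pow_zero, one_mul]⟩
  exact h2

private theorem lift_inv5 (h : Root r k) (M : ℕ) : ∃ e : ℕ, 5 * e ≡ 1 [MOD r ^ M] := by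
  by_cases h1 : 1 < r ^ M
  · obtain ⟨e, he⟩ := Nat.exists_mul_mod_eq_one_of_coprime (h.cop_5.pow_right M) h1
    exact ⟨e, by rw [Nat.ModEq, he.2, Nat.mod_eq_of_lt h1]⟩
  · refine ⟨0, ?_⟩
    have h2 : 0 < r ^ M := pow_pos h.prime.pos M
    have h3 : r ^ M = 1 := by omega
    rw [h3]
    exact Nat.modEq_one

private theorem pow_congr {x : X} {m i j : ℕ} (hx : x ^ m = 1) (hij : i ≡ j [MOD m]) :
    x ^ i = x ^ j :=
  pow_eq_pow_iff_modEq.2 (hij.of_dvd (orderOf_dvd_of_pow_eq_one hx))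

theorem lift_central (h : Root r k) (H : Hyp r a) {N : Subgroup X} (hN : Inv a N) {i M : ℕ} {x : X}
    (hcx : ∀ n ∈ N, Commute n x) (hcN : ∀ n ∈ N, ∀ m ∈ N, Commute n m) (hx : x ^ (r ^ M) = 1)
    (hax : (x ^ (k ^ (i * r ^ M)))⁻¹ * a x ∈ N) : ∃ n ∈ N, Eig r k a i (x * n) := by
  obtain ⟨K, hK⟩ : ∃ K : ℕ, K = k ^ (i * r ^ M) := ⟨_, rfl⟩
  rw [← hK] at hax
  have hK5 : K ^ 5 ≡ 1 [MOD r ^ M] := by
    have h1 := (h.pow5_lift M).pow i
    rw [one_pow, ← pow_mul] at h1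
    have h2 : K ^ 5 = k ^ (5 * r ^ M * i) := by
      rw [hK, ← pow_mul]
      congr 1
      ring
    rw [h2]
    exact h1.of_dvd (pow_dvd_pow r (Nat.le_succ M))
  have hxK : x ^ K ^ 5 = x := by
    rw [pow_congr hx hK5, pow_one]
  have p0 : PrL N x 1 x := ⟨1, N.one_mem, by rw [pow_one, mul_one]⟩
  have p1 : PrL N x K (a x) := ⟨_, hax, by rw [mul_inv_cancel_left]⟩
  have p2 := p1.app hN hcx p1
  have p3 := p1.app hN hcx p2
  have p4 := p1.app hN hcx p3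
  obtain ⟨x1, hx1⟩ : ∃ x1, x1 = a x := ⟨_, rfl⟩
  obtain ⟨x2, hx2⟩ : ∃ x2, x2 = a (a x) := ⟨_, rfl⟩
  obtain ⟨x3, hx3⟩ : ∃ x3, x3 = a (a (a x)) := ⟨_, rfl⟩
  obtain ⟨x4, hx4⟩ : ∃ x4, x4 = a (a (a (a x))) := ⟨_, rfl⟩
  rw [← hx1] at p1
  rw [← hx2] at p2
  rw [← hx3] at p3
  rw [← hx4] at p4
  have a0 : a x = x1 := hx1.symm
  have a1 : a x1 = x2 := by rw [hx1, hx2]
  have a2 : a x2 = x3 := by rw [hx2, hx3]
  have a3 : a x3 = x4 := by rw [hx3, hx4]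
  have a4 : a x4 = x := by rw [hx4]; exact H.pow5 x
  have tor : ∀ y : X, y ^ (r ^ M) = 1 → (a y) ^ (r ^ M) = 1 := fun y hy => by
    rw [← map_pow, hy, map_one]
  have t1 : x1 ^ (r ^ M) = 1 := a0 ▸ tor x hx
  have t2 : x2 ^ (r ^ M) = 1 := a1 ▸ tor x1 t1
  have t3 : x3 ^ (r ^ M) = 1 := a2 ▸ tor x2 t2
  have t4 : x4 ^ (r ^ M) = 1 := a3 ▸ tor x3 t3
  -- the factors
  obtain ⟨w0, hw0⟩ : ∃ w, w = x ^ K ^ 5 := ⟨_, rfl⟩
  obtain ⟨w1, hw1⟩ : ∃ w, w = x1 ^ K ^ 4 := ⟨_, rfl⟩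
  obtain ⟨w2, hw2⟩ : ∃ w, w = x2 ^ K ^ 3 := ⟨_, rfl⟩
  obtain ⟨w3, hw3⟩ : ∃ w, w = x3 ^ K ^ 2 := ⟨_, rfl⟩
  obtain ⟨w4, hw4⟩ : ∃ w, w = x4 ^ K := ⟨_, rfl⟩
  have q0 : PrL N x (1 * K ^ 5) w0 := hw0 ▸ p0.pow hcx _
  have q1 : PrL N x (K * K ^ 4) w1 := hw1 ▸ p1.pow hcx _
  have q2 : PrL N x (K * K * K ^ 3) w2 := hw2 ▸ p2.pow hcx _
  have q3 : PrL N x (K * (K * K) * K ^ 2) w3 := hw3 ▸ p3.pow hcx _
  have q4 : PrL N x (K * (K * (K * K)) * K) w4 := hw4 ▸ p4.pow hcx _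
  have s1 := q0.mul hcx q1
  have s2 := s1.mul hcx q2
  have s3 := s2.mul hcx q3
  have s4 := s3.mul hcx q4
  have c1 := q0.comm hcx hcN q1
  have c2 := s1.comm hcx hcN q2
  have c3 := s2.comm hcx hcN q3
  have c4 := s3.comm hcx hcN q4
  have exp : ∀ l : ℕ, (w0 * w1 * w2 * w3 * w4) ^ l = w0 ^ l * w1 ^ l * w2 ^ l * w3 ^ l * w4 ^ l := by
    intro l
    rw [c4.mul_pow, c3.mul_pow, c2.mul_pow, c1.mul_pow]
  obtain ⟨w, hw⟩ : ∃ w, w = w0 * w1 * w2 * w3 * w4 := ⟨_, rfl⟩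
  -- the image of the product
  have haw : a w = w ^ K := by
    have e0 : a w0 = w1 ^ K := by
      rw [hw0, hw1, map_pow, a0, ← pow_mul]
      congr 1
    have e1 : a w1 = w2 ^ K := by
      rw [hw1, hw2, map_pow, a1, ← pow_mul]
      congr 1
    have e2 : a w2 = w3 ^ K := by
      rw [hw2, hw3, map_pow, a2, ← pow_mul]
      congr 1
    have e3 : a w3 = w4 ^ K := by
      rw [hw3, hw4, map_pow, a3, ← pow_mul]
      congr 1
      ring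
    have e4 : a w4 = w0 ^ K := by
      rw [hw4, hw0, map_pow, a4, hxK]
    have e5 : w ^ K = w0 ^ K * w1 ^ K * w2 ^ K * w3 ^ K * w4 ^ K := by rw [hw, exp]
    rw [e5, hw, map_mul, map_mul, map_mul, map_mul, e0, e1, e2, e3, e4]
    have c0 : Commute (w1 ^ K * w2 ^ K * w3 ^ K * w4 ^ K) (w0 ^ K) :=
      ((((q1.pow hcx K).mul hcx (q2.pow hcx K)).mul hcx (q3.pow hcx K)).mul hcx
        (q4.pow hcx K)).comm hcx hcN (q0.pow hcx K)
    rw [c0.eq]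
    simp only [mul_assoc]
  obtain ⟨e, he⟩ := lift_inv5 h M
  have hwP : PrL N x (5 * e * K ^ 5) (w ^ e) := by
    have h1 := (hw ▸ s4).pow hcx e
    have h2 : (1 * K ^ 5 + K * K ^ 4 + K * K * K ^ 3 + K * (K * K) * K ^ 2 +
        K * (K * (K * K)) * K) * e = 5 * e * K ^ 5 := by ring
    rw [h2] at h1
    exact h1
  obtain ⟨n, hn, hwn⟩ := hwP
  have h1 : x ^ (5 * e * K ^ 5) = x := by
    have h2 : 5 * e * K ^ 5 ≡ 1 * 1 [MOD r ^ M] := he.mul hK5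
    rw [pow_congr hx h2, mul_one, pow_one]
  rw [h1] at hwn
  refine ⟨n, hn, ?_⟩
  rw [← hwn]
  refine eig_of M ?_ ?_
  · have h2 : w ^ (r ^ M) = 1 := by
      rw [hw, exp, hw0, hw1, hw2, hw3, hw4]
      simp only [← pow_mul, mul_comm _ (r ^ M)]
      simp only [pow_mul, hx, t1, t2, t3, t4, one_pow, mul_one]
    rw [← pow_mul, mul_comm, pow_mul, h2, one_pow]
  · rw [map_pow, haw, ← hK, ← pow_mul, ← pow_mul, mul_comm]

theorem lift_quo (h : Root r k) (H : Hyp r a) {N : Subgroup X} [N.Normal] (hN : Inv a N)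
    (hc : ∀ n ∈ N, ∀ x : X, Commute n x) {i : ℕ} {q : X ⧸ N}
    (hq : Eig r k (quo a N hN H.pow5) i q) : ∃ x : X, (x : X ⧸ N) = q ∧ Eig r k a i x := by
  obtain ⟨x, rfl⟩ := QuotientGroup.mk_surjective q
  obtain ⟨M, hM⟩ := H.tors x
  have h1 : ((x : X ⧸ N)) ^ (r ^ M) = 1 := by
    rw [← QuotientGroup.mk_pow, hM, QuotientGroup.mk_one]
  have h2 := hq.at h h1
  rw [quo_mk, ← QuotientGroup.mk_pow] at h2
  have h3 : (x ^ (k ^ (i * r ^ M)))⁻¹ * a x ∈ N := QuotientGroup.eq.1 h2.symm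
  obtain ⟨n, hn, hE⟩ := lift_central h H hN (fun n hn => hc n hn x) (fun n hn m _ => hc n hn m) hM h3
  refine ⟨x * n, ?_, hE⟩
  rw [QuotientGroup.mk_mul, (QuotientGroup.eq_one_iff n).2 hn, mul_one]

end Pool.Agent.FRB
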