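import Pool.Agent.FRB.Pair
import Pool.Agent.FRB.Gen

/-!
# FRB/Nrm: the subnormal chain

`S2 = closure (Lam 2 ∪ Lam 3 ∪ Lam 4)`, `S1 = closure ((Lam 1 ∩ S2) ∪ Lam 3 ∪ Lam 4)`, `S0 = closure (Lam 3 ∪ Lam 4)`.
Conjugation by generators (`x⁻¹ g x` for a generator `g`; the inverse of an eigen-element is an eigen-element of the
same degree, so it is enough to treat generators `x`; to pass from generators to the closure use
`Subgroup.closure_induction` twice, or `Subgroup.closure_le_normalizer...`):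
* `x` of degree 1: fixes degree 4 (`comm`); degree 3: `pair31` with (g, x): `x⁻¹ g x = g (c w^s)`, `c` of degree 4,
  `w = [g,c]`, so the result lies in `closure {g, c} ≤ S0`; degree 2: `pair12` with (x, g): `g⁻¹ x g = x c w^s`, hence
  `x⁻¹ g x = g (c w^s)⁻¹` (compute: `x⁻¹ g⁻¹ x g = c w^s`, so `g⁻¹ x g = x c w^s`, `x⁻¹ g x = g * (g⁻¹ x⁻¹ g x) =
  g * (c w^s)⁻¹`), with `c`, `w` of degrees 3, 4.  So degree 1 normalises `S0` and `S2`.
* `y` of degree 2: fixes degree 3 (`comm`); `g` of degree 1 in `S2`: `pair12` with (g, y): `y⁻¹ g y = g c w^s ∈ S1`;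
  `g` of degree 4: `pair24` with (y, g): as above `y⁻¹ g y = g (c w^s)⁻¹` with `c` of degree 1 in `closure {y,g} ≤ S2`
  and `w` of degree 3.  So degree 2 normalises `S1`.
* hence `n0` (generators of `S1` have degrees 1, 3, 4), `n1` (generators of `S2` have degrees 2, 3, 4; degrees 3 and 4
  lie in `S1`), `n2` (`X` is generated by the eigen-elements of degrees 1..4, `gen` with `S = ⊤`).
* `d0`: `S1 = S0 * closure (Lam 1)` etc.: `closure (s ∪ t) = closure s ⊔ closure t`, and if `T` normalises `S` then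
  `S ⊔ T = S * T` (`Subgroup.mul_normal`, `Subgroup.sup_eq_closure_mul`, or closure_induction).
* invariance: `inv_closure` with `Eig.app` / `Eig.mem`.
-/

set_option autoImplicit false

namespace Pool.Agent.FRB

universe u

variable {X : Type u} [Group X]

/-- `closure (Lam 3 ∪ Lam 4)` -/
def S0 (r k : ℕ) (a : MulAut X) : Subgroup X := Subgroup.closure (Lam r k a 3 ∪ Lam r k a 4)

/-- `closure (Lam 2 ∪ Lam 3 ∪ Lam 4)` -/
def S2 (r k : ℕ) (a : MulAut X) : Subgroup X := Subgroup.closure (Lam r k a 2 ∪ (Lam r k a 3 ∪ Lam r k a 4))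

/-- `closure ((Lam 1 ∩ S2) ∪ Lam 3 ∪ Lam 4)` -/
def S1 (r k : ℕ) (a : MulAut X) : Subgroup X :=
  Subgroup.closure ((Lam r k a 1 ∩ (S2 r k a : Set X)) ∪ (Lam r k a 3 ∪ Lam r k a 4))

variable {r k : ℕ} {a : MulAut X}

private theorem conj_closure {T U : Set X} {S : Subgroup X} (hS : S = Subgroup.closure U)
    (hinv : ∀ t ∈ T, t⁻¹ ∈ T) (h : ∀ t ∈ T, ∀ u ∈ U, t⁻¹ * u * t ∈ S) :
    ∀ y ∈ Subgroup.closure T, ∀ x ∈ S, y⁻¹ * x * y ∈ S := by
  have h1 : ∀ t ∈ T, ∀ x ∈ S, t⁻¹ * x * t ∈ S := by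
    intro t ht x hx
    rw [hS] at hx
    induction hx using Subgroup.closure_induction with
    | mem u hu => exact h t ht u hu
    | one => simp [S.one_mem]
    | mul x y _ _ hx hy =>
      have : t⁻¹ * (x * y) * t = (t⁻¹ * x * t) * (t⁻¹ * y * t) := by group
      rw [this]
      exact S.mul_mem hx hy
    | inv x _ hx =>
      have : t⁻¹ * x⁻¹ * t = (t⁻¹ * x * t)⁻¹ := by group
      rw [this]
      exact S.inv_mem hx
  intro y hy
  have key : (∀ x ∈ S, y⁻¹ * x * y ∈ S) ∧ (∀ x ∈ S, y * x * y⁻¹ ∈ S) := by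
    induction hy using Subgroup.closure_induction with
    | mem t ht =>
      refine ⟨h1 t ht, fun x hx => ?_⟩
      have := h1 t⁻¹ (hinv t ht) x hx
      simpa using this
    | one => exact ⟨fun x hx => by simpa using hx, fun x hx => by simpa using hx⟩
    | mul p q _ _ hp hq =>
      refine ⟨fun x hx => ?_, fun x hx => ?_⟩
      · have : (p * q)⁻¹ * x * (p * q) = q⁻¹ * (p⁻¹ * x * p) * q := by group
        rw [this]
        exact hq.1 _ (hp.1 _ hx)
      · have : (p * q) * x * (p * q)⁻¹ = p * (q * x * q⁻¹) * p⁻¹ := by group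
        rw [this]
        exact hp.2 _ (hq.2 _ hx)
    | inv p _ hp =>
      refine ⟨fun x hx => ?_, fun x hx => ?_⟩
      · simpa using hp.2 x hx
      · simpa using hp.1 x hx
  exact key.1

private theorem dec_closure {U : Set X} {S A : Subgroup X} (hn : ∀ α ∈ A, ∀ x ∈ S, α⁻¹ * x * α ∈ S)
    (hU : ∀ u ∈ U, ∃ s ∈ S, ∃ α ∈ A, u = s * α) :
    ∀ y ∈ Subgroup.closure U, ∃ s ∈ S, ∃ α ∈ A, y = s * α := by
  intro y hy
  induction hy using Subgroup.closure_induction with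
  | mem u hu => exact hU u hu
  | one => exact ⟨1, S.one_mem, 1, A.one_mem, by simp⟩
  | mul p q _ _ hp hq =>
    obtain ⟨s, hs, α, hα, rfl⟩ := hp
    obtain ⟨s', hs', α', hα', rfl⟩ := hq
    refine ⟨s * (α * s' * α⁻¹), S.mul_mem hs ?_, α * α', A.mul_mem hα hα', by group⟩
    have := hn α⁻¹ (A.inv_mem hα) s' hs'
    simpa using this
  | inv p _ hp =>
    obtain ⟨s, hs, α, hα, rfl⟩ := hp
    exact ⟨α⁻¹ * s⁻¹ * α, hn α hα _ (S.inv_mem hs), α⁻¹, A.inv_mem hα, by group⟩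

private theorem mem_S0_3 {x : X} (hx : Eig r k a 3 x) : x ∈ S0 r k a :=
  Subgroup.subset_closure (Or.inl hx)

private theorem mem_S0_4 {x : X} (hx : Eig r k a 4 x) : x ∈ S0 r k a :=
  Subgroup.subset_closure (Or.inr hx)

private theorem mem_S2_2 {x : X} (hx : Eig r k a 2 x) : x ∈ S2 r k a :=
  Subgroup.subset_closure (Or.inl hx)

private theorem mem_S2_3 {x : X} (hx : Eig r k a 3 x) : x ∈ S2 r k a :=
  Subgroup.subset_closure (Or.inr (Or.inl hx))

private theorem mem_S2_4 {x : X} (hx : Eig r k a 4 x) : x ∈ S2 r k a :=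
  Subgroup.subset_closure (Or.inr (Or.inr hx))

private theorem mem_S1_1 {x : X} (hx : Eig r k a 1 x) (h2 : x ∈ S2 r k a) : x ∈ S1 r k a :=
  Subgroup.subset_closure (Or.inl ⟨hx, h2⟩)

private theorem mem_S1_3 {x : X} (hx : Eig r k a 3 x) : x ∈ S1 r k a :=
  Subgroup.subset_closure (Or.inr (Or.inl hx))

private theorem mem_S1_4 {x : X} (hx : Eig r k a 4 x) : x ∈ S1 r k a :=
  Subgroup.subset_closure (Or.inr (Or.inr hx))

private theorem conj_mem (S : Subgroup X) {t u : X} (ht : t ∈ S) (hu : u ∈ S) : t⁻¹ * u * t ∈ S :=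
  S.mul_mem (S.mul_mem (S.inv_mem ht) hu) ht

private theorem conj_comm {t u : X} (h : Commute t u) : t⁻¹ * u * t = u := by
  rw [mul_assoc, ← h.eq, ← mul_assoc, inv_mul_cancel, one_mul]

/-- from `y⁻¹ x y = x κ` to `x⁻¹ y x = y κ⁻¹` -/
private theorem conj_swap {x y κ : X} (h : y⁻¹ * x * y = x * κ) : x⁻¹ * y * x = y * κ⁻¹ := by
  have hk : κ = x⁻¹ * (y⁻¹ * x * y) := by rw [h]; group
  rw [hk]; group

theorem inv_S0 (h : Root r k) : Inv a (S0 r k a) := by
  refine inv_closure ?_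
  rintro x (hx | hx)
  · exact Subgroup.subset_closure (Or.inl (Eig.app h hx))
  · exact Subgroup.subset_closure (Or.inr (Eig.app h hx))

theorem inv_S2 (h : Root r k) : Inv a (S2 r k a) := by
  refine inv_closure ?_
  rintro x (hx | hx | hx)
  · exact Subgroup.subset_closure (Or.inl (Eig.app h hx))
  · exact Subgroup.subset_closure (Or.inr (Or.inl (Eig.app h hx)))
  · exact Subgroup.subset_closure (Or.inr (Or.inr (Eig.app h hx)))

theorem inv_S1 (h : Root r k) : Inv a (S1 r k a) := by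
  refine inv_closure ?_
  rintro x (⟨hx, hx2⟩ | hx | hx)
  · exact Subgroup.subset_closure (Or.inl ⟨Eig.app h hx, inv_S2 h x hx2⟩)
  · exact Subgroup.subset_closure (Or.inr (Or.inl (Eig.app h hx)))
  · exact Subgroup.subset_closure (Or.inr (Or.inr (Eig.app h hx)))

theorem S0_le_S1 : S0 r k a ≤ S1 r k a :=
  Subgroup.closure_mono (fun _ hx => Or.inr hx)

theorem S1_le_S2 : S1 r k a ≤ S2 r k a := by
  refine (Subgroup.closure_le _).2 ?_
  rintro x (⟨_, hx2⟩ | hx | hx)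
  · exact hx2
  · exact mem_S2_3 hx
  · exact mem_S2_4 hx

theorem nrm0 (h : Root r k) (H : Hyp r a) : ∀ y ∈ S1 r k a, ∀ x ∈ S0 r k a, y⁻¹ * x * y ∈ S0 r k a := by
  refine conj_closure (U := Lam r k a 3 ∪ Lam r k a 4) rfl ?_ ?_
  · rintro t (⟨ht, ht2⟩ | ht | ht)
    · exact Or.inl ⟨Eig.inv h ht, (S2 r k a).inv_mem ht2⟩
    · exact Or.inr (Or.inl (Eig.inv h ht))
    · exact Or.inr (Or.inr (Eig.inv h ht))
  · rintro t ht u hu
    have hu0 : u ∈ S0 r k a := Subgroup.subset_closure hu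
    rcases ht with ⟨ht, ht2⟩ | ht
    · rcases hu with hu | hu
      · obtain ⟨c, w, s, hc, hw, hrel, hcw, -, -, -, -, -⟩ := pair31 h H hu ht
        rw [hrel]
        have hc0 : c ∈ S0 r k a := mem_S0_4 hc
        have hw0 : w ∈ S0 r k a := by
          rw [← hcw]
          exact (S0 r k a).mul_mem ((S0 r k a).mul_mem ((S0 r k a).mul_mem ((S0 r k a).inv_mem hu0)
            ((S0 r k a).inv_mem hc0)) hu0) hc0
        exact (S0 r k a).mul_mem hu0 ((S0 r k a).mul_mem hc0 ((S0 r k a).zpow_mem hw0 s))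
      · rw [conj_comm (comm h H (by norm_num : 5 ∣ 1 + 4) ht hu)]
        exact hu0
    · exact conj_mem _ (Subgroup.subset_closure ht) hu0

theorem nrm1 (h : Root r k) (H : Hyp r a) : ∀ y ∈ S2 r k a, ∀ x ∈ S1 r k a, y⁻¹ * x * y ∈ S1 r k a := by
  refine conj_closure (U := (Lam r k a 1 ∩ (S2 r k a : Set X)) ∪ (Lam r k a 3 ∪ Lam r k a 4)) rfl ?_ ?_
  · rintro t (ht | ht | ht)
    · exact Or.inl (Eig.inv h ht)
    · exact Or.inr (Or.inl (Eig.inv h ht))
    · exact Or.inr (Or.inr (Eig.inv h ht))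
  · rintro t ht u hu
    have hu1 : u ∈ S1 r k a := Subgroup.subset_closure hu
    rcases ht with ht | ht
    · have ht2 : t ∈ S2 r k a := mem_S2_2 ht
      rcases hu with ⟨hu, hu2⟩ | hu | hu
      · obtain ⟨c, w, s, hrel, -, -⟩ := pair12 h H hu ht
        obtain ⟨hc, hw, hr, -, -, -, -⟩ := hrel
        rw [hr]
        exact (S1 r k a).mul_mem hu1 ((S1 r k a).mul_mem (mem_S1_3 hc)
          ((S1 r k a).zpow_mem (mem_S1_4 hw) s))
      · rw [conj_comm (comm h H (by norm_num : 5 ∣ 2 + 3) ht hu)]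
        exact hu1
      · obtain ⟨c, w, s, hc, hw, hr, -, -, -, -, hcc, -⟩ := pair24 h H ht hu
        rw [conj_swap hr]
        have hc2 : c ∈ S2 r k a := by
          refine (Subgroup.closure_le (S2 r k a)).2 ?_ hcc
          rintro z (rfl | hz)
          · exact ht2
          · rw [Set.mem_singleton_iff] at hz
            rw [hz]
            exact mem_S2_4 hu
        exact (S1 r k a).mul_mem hu1 ((S1 r k a).inv_mem ((S1 r k a).mul_mem (mem_S1_1 hc hc2)
          ((S1 r k a).zpow_mem (mem_S1_3 hw) s)))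
    · exact conj_mem _ (Subgroup.subset_closure (Or.inr ht)) hu1

private theorem inv_top : Inv a (⊤ : Subgroup X) := fun _ _ => Subgroup.mem_top _

theorem nrm2 (h : Root r k) (H : Hyp r a) : ∀ y : X, ∀ x ∈ S2 r k a, y⁻¹ * x * y ∈ S2 r k a := by
  intro y
  have hy := gen h H inv_top (Subgroup.mem_top y)
  revert y
  refine conj_closure (U := Lam r k a 2 ∪ (Lam r k a 3 ∪ Lam r k a 4)) rfl ?_ ?_
  · rintro t ⟨-, ht⟩
    refine ⟨Subgroup.mem_top _, ?_⟩
    rcases ht with ht | ht | ht | ht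
    · exact Or.inl (Eig.inv h ht)
    · exact Or.inr (Or.inl (Eig.inv h ht))
    · exact Or.inr (Or.inr (Or.inl (Eig.inv h ht)))
    · exact Or.inr (Or.inr (Or.inr (Eig.inv h ht)))
  · rintro t ⟨-, ht⟩ u hu
    have hu2 : u ∈ S2 r k a := Subgroup.subset_closure hu
    rcases ht with ht | ht | ht | ht
    · rcases hu with hu | hu | hu
      · obtain ⟨c, w, s, hrel, -, -⟩ := pair12 h H ht hu
        obtain ⟨hc, hw, hr, -, -, -, -⟩ := hrel
        rw [conj_swap hr]
        exact (S2 r k a).mul_mem hu2 ((S2 r k a).inv_mem ((S2 r k a).mul_mem (mem_S2_3 hc)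
          ((S2 r k a).zpow_mem (mem_S2_4 hw) s)))
      · obtain ⟨c, w, s, hc, hw, hr, -, -, -, -, -, -⟩ := pair31 h H hu ht
        rw [hr]
        exact (S2 r k a).mul_mem hu2 ((S2 r k a).mul_mem (mem_S2_4 hc)
          ((S2 r k a).zpow_mem (mem_S2_2 hw) s))
      · rw [conj_comm (comm h H (by norm_num : 5 ∣ 1 + 4) ht hu)]
        exact hu2
    · exact conj_mem _ (mem_S2_2 ht) hu2
    · exact conj_mem _ (mem_S2_3 ht) hu2
    · exact conj_mem _ (mem_S2_4 ht) hu2

theorem dec0 (h : Root r k) (H : Hyp r a) : ∀ y ∈ S1 r k a, ∃ s ∈ S0 r k a,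
    ∃ α ∈ Subgroup.closure (Lam r k a 1), α ∈ S1 r k a ∧ y = s * α := by
  intro y hy
  have key := dec_closure (U := (Lam r k a 1 ∩ (S2 r k a : Set X)) ∪ (Lam r k a 3 ∪ Lam r k a 4))
    (S := S0 r k a) (A := Subgroup.closure (Lam r k a 1) ⊓ S1 r k a)
    (fun α hα x hx => nrm0 h H α hα.2 x hx) ?_ y hy
  · obtain ⟨s, hs, α, hα, rfl⟩ := key
    exact ⟨s, hs, α, hα.1, hα.2, rfl⟩
  · rintro u (⟨hu, hu2⟩ | hu)
    · exact ⟨1, (S0 r k a).one_mem, u, ⟨Subgroup.subset_closure hu, mem_S1_1 hu hu2⟩, by simp⟩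
    · exact ⟨u, Subgroup.subset_closure hu, 1, Subgroup.one_mem _, by simp⟩

theorem dec1 (h : Root r k) (H : Hyp r a) : ∀ y ∈ S2 r k a, ∃ s ∈ S1 r k a,
    ∃ α ∈ Subgroup.closure (Lam r k a 2), α ∈ S2 r k a ∧ y = s * α := by
  intro y hy
  have key := dec_closure (U := Lam r k a 2 ∪ (Lam r k a 3 ∪ Lam r k a 4))
    (S := S1 r k a) (A := Subgroup.closure (Lam r k a 2) ⊓ S2 r k a)
    (fun α hα x hx => nrm1 h H α hα.2 x hx) ?_ y hy
  · obtain ⟨s, hs, α, hα, rfl⟩ := key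
    exact ⟨s, hs, α, hα.1, hα.2, rfl⟩
  · rintro u (hu | hu)
    · exact ⟨1, (S1 r k a).one_mem, u, ⟨Subgroup.subset_closure hu, mem_S2_2 hu⟩, by simp⟩
    · exact ⟨u, Subgroup.subset_closure (Or.inr hu), 1, Subgroup.one_mem _, by simp⟩

theorem dec2 (h : Root r k) (H : Hyp r a) : ∀ y : X, ∃ s ∈ S2 r k a,
    ∃ α ∈ Subgroup.closure (Lam r k a 1), y = s * α := by
  intro y
  have hy := gen h H inv_top (Subgroup.mem_top y)
  refine dec_closure (S := S2 r k a) (A := Subgroup.closure (Lam r k a 1))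
    (fun α _ x hx => nrm2 h H α x hx) ?_ y hy
  rintro u ⟨-, hu⟩
  rcases hu with hu | hu | hu | hu
  · exact ⟨1, (S2 r k a).one_mem, u, Subgroup.subset_closure hu, by simp⟩
  · exact ⟨u, mem_S2_2 hu, 1, Subgroup.one_mem _, by simp⟩
  · exact ⟨u, mem_S2_3 hu, 1, Subgroup.one_mem _, by simp⟩
  · exact ⟨u, mem_S2_4 hu, 1, Subgroup.one_mem _, by simp⟩

end Pool.Agent.FRB
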