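import Pool.Agent.FRB.Defs

/-!
# FRB/Num: fifth roots of unity modulo powers of `r`

`k ^ (r ^ N)` is a fifth root of unity modulo `r ^ (N + 1)`, compatible for different `N`; differences of
distinct fifth roots of unity are coprime to `r`; existence of a root for `r = 1 (mod 5)`.
-/

set_option autoImplicit false

namespace Pool.Agent.FRB

variable {r k : ℕ}

theorem Root.cop_k (h : Root r k) : Nat.Coprime k r := by
  have h1 := h.pow5.gcd_eq
  have h2 : Nat.Coprime (k ^ 5) r := by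
    rw [Nat.Coprime, h1, Nat.gcd_one_left]
  exact h2.coprime_dvd_left (dvd_pow_self k (by norm_num))

theorem Root.cop_5 (h : Root r k) : Nat.Coprime 5 r := by
  rw [Nat.Prime.coprime_iff_not_dvd (by norm_num)]
  have := h.mod5
  omega

theorem Root.two_lt (h : Root r k) : 5 < r := by
  have h1 := h.mod5
  have h2 := h.prime.two_le
  omega

theorem Root.pow5_lift (h : Root r k) (N : ℕ) : k ^ (5 * r ^ N) ≡ 1 [MOD r ^ (N + 1)] := by
  have h1 : (r : ℤ) ∣ (k : ℤ) ^ 5 - 1 := by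
    have := (Nat.modEq_iff_dvd.1 h.pow5.symm)
    push_cast at this
    exact this
  have h2 := dvd_sub_pow_of_dvd_sub (p := r) h1 N
  rw [one_pow, ← pow_mul] at h2
  apply Nat.ModEq.symm
  rw [Nat.modEq_iff_dvd]
  push_cast
  exact h2

theorem Root.stable (h : Root r k) {N M : ℕ} (hNM : N ≤ M) (i : ℕ) :
    k ^ (i * r ^ M) ≡ k ^ (i * r ^ N) [MOD r ^ (N + 1)] := by
  have hkr : (r : ℤ) ∣ (k : ℤ) ^ r - k := by
    have : Fact r.Prime := ⟨h.prime⟩
    have h1 : (((k : ℤ) ^ r - k : ℤ) : ZMod r) = 0 := by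
      push_cast
      rw [ZMod.pow_card, sub_self]
    exact (ZMod.intCast_zmod_eq_zero_iff_dvd _ _).1 h1
  have main : k ^ (r ^ M) ≡ k ^ (r ^ N) [MOD r ^ (N + 1)] := by
    induction M, hNM using Nat.le_induction with
    | base => exact Nat.ModEq.refl _
    | succ M hM ih =>
      refine Nat.ModEq.trans ?_ ih
      have h2 := dvd_sub_pow_of_dvd_sub (p := r) hkr M
      rw [← pow_mul, ← pow_succ'] at h2
      apply Nat.ModEq.symm
      rw [Nat.modEq_iff_dvd]
      push_cast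
      exact (pow_dvd_pow (r : ℤ) (by omega)).trans h2
  have := main.pow i
  rwa [← pow_mul, ← pow_mul, mul_comm (r ^ M), mul_comm (r ^ N)] at this

/-- exponents depend on the degree modulo 5 only -/
theorem Root.congr5 (h : Root r k) {i j : ℕ} (hij : i ≡ j [MOD 5]) (N : ℕ) :
    k ^ (i * r ^ N) ≡ k ^ (j * r ^ N) [MOD r ^ (N + 1)] := by
  have key : ∀ i t : ℕ, k ^ ((i + 5 * t) * r ^ N) ≡ k ^ (i * r ^ N) [MOD r ^ (N + 1)] := by
    intro i t
    have h1 : k ^ ((i + 5 * t) * r ^ N) = k ^ (i * r ^ N) * (k ^ (5 * r ^ N)) ^ t := by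
      rw [← pow_mul, ← pow_add]
      congr 1
      ring
    rw [h1]
    have h2 := ((h.pow5_lift N).pow t).mul_left (k ^ (i * r ^ N))
    rwa [one_pow, mul_one] at h2
  rcases le_total i j with hle | hle
  · have h3 : (5 : ℕ) ∣ j - i := (Nat.modEq_iff_dvd' hle).1 hij
    obtain ⟨t, ht⟩ := h3
    have h4 : j = i + 5 * t := by omega
    rw [h4]
    exact (key i t).symm
  · have h3 : (5 : ℕ) ∣ i - j := (Nat.modEq_iff_dvd' hle).1 hij.symm
    obtain ⟨t, ht⟩ := h3
    have h4 : i = j + 5 * t := by omega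
    rw [h4]
    exact key j t

theorem Root.ne_pow (h : Root r k) {i : ℕ} (hi : ¬ 5 ∣ i) : ¬ k ^ i ≡ 1 [MOD r] := by
  intro hk
  have : Fact (Nat.Prime 5) := ⟨by norm_num⟩
  have h1 : (k : ZMod r) ^ 5 = 1 := by
    have := (ZMod.natCast_eq_natCast_iff _ _ _).2 h.pow5
    push_cast at this
    exact this
  have h2 : (k : ZMod r) ≠ 1 := by
    intro h3
    apply h.ne1
    rw [← ZMod.natCast_eq_natCast_iff]
    rw [h3, Nat.cast_one]
  have h3 : orderOf (k : ZMod r) = 5 := orderOf_eq_prime h1 h2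
  have h4 : (k : ZMod r) ^ i = 1 := by
    have := (ZMod.natCast_eq_natCast_iff _ _ _).2 hk
    push_cast at this
    exact this
  have h5 := orderOf_dvd_of_pow_eq_one h4
  rw [h3] at h5
  exact hi h5

theorem Root.pow (h : Root r k) {j : ℕ} (hj : ¬ 5 ∣ j) : Root r (k ^ j) := by
  refine ⟨h.prime, h.mod5, ?_, h.ne_pow hj⟩
  have := h.pow5.pow j
  rwa [one_pow, ← pow_mul, mul_comm, pow_mul] at this

theorem Root.cop (h : Root r k) {i j : ℕ} (hij : ¬ i ≡ j [MOD 5]) (N : ℕ) :
    IsCoprime ((k : ℤ) ^ (i * r ^ N) - (k : ℤ) ^ (j * r ^ N)) (r : ℤ) := by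
  have hp : Prime (r : ℤ) := Nat.prime_iff_prime_int.1 h.prime
  refine ((Irreducible.coprime_iff_not_dvd hp.irreducible).2 ?_).symm
  intro hdvd
  apply hij
  have : Fact (Nat.Prime 5) := ⟨by norm_num⟩
  have : Fact r.Prime := ⟨h.prime⟩
  set u : (ZMod r)ˣ := ZMod.unitOfCoprime k h.cop_k with hu
  have huk : (u : ZMod r) = k := ZMod.coe_unitOfCoprime k h.cop_k
  have h1 : u ^ 5 = 1 := by
    apply Units.ext
    rw [Units.val_pow_eq_pow_val, huk, Units.val_one]
    have := (ZMod.natCast_eq_natCast_iff _ _ _).2 h.pow5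
    push_cast at this
    exact this
  have h2 : u ≠ 1 := by
    intro h3
    apply h.ne1
    rw [← ZMod.natCast_eq_natCast_iff, ← huk, h3, Units.val_one, Nat.cast_one]
  have h3 : orderOf u = 5 := orderOf_eq_prime h1 h2
  have h4 : u ^ (i * r ^ N) = u ^ (j * r ^ N) := by
    apply Units.ext
    rw [Units.val_pow_eq_pow_val, Units.val_pow_eq_pow_val, huk]
    have := (ZMod.intCast_zmod_eq_zero_iff_dvd _ _).2 hdvd
    push_cast at this
    exact sub_eq_zero.1 this
  have h5 : i * r ^ N ≡ j * r ^ N [MOD 5] := by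
    have := pow_eq_pow_iff_modEq.1 h4
    rwa [h3] at this
  have h6 : r ^ N ≡ 1 [MOD 5] := by
    have : r ≡ 1 [MOD 5] := h.mod5
    have := this.pow N
    rwa [one_pow] at this
  calc i = i * 1 := (mul_one i).symm
    _ ≡ i * r ^ N [MOD 5] := (h6.mul_left i).symm
    _ ≡ j * r ^ N [MOD 5] := h5
    _ ≡ j * 1 [MOD 5] := h6.mul_left j
    _ = j := mul_one j

theorem exists_root {r : ℕ} (hr : r.Prime) (h5 : r % 5 = 1) : ∃ k, Root r k := by
  have : Fact (Nat.Prime 5) := ⟨by norm_num⟩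
  have : Fact r.Prime := ⟨hr⟩
  have hcard : 5 ∣ Fintype.card (ZMod r)ˣ := by
    rw [ZMod.card_units_eq_totient, Nat.totient_prime hr]
    have := hr.two_le
    omega
  obtain ⟨u, hu⟩ := exists_prime_orderOf_dvd_card 5 hcard
  refine ⟨(u : ZMod r).val, hr, h5, ?_, ?_⟩
  · rw [← ZMod.natCast_eq_natCast_iff]
    push_cast
    rw [ZMod.natCast_zmod_val, ← Units.val_pow_eq_pow_val, ← hu, pow_orderOf_eq_one, Units.val_one]
  · intro h
    rw [← ZMod.natCast_eq_natCast_iff] at h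
    rw [ZMod.natCast_zmod_val, Nat.cast_one] at h
    have h2 : u = 1 := Units.ext h
    rw [h2, orderOf_one] at hu
    omega

end Pool.Agent.FRB
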