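import Pool.Agent.FRB.PairF

/-!
# FRB/Pair: the pair relations in `X`, all four types of pairs

`pair12` applies `pair_finite` to the finite invariant subgroup `closure {x, y}`; the other three follow from `pair12`
for the roots `k^2`, `k^3`, `k^4` (for `k^j` the degrees 1, 2, 3, 4 become `j, 2j, 3j, 4j` modulo 5).
-/

set_option autoImplicit false

namespace Pool.Agent.FRB

universe u

variable {r k : ℕ} {X : Type u} [Group X] {a : MulAut X}

theorem pair12 (h : Root r k) (H : Hyp r a) {x y : X} (hx : Eig r k a 1 x) (hy : Eig r k a 2 y) :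
    ∃ (c w : X) (s : ℤ), PairRel r k a x y c w s ∧ c ∈ Subgroup.closure ({x, y} : Set X) ∧
      w ∈ Subgroup.closure ({x, y} : Set X) := by
  have hS : Inv a (Subgroup.closure ({x, y} : Set X)) := inv_pair h hx hy
  have : Finite (Subgroup.closure ({x, y} : Set X)) := finite_coe (H.two x y)
  have hxS : x ∈ Subgroup.closure ({x, y} : Set X) := Subgroup.subset_closure (by simp)
  have hyS : y ∈ Subgroup.closure ({x, y} : Set X) := Subgroup.subset_closure (by simp)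
  obtain ⟨c, w, s, h3, h4, e1, e2, e3, e4, e5⟩ := pair_finite h _ (Subgroup.closure ({x, y} : Set X))
    (res a _ hS H.pow5) (res_hyp H _ hS) rfl ⟨x, hxS⟩ ⟨y, hyS⟩ ((res_eig H _ hS).2 hx) ((res_eig H _ hS).2 hy)
  refine ⟨c, w, s, ⟨(res_eig H _ hS).1 h3, (res_eig H _ hS).1 h4, ?_, ?_, ?_, ?_, ?_⟩, c.2, w.2⟩
  · simpa using congrArg Subtype.val e1
  · simpa using congrArg Subtype.val e2
  · exact congrArg Subtype.val e3
  · exact congrArg Subtype.val e4
  · exact congrArg Subtype.val e5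

/-- the general form, for the root `k^j` -/
private theorem pair_root (h : Root r k) (H : Hyp r a) {j d1 d2 d3 d4 : ℕ} (hj : ¬ 5 ∣ j)
    (h1 : d1 ≡ j * 1 [MOD 5]) (h2 : d2 ≡ j * 2 [MOD 5]) (h3 : j * 3 ≡ d3 [MOD 5]) (h4 : j * 4 ≡ d4 [MOD 5])
    {x y : X} (hx : Eig r k a d1 x) (hy : Eig r k a d2 y) :
    ∃ (c w : X) (s : ℤ), Eig r k a d3 c ∧ Eig r k a d4 w ∧ y⁻¹ * x * y = x * (c * w ^ s) ∧
      x⁻¹ * c⁻¹ * x * c = w ∧ Commute c y ∧ Commute w x ∧ Commute w y ∧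
      c ∈ Subgroup.closure ({x, y} : Set X) ∧ w ∈ Subgroup.closure ({x, y} : Set X) := by
  obtain ⟨c, w, s, ⟨e3, e4, f1, f2, f3, f4, f5⟩, hc, hw⟩ := pair12 (h.pow hj) H
    ((eig_root j 1 x).2 (Eig.congr h h1 hx)) ((eig_root j 2 y).2 (Eig.congr h h2 hy))
  exact ⟨c, w, s, Eig.congr h h3 ((eig_root j 3 c).1 e3), Eig.congr h h4 ((eig_root j 4 w).1 e4),
    f1, f2, f3, f4, f5, hc, hw⟩

/-- degrees 3 and 1; `c` has degree 4 and `w` degree 2 -/
theorem pair31 (h : Root r k) (H : Hyp r a) {x y : X} (hx : Eig r k a 3 x) (hy : Eig r k a 1 y) :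
    ∃ (c w : X) (s : ℤ), Eig r k a 4 c ∧ Eig r k a 2 w ∧ y⁻¹ * x * y = x * (c * w ^ s) ∧
      x⁻¹ * c⁻¹ * x * c = w ∧ Commute c y ∧ Commute w x ∧ Commute w y ∧
      c ∈ Subgroup.closure ({x, y} : Set X) ∧ w ∈ Subgroup.closure ({x, y} : Set X) :=
  pair_root (j := 3) h H (by decide) (by decide) (by decide) (by decide) (by decide) hx hy

/-- degrees 2 and 4; `c` has degree 1 and `w` degree 3 -/
theorem pair24 (h : Root r k) (H : Hyp r a) {x y : X} (hx : Eig r k a 2 x) (hy : Eig r k a 4 y) :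
    ∃ (c w : X) (s : ℤ), Eig r k a 1 c ∧ Eig r k a 3 w ∧ y⁻¹ * x * y = x * (c * w ^ s) ∧
      x⁻¹ * c⁻¹ * x * c = w ∧ Commute c y ∧ Commute w x ∧ Commute w y ∧
      c ∈ Subgroup.closure ({x, y} : Set X) ∧ w ∈ Subgroup.closure ({x, y} : Set X) :=
  pair_root (j := 2) h H (by decide) (by decide) (by decide) (by decide) (by decide) hx hy

/-- degrees 4 and 3; `c` has degree 2 and `w` degree 1 -/
theorem pair43 (h : Root r k) (H : Hyp r a) {x y : X} (hx : Eig r k a 4 x) (hy : Eig r k a 3 y) :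
    ∃ (c w : X) (s : ℤ), Eig r k a 2 c ∧ Eig r k a 1 w ∧ y⁻¹ * x * y = x * (c * w ^ s) ∧
      x⁻¹ * c⁻¹ * x * c = w ∧ Commute c y ∧ Commute w x ∧ Commute w y ∧
      c ∈ Subgroup.closure ({x, y} : Set X) ∧ w ∈ Subgroup.closure ({x, y} : Set X) :=
  pair_root (j := 4) h H (by decide) (by decide) (by decide) (by decide) (by decide) hx hy

end Pool.Agent.FRB
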