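import Pool.Agent.FRB.Comm

/-!
# FRB/PairF: the group generated by eigen-elements of degrees 1 and 2 (finite case)

`pair_finite`, strong induction on `Nat.card X`.  Notation `[g,h] = g⁻¹ h⁻¹ g h`, `κ = [x,y]`, `K = k^(r^M)`, `M` large.
If `X` is trivial take `c = w = 1`, `s = 0`.  Otherwise let `Z` be the centre (nontrivial), and take
`c', w', s` for the images in `X ⧸ Z`.  Lift `c'` to an eigen-element `c` of degree 3 (`lift_quo`) and put
`w = [x,c]`.  Then `κ = c w^s z0` with `z0 ∈ Z`; `y` and `c` commute by `comm` (2+3 = 5); the image of `w` is `w'`, so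
`w` commutes with `x`, `y` (and `c`, because in the quotient `c' = [x',y'] w'^(-s)`) modulo `Z`.
(1) `w` commutes with `x`: lift `w'` to an eigen-element `w1` of degree 4, `w = w1 z4`, `w1` commutes with `x` by `comm`.
(2) `z2 := [w,c]` and `z3 := [w,y]` lie in `Z`; `z2 = [w1,c]`, `z3 = [w1,y]`, so by `comm_pow_pow` `a z2 = z2^(K^(4+3))`,
    `a z3 = z3^(K^(4+2))`, i.e. they are eigen-elements of degrees 7 and 6, i.e. 2 and 1.
(3) `y⁻¹ w y = [y⁻¹ x y, y⁻¹ c y] = [x κ, c] = [x c w^s z0, c]`, which equals `w * z2^(1+s)`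
    (`c` conjugates `w` to `w z2`, `[w^s, c] = z2^s`).  So `z3 = z2^(1+s)`; degrees 1 and 2: `z3 = 1` (`Eig.disj`).
(4) `w` commutes with `x`, `y`, hence with `κ`, with itself and `z0`, hence with `c = κ z0⁻¹ w^(-s)`.
(5) `a w = [a x, a c] = [x^K, c^(K^3)] = w^(K^4)` by `comm_pow_pow`: `w` is an eigen-element of degree 4.
(6) `κ = c w^s z0` commutes with `y`, and `[κ,x] = [c,x] = w⁻¹` commutes with `x`, `y`, `κ`.  `kappa_pow` gives
    `a κ = [x^K, y^(K^2)] ∈ κ^(K^3) * zpowers w`.  Apply `lift_central` with `N = zpowers w` (invariant, commutes with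
    `κ`): there is `n = w^t` with `c2 := κ w^t` an eigen-element of degree 3.  Then `κ = c2 w^(-t)`, `[x,c2] = [x,κ] = w`,
    `c2` commutes with `y`.  So `(c2, w, -t)` is as required.

`kappa_pow`: `x^y = x κ`, `κ^y = κ`, so `(x^m)^(y^n) = (x κ^n)^m = x^m κ^(mn) * (power of [κ,x])`.
-/

set_option autoImplicit false

namespace Pool.Agent.FRB

universe u

variable {r k : ℕ}

theorem kappa_pow {X : Type u} [Group X] {x y κ ω : X} (hκ : x⁻¹ * y⁻¹ * x * y = κ) (hκy : Commute κ y)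
    (hω : κ⁻¹ * x⁻¹ * κ * x = ω) (hωx : Commute ω x) (hωκ : Commute ω κ) (m n : ℕ) :
    ∃ e : ℤ, (x ^ m)⁻¹ * (y ^ n)⁻¹ * x ^ m * y ^ n = κ ^ (m * n) * ω ^ e := by
  have h1 : y⁻¹ * x * y = x * κ := by rw [← hκ]; group
  have h2 : ∀ n : ℕ, (y ^ n)⁻¹ * x * y ^ n = x * κ ^ n := by
    intro n
    induction n with
    | zero => simp
    | succ n ih =>
      have e1 : (y ^ (n + 1))⁻¹ * x * y ^ (n + 1) = y⁻¹ * ((y ^ n)⁻¹ * x * y ^ n) * y := by
        rw [pow_succ]; group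
      have e2 : y⁻¹ * (x * κ ^ n) * y = (y⁻¹ * x * y) * (y⁻¹ * (κ ^ n * y)) := by group
      rw [e1, ih, e2, h1, (hκy.pow_left n).eq, inv_mul_cancel_left, mul_assoc, ← pow_succ']
  have h3 : x⁻¹ * κ * x = κ * ω := by rw [← hω]; group
  have h4 : ∀ p : ℕ, κ ^ p * x = x * κ ^ p * ω ^ p := by
    intro p
    have e1 : x⁻¹ * κ ^ p * x = (x⁻¹ * κ * x) ^ p := by
      have := conj_pow (a := x⁻¹) (b := κ) (i := p)
      rw [inv_inv] at this
      exact this.symm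
    have e2 : κ ^ p * x = x * (x⁻¹ * κ ^ p * x) := by group
    rw [e2, e1, h3, hωκ.symm.mul_pow, mul_assoc]
  have h5 : ∀ m : ℕ, ∃ e : ℤ, (x * κ ^ n) ^ m = x ^ m * κ ^ (m * n) * ω ^ e := by
    intro m
    induction m with
    | zero => exact ⟨0, by simp⟩
    | succ m ih =>
      obtain ⟨e, he⟩ := ih
      refine ⟨((m * n : ℕ) : ℤ) + e, ?_⟩
      have c1 : Commute (ω ^ e) (x * κ ^ n) :=
        ((hωx.mul_right (hωκ.pow_right n)).zpow_left e)
      have c2 : Commute (ω ^ (m * n)) (κ ^ n) := (hωκ.pow_left _).pow_right _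
      calc (x * κ ^ n) ^ (m + 1) = x ^ m * κ ^ (m * n) * ω ^ e * (x * κ ^ n) := by rw [pow_succ, he]
        _ = x ^ m * κ ^ (m * n) * ((x * κ ^ n) * ω ^ e) := by rw [mul_assoc, c1.eq]
        _ = x ^ m * (κ ^ (m * n) * x) * κ ^ n * ω ^ e := by group
        _ = x ^ m * (x * κ ^ (m * n) * ω ^ (m * n)) * κ ^ n * ω ^ e := by rw [h4]
        _ = x ^ m * x * κ ^ (m * n) * (ω ^ (m * n) * κ ^ n) * ω ^ e := by group
        _ = x ^ m * x * κ ^ (m * n) * (κ ^ n * ω ^ (m * n)) * ω ^ e := by rw [c2.eq]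
        _ = x ^ (m + 1) * κ ^ ((m + 1) * n) * ω ^ (((m * n : ℕ) : ℤ) + e) := by
            rw [zpow_add, zpow_natCast, add_mul, one_mul, pow_add κ, pow_succ x]
            simp only [mul_assoc]
  obtain ⟨e, he⟩ := h5 m
  refine ⟨e, ?_⟩
  have e1 : (y ^ n)⁻¹ * x ^ m * y ^ n = ((y ^ n)⁻¹ * x * y ^ n) ^ m := by
    have := conj_pow (a := (y ^ n)⁻¹) (b := x) (i := m)
    rw [inv_inv] at this
    exact this.symm
  have e2 : (x ^ m)⁻¹ * (y ^ n)⁻¹ * x ^ m * y ^ n = (x ^ m)⁻¹ * ((y ^ n)⁻¹ * x ^ m * y ^ n) := by group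
  rw [e2, e1, h2, he]
  group

/-- If `x ^ (r ^ N) = 1` then the same for all larger exponents. -/
private theorem pow_up {X : Type u} [Group X] {x : X} {N M : ℕ} (h : x ^ (r ^ N) = 1) (hNM : N ≤ M) :
    x ^ (r ^ M) = 1 := by
  obtain ⟨d, rfl⟩ := Nat.exists_eq_add_of_le hNM
  rw [pow_add, pow_mul, h, one_pow]

/-- The algebra of the induction step. -/
private theorem pair_step (h : Root r k) {X : Type u} [Group X] {a : MulAut X} (H : Hyp r a) {x y c w1 z4 z0 : X}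
    {s : ℤ} (hx : Eig r k a 1 x) (hy : Eig r k a 2 y) (hc : Eig r k a 3 c) (hw1 : Eig r k a 4 w1)
    (hz4 : ∀ g, Commute z4 g) (hz0 : ∀ g, Commute z0 g)
    (hw : x⁻¹ * c⁻¹ * x * c = w1 * z4)
    (hκ : x⁻¹ * y⁻¹ * x * y = c * (w1 * z4) ^ s * z0)
    (hz2 : ∀ g, Commute (w1⁻¹ * c⁻¹ * w1 * c) g) (hz3 : ∀ g, Commute (w1⁻¹ * y⁻¹ * w1 * y) g) :
    ∃ (c w : X) (s : ℤ), PairRel r k a x y c w s := by
  have hcy : Commute y c := comm h H (i := 2) (j := 3) (by norm_num) hy hc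
  have hw1x : Commute x w1 := comm h H (i := 1) (j := 4) (by norm_num) hx hw1
  -- a common exponent
  obtain ⟨n1, hn1⟩ := H.tors x
  obtain ⟨n2, hn2⟩ := H.tors y
  obtain ⟨n3, hn3⟩ := H.tors c
  obtain ⟨n4, hn4⟩ := H.tors w1
  obtain ⟨n5, hn5⟩ := H.tors (w1⁻¹ * c⁻¹ * w1 * c)
  obtain ⟨n6, hn6⟩ := H.tors (w1⁻¹ * y⁻¹ * w1 * y)
  obtain ⟨n7, hn7⟩ := H.tors (w1 * z4)
  obtain ⟨n8, hn8⟩ := H.tors (x⁻¹ * y⁻¹ * x * y)
  obtain ⟨M, l1, l2, l3, l4, l5, l6, l7, l8⟩ : ∃ M, n1 ≤ M ∧ n2 ≤ M ∧ n3 ≤ M ∧ n4 ≤ M ∧ n5 ≤ M ∧ n6 ≤ M ∧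
      n7 ≤ M ∧ n8 ≤ M :=
    ⟨n1 + n2 + n3 + n4 + n5 + n6 + n7 + n8, by omega, by omega, by omega, by omega, by omega, by omega,
      by omega, by omega⟩
  have ax := hx.at h (pow_up hn1 l1)
  have ay := hy.at h (pow_up hn2 l2)
  have ac := hc.at h (pow_up hn3 l3)
  have aw1 := hw1.at h (pow_up hn4 l4)
  -- z2 and z3 are eigen-elements
  have e2 : Eig r k a 2 (w1⁻¹ * c⁻¹ * w1 * c) := by
    have h7 : Eig r k a 7 (w1⁻¹ * c⁻¹ * w1 * c) := by
      refine eig_of M (pow_up hn5 l5) ?_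
      rw [map_mul, map_mul, map_mul, map_inv, map_inv, aw1, ac, comm_pow_pow rfl (hz2 _) (hz2 _), ← pow_add,
        ← add_mul]
    exact Eig.congr h (i := 7) (j := 2) (by decide) h7
  have e3 : Eig r k a 1 (w1⁻¹ * y⁻¹ * w1 * y) := by
    have h6 : Eig r k a 6 (w1⁻¹ * y⁻¹ * w1 * y) := by
      refine eig_of M (pow_up hn6 l6) ?_
      rw [map_mul, map_mul, map_mul, map_inv, map_inv, aw1, ay, comm_pow_pow rfl (hz3 _) (hz3 _), ← pow_add,
        ← add_mul]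
    exact Eig.congr h (i := 6) (j := 1) (by decide) h6
  generalize hz2' : w1⁻¹ * c⁻¹ * w1 * c = z2 at *
  generalize hz3' : w1⁻¹ * y⁻¹ * w1 * y = z3 at *
  generalize hww : w1 * z4 = w at *
  generalize hκκ : x⁻¹ * y⁻¹ * x * y = κ at *
  -- w commutes with x
  have hwx : Commute w x := by
    rw [← hww]
    exact hw1x.symm.mul_left (hz4 x)
  -- conjugation by c and y
  have wc : c⁻¹ * w * c = w * z2 := by
    rw [← hww, ← hz2']
    have : c⁻¹ * (w1 * z4) * c = c⁻¹ * w1 * (z4 * c) := by group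
    rw [this, (hz4 c).eq]
    have : w1 * z4 * (w1⁻¹ * c⁻¹ * w1 * c) = w1 * (z4 * (w1⁻¹ * c⁻¹ * w1 * c)) := by group
    rw [this, (hz4 _).eq]
    group
  have wy : y⁻¹ * w * y = w * z3 := by
    rw [← hww, ← hz3']
    have : y⁻¹ * (w1 * z4) * y = y⁻¹ * w1 * (z4 * y) := by group
    rw [this, (hz4 y).eq]
    have : w1 * z4 * (w1⁻¹ * y⁻¹ * w1 * y) = w1 * (z4 * (w1⁻¹ * y⁻¹ * w1 * y)) := by group
    rw [this, (hz4 _).eq]
    group
  have xc : c⁻¹ * x * c = x * w := by rw [← hw]; group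
  have xy : y⁻¹ * x * y = x * κ := by rw [← hκκ]; group
  have cy' : y⁻¹ * c * y = c := by rw [mul_assoc, hcy.symm.eq, inv_mul_cancel_left]
  have wcz : ∀ s : ℤ, c⁻¹ * w ^ s * c = w ^ s * z2 ^ s := by
    intro s
    have e1 : c⁻¹ * w ^ s * c = (c⁻¹ * w * c) ^ s := by
      have := conj_zpow (a := c⁻¹) (b := w) (i := s)
      rw [inv_inv] at this
      exact this.symm
    rw [e1, wc, (hz2 w).symm.mul_zpow]
  -- the key identity
  have key : w * z3 = w * z2 ^ (1 + s) := by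
    have e1 : y⁻¹ * w * y = (x * κ)⁻¹ * c⁻¹ * (x * κ) * c := by
      have : y⁻¹ * w * y = (y⁻¹ * x * y)⁻¹ * (y⁻¹ * c * y)⁻¹ * (y⁻¹ * x * y) * (y⁻¹ * c * y) := by
        rw [← hw]; group
      rw [this, xy, cy']
    have e2 : (x * κ)⁻¹ * c⁻¹ * (x * κ) * c = (x * c * w ^ s)⁻¹ * (c⁻¹ * (x * c * w ^ s) * c) := by
      rw [hκ]
      have e3 : (x * (c * w ^ s * z0))⁻¹ * c⁻¹ * (x * (c * w ^ s * z0)) * c =
          z0⁻¹ * ((x * c * w ^ s)⁻¹ * (c⁻¹ * (x * c * w ^ s) * (z0 * c))) := by group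
      rw [e3, (hz0 c).eq]
      have e4 : z0⁻¹ * ((x * c * w ^ s)⁻¹ * (c⁻¹ * (x * c * w ^ s) * (c * z0))) =
          z0⁻¹ * (((x * c * w ^ s)⁻¹ * (c⁻¹ * (x * c * w ^ s) * c)) * z0) := by group
      rw [e4, ← (hz0 _).eq, inv_mul_cancel_left]
    have e5 : c⁻¹ * (x * c * w ^ s) * c = x * w * c * (w ^ s * z2 ^ s) := by
      have : c⁻¹ * (x * c * w ^ s) * c = (c⁻¹ * x * c) * c * (c⁻¹ * w ^ s * c) := by group
      rw [this, xc, wcz]
    rw [← wy, e1, e2, e5]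
    have e6 : (x * c * w ^ s)⁻¹ * (x * w * c * (w ^ s * z2 ^ s)) =
        (w ^ s)⁻¹ * ((c⁻¹ * w * c) * w ^ s) * z2 ^ s := by group
    have e7 : w * z2 * w ^ s = w ^ s * (w * z2) := by
      rw [mul_assoc, (hz2 _).eq, ← mul_assoc, ← mul_assoc, ((Commute.refl w).zpow_right s).eq]
    rw [e6, wc, e7, inv_mul_cancel_left, zpow_add, zpow_one, mul_assoc]
  have key2 : z3 = z2 ^ (1 + s) := mul_left_cancel key
  have z3one : z3 = 1 := by
    refine Eig.disj h (i := 1) (j := 2) (by decide) e3 ?_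
    rw [key2]
    exact e2.zpow h _
  have hwy : Commute w y := by
    rw [z3one, mul_one] at wy
    have : w * y = y * (y⁻¹ * w * y) := by group
    rw [Commute, SemiconjBy, this, wy]
  have hκw : Commute κ w := by
    rw [← hκκ]
    exact (((hwx.symm.inv_left).mul_left hwy.symm.inv_left).mul_left hwx.symm).mul_left hwy.symm
  have hcw : Commute c w := by
    have : c = κ * z0⁻¹ * (w ^ s)⁻¹ := by
      rw [hκ]; group
    rw [this]
    exact ((hκw.mul_left (hz0 w).inv_left)).mul_left ((Commute.refl w).zpow_left s).inv_left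
  -- w is an eigen-element of degree 4
  have ew : Eig r k a 4 w := by
    refine eig_of M (pow_up hn7 l7) ?_
    conv_lhs => rw [← hw]
    rw [map_mul, map_mul, map_mul, map_inv, map_inv, ax, ac, comm_pow_pow hw hwx hcw.symm, ← pow_add,
      ← add_mul]
  have hκy : Commute κ y := by
    rw [hκ]
    exact ((hcy.symm.mul_left (hwy.zpow_left s)).mul_left (hz0 y))
  have hω : κ⁻¹ * x⁻¹ * κ * x = w⁻¹ := by
    have e1 : κ⁻¹ * x⁻¹ * κ * x = (c⁻¹ * (x⁻¹ * c * x)) := by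
      rw [hκ]
      have e2 : (c * w ^ s * z0)⁻¹ * x⁻¹ * (c * w ^ s * z0) * x =
          z0⁻¹ * ((w ^ s)⁻¹ * (c⁻¹ * (x⁻¹ * c * (w ^ s * (z0 * x))))) := by group
      rw [e2, (hz0 x).eq]
      have e3 : z0⁻¹ * ((w ^ s)⁻¹ * (c⁻¹ * (x⁻¹ * c * (w ^ s * (x * z0))))) =
          z0⁻¹ * (((w ^ s)⁻¹ * (c⁻¹ * (x⁻¹ * c * (w ^ s * x)))) * z0) := by group
      rw [e3, ← (hz0 _).eq, inv_mul_cancel_left, (hwx.zpow_left s).eq]
      have e4 : (w ^ s)⁻¹ * (c⁻¹ * (x⁻¹ * c * (x * w ^ s))) = (w ^ s)⁻¹ * ((c⁻¹ * (x⁻¹ * c * x)) * w ^ s) := by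
        group
      have e5 : Commute (c⁻¹ * (x⁻¹ * c * x)) (w ^ s) :=
        (hcw.inv_left.mul_left ((hwx.symm.inv_left.mul_left hcw).mul_left hwx.symm)).zpow_right s
      rw [e4, e5.eq, inv_mul_cancel_left]
    rw [e1, ← hw]
    group
  obtain ⟨e, he⟩ := kappa_pow hκκ hκy hω hwx.inv_left hκw.symm.inv_left (k ^ (1 * r ^ M)) (k ^ (2 * r ^ M))
  have aκ : a κ = κ ^ (k ^ (3 * r ^ M)) * w⁻¹ ^ e := by
    conv_lhs => rw [← hκκ]
    rw [map_mul, map_mul, map_mul, map_inv, map_inv, ax, ay, he, ← pow_add, ← add_mul]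
  obtain ⟨n, hn, hn'⟩ := lift_central (N := Subgroup.zpowers w) h H (i := 3) (M := M) (x := κ)
    (by
      intro g hg
      obtain ⟨t, rfl⟩ := hg
      exact map_zpow a w t ▸ (Subgroup.zpowers w).zpow_mem (ew.mem h) t)
    (by
      intro g hg
      obtain ⟨t, rfl⟩ := hg
      exact hκw.symm.zpow_left t)
    (by
      intro g hg g' hg'
      obtain ⟨t, rfl⟩ := hg
      obtain ⟨t', rfl⟩ := hg'
      exact ((Commute.refl w).zpow_left t).zpow_right t')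
    (pow_up hn8 l8)
    (by
      rw [aκ, inv_mul_cancel_left]
      exact (Subgroup.zpowers w).zpow_mem ((Subgroup.zpowers w).inv_mem (Subgroup.mem_zpowers w)) e)
  obtain ⟨t, rfl⟩ := hn
  refine ⟨κ * w ^ t, w, -t, hn', ew, ?_, ?_, ?_, hwx, hwy⟩
  · rw [xy]; group
  · have e1 : x⁻¹ * (κ * w ^ t)⁻¹ * x * (κ * w ^ t) = x⁻¹ * (w ^ t)⁻¹ * (κ⁻¹ * x * κ * w ^ t) := by group
    have e2 : Commute (κ⁻¹ * x * κ) (w ^ t) :=
      ((hκw.inv_left.mul_left hwx.symm).mul_left hκw).zpow_right t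
    have e3 : x⁻¹ * (w ^ t)⁻¹ * (w ^ t * (κ⁻¹ * x * κ)) = (κ⁻¹ * x⁻¹ * κ * x)⁻¹ := by group
    rw [e1, e2.eq, e3, hω, inv_inv]
  · exact hκy.mul_left (hwy.zpow_left t)

theorem pair_finite (h : Root r k) (n : ℕ) : ∀ (X : Type u) [Group X] [Finite X] (a : MulAut X), Hyp r a →
    Nat.card X = n → ∀ x y : X, Eig r k a 1 x → Eig r k a 2 y → ∃ (c w : X) (s : ℤ), PairRel r k a x y c w s := by
  induction n using Nat.strong_induction_on with
  | _ n ih =>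
  intro X _ _ a H hn x y hx hy
  rcases subsingleton_or_nontrivial X with hS | hS
  · refine ⟨1, 1, 0, Eig.one 3, Eig.one 4, Subsingleton.elim _ _, Subsingleton.elim _ _, ?_, ?_, ?_⟩
    · exact Subsingleton.elim _ _
    · exact Subsingleton.elim _ _
    · exact Subsingleton.elim _ _
  have := Fact.mk h.prime
  have hp : IsPGroup r X := H.tors
  have hc : Nontrivial (Subgroup.center X) := hp.center_nontrivial
  have hinv : Inv a (Subgroup.center X) := inv_center a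
  have HQ := quo_hyp H (Subgroup.center X) hinv
  have hlt : Nat.card (X ⧸ Subgroup.center X) < n := by
    have h1 := Subgroup.card_eq_card_quotient_mul_card_subgroup (Subgroup.center X)
    have h2 : 1 < Nat.card (Subgroup.center X) := Finite.one_lt_card
    have h3 : 0 < Nat.card (X ⧸ Subgroup.center X) := Nat.card_pos
    rw [← hn, h1]
    exact lt_mul_of_one_lt_right h3 h2
  obtain ⟨c', w', s, hc', hw', hxy', hxc', hcy', hwx', hwy'⟩ := ih _ hlt (X ⧸ Subgroup.center X) _ HQ rfl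
    (x : X ⧸ Subgroup.center X) (y : X ⧸ Subgroup.center X) (quo_eig _ hinv H.pow5 hx) (quo_eig _ hinv H.pow5 hy)
  have hcen : ∀ n ∈ Subgroup.center X, ∀ g : X, Commute n g := fun n hn g =>
    (Subgroup.mem_center_iff.mp hn g).symm
  obtain ⟨c, rfl, hc⟩ := lift_quo h H hinv hcen hc'
  obtain ⟨w1, rfl, hw1⟩ := lift_quo h H hinv hcen hw'
  have key : ∀ {g g' : X}, (g : X ⧸ Subgroup.center X) = g' → g⁻¹ * g' ∈ Subgroup.center X :=
    fun hg => QuotientGroup.eq.mp hg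
  -- the elements z4 and z0
  have q4 : ((w1 : X) : X ⧸ Subgroup.center X) = ((x⁻¹ * c⁻¹ * x * c : X) : X ⧸ Subgroup.center X) := hxc'.symm
  have m4 := key q4
  have q0 : ((c * (x⁻¹ * c⁻¹ * x * c) ^ s : X) : X ⧸ Subgroup.center X) =
      ((x⁻¹ * y⁻¹ * x * y : X) : X ⧸ Subgroup.center X) := by
    rw [QuotientGroup.mk_mul, QuotientGroup.mk_zpow, ← q4]
    have : ((x⁻¹ * y⁻¹ * x * y : X) : X ⧸ Subgroup.center X) =
        (x : X ⧸ Subgroup.center X)⁻¹ * ((y : X ⧸ Subgroup.center X)⁻¹ * x * y) := by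
      rw [← QuotientGroup.mk_inv, ← QuotientGroup.mk_inv, ← QuotientGroup.mk_mul, ← QuotientGroup.mk_mul,
        ← QuotientGroup.mk_mul]
      congr 1
      group
    rw [this, hxy', inv_mul_cancel_left]
  have m0 := key q0
  have qwc : Commute (w1 : X ⧸ Subgroup.center X) (c : X ⧸ Subgroup.center X) := by
    have e1 : (c : X ⧸ Subgroup.center X) = (x : X ⧸ Subgroup.center X)⁻¹ * ((y : X ⧸ Subgroup.center X)⁻¹ * x * y) *
        ((w1 : X ⧸ Subgroup.center X) ^ s)⁻¹ := by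
      rw [hxy']; group
    rw [e1]
    exact ((hwx'.inv_right.mul_right ((hwy'.inv_right.mul_right hwx').mul_right hwy'))).mul_right
      ((Commute.refl _).zpow_right s).inv_right
  have mem_comm : ∀ g g' : X, Commute (g : X ⧸ Subgroup.center X) (g' : X ⧸ Subgroup.center X) →
      g⁻¹ * g'⁻¹ * g * g' ∈ Subgroup.center X := by
    intro g g' hgg
    have e1 : ((g' * g : X) : X ⧸ Subgroup.center X) = ((g * g' : X) : X ⧸ Subgroup.center X) := by
      rw [QuotientGroup.mk_mul, QuotientGroup.mk_mul]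
      exact hgg.symm.eq
    have e2 := key e1
    have e3 : (g' * g)⁻¹ * (g * g') = g⁻¹ * g'⁻¹ * g * g' := by group
    rwa [e3] at e2
  refine pair_step h H (z4 := w1⁻¹ * (x⁻¹ * c⁻¹ * x * c))
    (z0 := (c * (x⁻¹ * c⁻¹ * x * c) ^ s)⁻¹ * (x⁻¹ * y⁻¹ * x * y)) (s := s) hx hy hc hw1
    (hcen _ m4) (hcen _ m0) ?_ ?_ (hcen _ (mem_comm _ _ qwc)) (hcen _ (mem_comm _ _ hwy'))
  · rw [mul_inv_cancel_left]
  · rw [mul_inv_cancel_left, mul_inv_cancel_left]

end Pool.Agent.FRB
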