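import Pool.Agent.FRB.Fix

/-!
# FRB/Quo: passing to a quotient by an invariant normal subgroup

`quo a N hN h5` is the induced automorphism (FRB/Defs).  `quo_hyp`: `fpf`: if `a x ∈ x N` then `x⁻¹ * a x ∈ N`
(`QuotientGroup.eq`), so `x ∈ N` by `fix`; `two`, `orb`: `closure` of the images is the image of the closure
(`MonoidHom.map_closure`, `Set.image_pair`), finite.
-/

set_option autoImplicit false

namespace Pool.Agent.FRB

variable {r k : ℕ} {X : Type*} [Group X] {a : MulAut X}

theorem quo_mk (N : Subgroup X) [N.Normal] (hN : Inv a N) (h5 : ∀ x : X, a (a (a (a (a x)))) = x) (x : X) :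
    quo a N hN h5 (x : X ⧸ N) = ((a x : X) : X ⧸ N) := rfl

private theorem fin_image {N : Subgroup X} [N.Normal] {s : Set X}
    (h : ((Subgroup.closure s : Subgroup X) : Set X).Finite) :
    ((Subgroup.closure ((QuotientGroup.mk' N) '' s) : Subgroup (X ⧸ N)) : Set (X ⧸ N)).Finite := by
  rw [← MonoidHom.map_closure, Subgroup.coe_map]
  exact h.image _

theorem quo_hyp (H : Hyp r a) (N : Subgroup X) [N.Normal] (hN : Inv a N) : Hyp r (quo a N hN H.pow5) := by
  refine ⟨fun q => ?_, fun q => ?_, fun q hq => ?_, fun q q' => ?_, fun q => ?_⟩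
  · induction q using QuotientGroup.induction_on with
    | H x =>
      obtain ⟨n, hn⟩ := H.tors x
      exact ⟨n, by rw [← QuotientGroup.mk_pow, hn]; rfl⟩
  · induction q using QuotientGroup.induction_on with
    | H x =>
      rw [quo_mk, quo_mk, quo_mk, quo_mk, quo_mk, H.pow5]
  · induction q using QuotientGroup.induction_on with
    | H x =>
      rw [quo_mk] at hq
      exact (QuotientGroup.eq_one_iff x).2 (fix H hN (QuotientGroup.eq.1 hq.symm))
  · induction q using QuotientGroup.induction_on with
    | H x =>
      induction q' using QuotientGroup.induction_on with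
      | H y =>
        have h := fin_image (N := N) (H.two x y)
        rw [Set.image_pair] at h
        exact h
  · induction q using QuotientGroup.induction_on with
    | H x =>
      have h := fin_image (N := N) (H.orb x)
      rw [Set.image_insert_eq, Set.image_insert_eq, Set.image_insert_eq, Set.image_pair] at h
      rw [quo_mk, quo_mk, quo_mk, quo_mk]
      exact h

theorem quo_eig (N : Subgroup X) [N.Normal] (hN : Inv a N) (h5 : ∀ x : X, a (a (a (a (a x)))) = x) {i : ℕ}
    {x : X} (hx : Eig r k a i x) : Eig r k (quo a N hN h5) i (x : X ⧸ N) := by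
  obtain ⟨n, h1, h2⟩ := hx
  refine ⟨n, ?_, ?_⟩
  · rw [← QuotientGroup.mk_pow, h1]
    rfl
  · rw [quo_mk, h2, QuotientGroup.mk_pow]

/-- the centre is invariant -/
theorem inv_center (a : MulAut X) : Inv a (Subgroup.center X) := by
  intro x hx
  rw [Subgroup.mem_center_iff] at hx ⊢
  intro g
  have h := congrArg a (hx (a.symm g))
  rw [map_mul, map_mul, MulEquiv.apply_symm_apply] at h
  exact h

end Pool.Agent.FRB
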