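import Pool.Agent.FRB.LFx
import Pool.Agent.FRB.EigB

/-!
# FRB/SSd: the condition `SS` passes to normal invariant subgroups; centralisers

`ss_down`: the conjugates of a locally finite invariant subgroup `L` normalised by `S` generate a locally finite
subgroup normalised by `Y`.  `cent_one`: the centraliser `C` of `S` in `Y` meets `S` trivially, so it is locally finite
(it embeds into the finite groups `B ≤ A` on finitely generated subgroups), hence trivial.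
-/

set_option autoImplicit false

namespace Pool.Agent.FRB

universe u

variable {r k : ℕ} {X : Type u} [Group X] {a : MulAut X}

/-- the conjugate `y⁻¹ L y` -/
private def cj (y : X) (L : Subgroup X) : Subgroup X := L.map (MulAut.conj y⁻¹ : MulAut X).toMonoidHom

private theorem mem_cj {y : X} {L : Subgroup X} {z : X} : z ∈ cj y L ↔ ∃ x ∈ L, y⁻¹ * x * y = z := by
  unfold cj
  rw [Subgroup.mem_map]
  constructor
  · rintro ⟨x, hx, h⟩
    refine ⟨x, hx, ?_⟩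
    rw [← h]
    show y⁻¹ * x * y = y⁻¹ * x * y⁻¹⁻¹
    rw [inv_inv]
  · rintro ⟨x, hx, h⟩
    refine ⟨x, hx, ?_⟩
    rw [← h]
    show y⁻¹ * x * y⁻¹⁻¹ = y⁻¹ * x * y
    rw [inv_inv]

private theorem lf_cj {L : Subgroup X} (hL : LF L) (y : X) : LF (cj y L) := by
  classical
  intro s hs
  have h1 := hL (s.image fun z => y * z * y⁻¹) (by
    intro z hz
    rw [Finset.coe_image] at hz
    obtain ⟨w, hw, rfl⟩ := hz
    obtain ⟨x, hx, h⟩ := mem_cj.1 (hs hw)
    have h2 : y * w * y⁻¹ = x := by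
      rw [← h]
      group
    show y * w * y⁻¹ ∈ L
    rw [h2]
    exact hx)
  have h2 : ((Subgroup.closure (s : Set X) : Subgroup X) : Set X) ⊆
      (fun z => y⁻¹ * z * y) '' ((Subgroup.closure ((s.image fun z => y * z * y⁻¹ : Finset X) : Set X) :
        Subgroup X) : Set X) := by
    have h3 : Subgroup.closure (s : Set X) ≤
        cj y (Subgroup.closure ((s.image fun z => y * z * y⁻¹ : Finset X) : Set X)) := by
      rw [Subgroup.closure_le]
      intro w hw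
      refine mem_cj.2 ⟨y * w * y⁻¹, Subgroup.subset_closure ?_, by group⟩
      rw [Finset.coe_image]
      exact ⟨w, hw, rfl⟩
    intro w hw
    obtain ⟨x, hx, h⟩ := mem_cj.1 (h3 hw)
    exact ⟨x, hx, h⟩
  exact (h1.image _).subset h2

theorem ss_down {Y S : Subgroup X} (hY : SS a Y) (hYa : Inv a Y) (hS : S ≤ Y) (hSa : Inv a S)
    (h5 : ∀ x : X, a (a (a (a (a x)))) = x)
    (hn : ∀ y ∈ Y, ∀ x ∈ S, y⁻¹ * x * y ∈ S) : SS a S := by
  have _ := h5
  have _ := hSa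
  intro L hLS hLa hLn hL
  let 𝓕 : Set (Subgroup X) := {K | ∃ y ∈ Y, K = cj y L}
  have hyi : ∀ y ∈ Y, ∀ s ∈ S, y * s * y⁻¹ ∈ S := by
    intro y hy s hs
    have h1 := hn y⁻¹ (Y.inv_mem hy) s hs
    rwa [inv_inv] at h1
  have h1 : ∀ K ∈ 𝓕, K ≤ S := by
    rintro K ⟨y, hy, rfl⟩ z hz
    obtain ⟨x, hx, rfl⟩ := mem_cj.1 hz
    exact hn y hy x (hLS hx)
  have h2 : ∀ K ∈ 𝓕, ∀ s ∈ S, ∀ x ∈ K, s⁻¹ * x * s ∈ K := by
    rintro K ⟨y, hy, rfl⟩ s hs z hz
    obtain ⟨x, hx, rfl⟩ := mem_cj.1 hz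
    refine mem_cj.2 ⟨(y * s * y⁻¹)⁻¹ * x * (y * s * y⁻¹), hLn _ (hyi y hy s hs) x hx, by group⟩
  have h3 : ∀ K ∈ 𝓕, LF K := by
    rintro K ⟨y, hy, rfl⟩
    exact lf_cj hL y
  have hM := lf_sSup h1 h2 h3
  have hMS : sSup 𝓕 ≤ S := sSup_le h1
  have hle : ∀ y ∈ Y, cj y L ≤ sSup 𝓕 := fun y hy => le_sSup ⟨y, hy, rfl⟩
  have hMa : Inv a (sSup 𝓕) := by
    have h4 : sSup 𝓕 ≤ (sSup 𝓕).comap (a : MulAut X).toMonoidHom := by
      refine sSup_le ?_
      rintro K ⟨y, hy, rfl⟩ z hz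
      obtain ⟨x, hx, rfl⟩ := mem_cj.1 hz
      show a (y⁻¹ * x * y) ∈ sSup 𝓕
      refine hle (a y) (hYa y hy) (mem_cj.2 ⟨a x, hLa x hx, ?_⟩)
      rw [map_mul, map_mul, map_inv]
    exact fun x hx => h4 hx
  have hMn : ∀ y ∈ Y, ∀ x ∈ sSup 𝓕, y⁻¹ * x * y ∈ sSup 𝓕 := by
    intro y' hy'
    have h4 : sSup 𝓕 ≤ (sSup 𝓕).comap (MulAut.conj y'⁻¹ : MulAut X).toMonoidHom := by
      refine sSup_le ?_
      rintro K ⟨y, hy, rfl⟩ z hz
      obtain ⟨x, hx, rfl⟩ := mem_cj.1 hz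
      show y'⁻¹ * (y⁻¹ * x * y) * y'⁻¹⁻¹ ∈ sSup 𝓕
      exact hle (y * y') (Y.mul_mem hy hy') (mem_cj.2 ⟨x, hx, by group⟩)
    intro x hx
    have h5' : y'⁻¹ * x * y'⁻¹⁻¹ ∈ sSup 𝓕 := h4 hx
    rwa [inv_inv] at h5'
  have h6 := hY (sSup 𝓕) (hMS.trans hS) hMa hMn hM
  rw [eq_bot_iff]
  intro x hx
  have h7 : x ∈ sSup 𝓕 := hle 1 Y.one_mem (mem_cj.2 ⟨x, hx, by group⟩)
  rw [h6] at h7
  exact h7

theorem cent_one (H : Hyp r a) {Y S A : Subgroup X} (hY : SS a Y) (hYa : Inv a Y) (hS : S ≤ Y) (hSa : Inv a S)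
    (hn : ∀ y ∈ Y, ∀ x ∈ S, y⁻¹ * x * y ∈ S) (hA : LF A)
    (hYA : ∀ y ∈ Y, ∃ s ∈ S, ∃ α ∈ A, α ∈ Y ∧ y = s * α) {c : X} (hc : c ∈ Y) (hcs : ∀ s ∈ S, Commute c s) :
    c = 1 := by
  classical
  have hyi : ∀ y ∈ Y, ∀ s ∈ S, y * s * y⁻¹ ∈ S := by
    intro y hy s hs
    have h1 := hn y⁻¹ (Y.inv_mem hy) s hs
    rwa [inv_inv] at h1
  let C : Subgroup X := Y ⊓ Subgroup.centralizer (S : Set X)
  have hC : ∀ x, x ∈ C ↔ x ∈ Y ∧ ∀ s ∈ S, s * x = x * s := fun x => by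
    show x ∈ Y ⊓ Subgroup.centralizer (S : Set X) ↔ _
    rw [Subgroup.mem_inf, Subgroup.mem_centralizer_iff]
    exact Iff.rfl
  have hCY : C ≤ Y := inf_le_left
  have hCa : Inv a C := by
    intro x hx
    obtain ⟨h1, h2⟩ := (hC x).1 hx
    refine (hC _).2 ⟨hYa x h1, fun s hs => ?_⟩
    have h3 : a (a (a (a s))) ∈ S := hSa _ (hSa _ (hSa _ (hSa _ hs)))
    have h4 := congrArg a (h2 _ h3)
    rw [map_mul, map_mul, H.pow5] at h4
    exact h4
  have hCn : ∀ y ∈ Y, ∀ x ∈ C, y⁻¹ * x * y ∈ C := by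
    intro y hy x hx
    obtain ⟨h1, h2⟩ := (hC x).1 hx
    refine (hC _).2 ⟨Y.mul_mem (Y.mul_mem (Y.inv_mem hy) h1) hy, fun s hs => ?_⟩
    have h3 := h2 _ (hyi y hy s hs)
    have h4 : s * (y⁻¹ * x * y) = y⁻¹ * ((y * s * y⁻¹) * x) * y := by group
    have h5 : y⁻¹ * x * y * s = y⁻¹ * (x * (y * s * y⁻¹)) * y := by group
    rw [h4, h5, h3]
  have hD : C ⊓ S = ⊥ := by
    refine hY (C ⊓ S) (inf_le_left.trans hCY) (fun x hx => ⟨hCa x hx.1, hSa x hx.2⟩)
      (fun y hy x hx => ⟨hCn y hy x hx.1, hn y hy x hx.2⟩) (lf_comm ?_ ?_)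
    · intro x hx y hy
      exact (((hC x).1 hx.1).2 y hy.2).symm
    · intro x _
      obtain ⟨n, hn'⟩ := H.tors x
      rcases Nat.eq_zero_or_pos r with hr | hr
      · subst hr
        rcases Nat.eq_zero_or_pos n with h0 | h0
        · subst h0
          exact ⟨1, one_pos, by simpa using hn'⟩
        · have hx1 : x ^ 1 = 1 ∨ ∃ m : ℕ, 0 < m ∧ x ^ m = 1 := by
            have hf := H.two x x
            have hfin : IsOfFinOrder x := by
              have h6 : (Subgroup.zpowers x : Set X).Finite := hf.subset (by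
                have h7 : Subgroup.zpowers x ≤ Subgroup.closure ({x, x} : Set X) := by
                  rw [Subgroup.zpowers_le]
                  exact Subgroup.subset_closure (Or.inl rfl)
                exact h7)
              exact finite_zpowers.1 h6
            exact Or.inr (isOfFinOrder_iff_pow_eq_one.1 hfin)
          rcases hx1 with h6 | h6
          · exact ⟨1, one_pos, h6⟩
          · exact h6
      · exact ⟨r ^ n, pow_pos hr n, hn'⟩
  have hCL : LF C := by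
    intro s hs
    have hYA' : ∀ y : X, ∃ σ α : X, y ∈ Y → σ ∈ S ∧ α ∈ A ∧ α ∈ Y ∧ y = σ * α := by
      intro y
      by_cases hy : y ∈ Y
      · obtain ⟨σ, h1, α, h2, h3, h4⟩ := hYA y hy
        exact ⟨σ, α, fun _ => ⟨h1, h2, h3, h4⟩⟩
      · exact ⟨1, 1, fun h => absurd h hy⟩
    choose σ α hσα using hYA'
    have hB := hA (s.image α) (by
      intro z hz
      rw [Finset.coe_image] at hz
      obtain ⟨w, hw, rfl⟩ := hz
      exact (hσα w (hCY (hs hw))).2.1)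
    have hBY : Subgroup.closure ((s.image α : Finset X) : Set X) ≤ Y := by
      rw [Subgroup.closure_le]
      intro z hz
      rw [Finset.coe_image] at hz
      obtain ⟨w, hw, rfl⟩ := hz
      exact (hσα w (hCY (hs hw))).2.2.1
    have hsC : Subgroup.closure (s : Set X) ≤ C := by
      rw [Subgroup.closure_le]
      exact hs
    have hSB : ∀ g ∈ Subgroup.closure (s : Set X), ∃ τ ∈ S,
        ∃ β ∈ Subgroup.closure ((s.image α : Finset X) : Set X), g = τ * β := by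
      intro g hg
      induction hg using Subgroup.closure_induction with
      | mem x hx =>
        obtain ⟨h1, h2, h3, h4⟩ := hσα x (hCY (hs hx))
        refine ⟨σ x, h1, α x, Subgroup.subset_closure ?_, h4⟩
        rw [Finset.coe_image]
        exact ⟨x, hx, rfl⟩
      | one => exact ⟨1, S.one_mem, 1, Subgroup.one_mem _, (one_mul 1).symm⟩
      | mul x y _ _ hx hy =>
        obtain ⟨τ, hτ, β, hβ, rfl⟩ := hx
        obtain ⟨τ', hτ', β', hβ', rfl⟩ := hy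
        exact ⟨τ * (β * τ' * β⁻¹), S.mul_mem hτ (hyi β (hBY hβ) τ' hτ'), β * β',
          Subgroup.mul_mem _ hβ hβ', by group⟩
      | inv x _ hx =>
        obtain ⟨τ, hτ, β, hβ, rfl⟩ := hx
        exact ⟨β⁻¹ * τ⁻¹ * β, hn β (hBY hβ) τ⁻¹ (S.inv_mem hτ), β⁻¹, Subgroup.inv_mem _ hβ,
          by group⟩
    have hSB' : ∀ g : X, ∃ β : X, g ∈ Subgroup.closure (s : Set X) →
        β ∈ Subgroup.closure ((s.image α : Finset X) : Set X) ∧ g * β⁻¹ ∈ S := by
      intro g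
      by_cases hg : g ∈ Subgroup.closure (s : Set X)
      · obtain ⟨τ, hτ, β, hβ, h1⟩ := hSB g hg
        refine ⟨β, fun _ => ⟨hβ, ?_⟩⟩
        rw [h1, mul_inv_cancel_right]
        exact hτ
      · exact ⟨1, fun h => absurd h hg⟩
    choose β hβ using hSB'
    refine Set.Finite.of_injOn (f := β) (fun g hg => (hβ g hg).1) ?_ hB
    intro g hg g' hg' he
    have h1 := (hβ g hg).2
    have h2 := (hβ g' hg').2
    rw [← he] at h2
    have h3 : g * g'⁻¹ ∈ S := by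
      have h4 := S.mul_mem h1 (S.inv_mem h2)
      have h5 : g * (β g)⁻¹ * (g' * (β g)⁻¹)⁻¹ = g * g'⁻¹ := by group
      rwa [h5] at h4
    have h4 : g * g'⁻¹ ∈ C ⊓ S :=
      ⟨C.mul_mem (hsC hg) (C.inv_mem (hsC hg')), h3⟩
    rw [hD, Subgroup.mem_bot] at h4
    exact mul_inv_eq_one.1 h4
  have h6 := hY C hCY hCa hCn hCL
  have h7 : c ∈ C := (hC c).2 ⟨hc, fun s hs => (hcs s hs).symm⟩
  rw [h6, Subgroup.mem_bot] at h7
  exact h7

end Pool.Agent.FRB
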