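import Pool.Agent.FRB.Pair

/-!
# FRB/Trick: the one-parameter trick

Assume that eigen-elements of equal degree commute.  Let `x`, `y`, `u` have degrees 1, 2, 4; `κ = [x,y]`.
`trick`: `κ` commutes with `u`.  Proof.
* `pair12 (x,y)`: `κ = c w^s` commutes with `y` (`c` and `w` do).  So `y^(-n) x y^n = x κ^n`.
* `pair24 (y,u)`: `u⁻¹ y u = y (c' w'^s')`, `c'` of degree 1, `w'` of degree 3, `[y,c'] = w'`, `c'` commutes with `u`,
  `w'` with `y` and `u` (and so with `c'`, a word in... use `Commute` from `w' ` central in `closure {y,u}`, `c' ∈` it).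
  Put `α = c'⁻¹` (degree 1) and `θ`: `y⁻¹ α y = α θ`, where `θ` is `w'` or `w'⁻¹` (from `[y,c'] = w'`:
  `y⁻¹ c'⁻¹ y c' = w'`, so `y⁻¹ α y = w' α`, i.e. `θ = w'`, commuting with `α`).
  `y⁻¹ u y = u [u,y] = u (c' w'^s')⁻¹ = u α θ^(-s')`.  So with `s1 = -s'` (an integer):
  `y^(-n) u y^n = u α^n θ^(s1 n + n(n-1)/2)`, `y^(-n) α y^n = α θ^n`; `u`, `α`, `θ` commute pairwise, `θ` commutes with `y`.
* `x` commutes with `u` (`comm`, 1+4) and with `α` (degree 1 both, hypothesis), so `x κ^n` commutes with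
  `u α^n θ^(s1 n + n(n-1)/2)` and with `α θ^n`.
  n = 1: `x κ` commutes with `u α θ^s1 * (α θ)^(-s1) = u α^(1-s1)`; so does `x`; so `κ` commutes with `u α^(1-s1)`.
  n = 3: `x κ^3` commutes with `u α^3 θ^(3 s1 + 3) * (α θ^3)^(-(s1+1)) = u α^(2-s1)`; so does `x`; so `κ^3`, and hence
  `κ` (its order is a power of `r`, `r > 3`), commutes with `u α^(2-s1)`.
  So `κ` commutes with `α` (quotient of the two) and with `u`.

`trick_c`: the eigen-element `c` of degree 3 in `pair12 (x,y)` commutes with all eigen-elements of degrees 2, 3, 4: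
degree 2 by `comm`, degree 3 by hypothesis, degree 4: `κ = c w^s` commutes with `u` by `trick`, `w` (degree 4) too.
-/

set_option autoImplicit false

namespace Pool.Agent.FRB

universe u

variable {r k : ℕ} {X : Type u} [Group X] {a : MulAut X}

private theorem cm_aux {al th : X} (h : Commute al th) (i j l m : ℤ) :
    (al ^ i * th ^ j) * (al ^ l * th ^ m) = al ^ (i + l) * th ^ (j + m) := by
  have h1 : th ^ j * al ^ l = al ^ l * th ^ j := ((h.zpow_zpow l j).eq).symm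
  calc (al ^ i * th ^ j) * (al ^ l * th ^ m) = al ^ i * (th ^ j * al ^ l) * th ^ m := by
        simp only [mul_assoc]
    _ = al ^ i * (al ^ l * th ^ j) * th ^ m := by rw [h1]
    _ = al ^ (i + l) * th ^ (j + m) := by
        rw [zpow_add, zpow_add]; simp only [mul_assoc]

private theorem cm_conj {y al th : X} (h : Commute al th) (ha : y⁻¹ * al * y = al * th)
    (ht : Commute th y) (i j : ℤ) : y⁻¹ * (al ^ i * th ^ j) * y = al ^ i * th ^ (i + j) := by
  have h1 : y⁻¹ * al ^ i * y = (al * th) ^ i := by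
    rw [← ha]
    have := (conj_zpow (i := i) (a := y⁻¹) (b := al))
    rw [inv_inv] at this
    exact this.symm
  have h2 : y⁻¹ * th ^ j * y = th ^ j := by
    have := (ht.zpow_left j).eq
    rw [mul_assoc, this]; group
  calc y⁻¹ * (al ^ i * th ^ j) * y = (y⁻¹ * al ^ i * y) * (y⁻¹ * th ^ j * y) := by group
    _ = (al * th) ^ i * th ^ j := by rw [h1, h2]
    _ = al ^ i * th ^ (i + j) := by rw [h.mul_zpow, zpow_add, mul_assoc]

private theorem commute_conj {y g t : X} (h : Commute g t) : Commute (y⁻¹ * g * y) (y⁻¹ * t * y) := by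
  have := h.eq
  show y⁻¹ * g * y * (y⁻¹ * t * y) = y⁻¹ * t * y * (y⁻¹ * g * y)
  calc y⁻¹ * g * y * (y⁻¹ * t * y) = y⁻¹ * (g * t) * y := by group
    _ = y⁻¹ * (t * g) * y := by rw [this]
    _ = y⁻¹ * t * y * (y⁻¹ * g * y) := by group

private theorem Root.three (h : Root r k) (n : ℕ) : Nat.Coprime 3 (r ^ n) := by
  apply Nat.Coprime.pow_right
  rw [Nat.coprime_primes Nat.prime_three h.prime]
  intro h3
  have := h.mod5
  rw [← h3] at this
  norm_num at this

private theorem commute_of_cube (h : Root r k) (H : Hyp r a) {g t : X} (hg : Commute (g ^ 3) t) :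
    Commute g t := by
  obtain ⟨n, hn⟩ := H.tors g
  have hc : Nat.Coprime 3 (r ^ n) := Root.three h n
  have h1 : g ∈ Subgroup.zpowers (g ^ 3) := by
    have hord : orderOf g ∣ r ^ n := orderOf_dvd_of_pow_eq_one hn
    have hc2 : Nat.Coprime (orderOf g) 3 := (Nat.Coprime.coprime_dvd_right hord hc).symm
    obtain ⟨m, hm⟩ := exists_pow_eq_self_of_coprime (n := 3) (x := g) hc2.symm
    exact ⟨(m : ℤ), by simpa using hm⟩
  obtain ⟨m, hm⟩ := h1
  rw [← hm]
  exact hg.zpow_left m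

theorem trick (h : Root r k) (H : Hyp r a)
    (hab : ∀ (i : ℕ) (x y : X), Eig r k a i x → Eig r k a i y → Commute x y) {x y u : X} (hx : Eig r k a 1 x)
    (hy : Eig r k a 2 y) (hu : Eig r k a 4 u) : Commute (x⁻¹ * y⁻¹ * x * y) u := by
  obtain ⟨c, w, s, ⟨hc, hw, hxy, hcw, hcy, hwx, hwy⟩, -, -⟩ := pair12 h H hx hy
  obtain ⟨c', w', s', hc', hw', hyu, hyc, hcu, hwy', hwu, -, -⟩ := pair24 h H hy hu
  obtain ⟨κ, hκ⟩ : ∃ κ, κ = x⁻¹ * y⁻¹ * x * y := ⟨_, rfl⟩
  rw [← hκ]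
  have hκc : κ = c * w ^ s := by
    rw [hκ]
    calc x⁻¹ * y⁻¹ * x * y = x⁻¹ * (y⁻¹ * x * y) := by group
      _ = x⁻¹ * (x * (c * w ^ s)) := by rw [hxy]
      _ = c * w ^ s := by group
  have hκy : Commute κ y := by
    rw [hκc]; exact hcy.mul_left (hwy.zpow_left s)
  -- conjugates of x
  have hκ1 : y⁻¹ * κ * y = κ := by rw [mul_assoc, hκy.eq]; group
  have hx1 : y⁻¹ * x * y = x * κ := by rw [hxy, hκc]
  have hx2 : y⁻¹ * (x * κ) * y = x * κ ^ 2 := by
    calc y⁻¹ * (x * κ) * y = (y⁻¹ * x * y) * (y⁻¹ * κ * y) := by group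
      _ = x * κ * κ := by rw [hx1, hκ1]
      _ = x * κ ^ 2 := by rw [pow_two, mul_assoc]
  have hx3 : y⁻¹ * (x * κ ^ 2) * y = x * κ ^ 3 := by
    calc y⁻¹ * (x * κ ^ 2) * y = (y⁻¹ * x * y) * (y⁻¹ * κ * y) * (y⁻¹ * κ * y) := by
          rw [pow_two]; group
      _ = x * κ * κ * κ := by rw [hx1, hκ1]
      _ = x * κ ^ 3 := by rw [pow_succ, pow_two]; simp only [mul_assoc]
  -- w' commutes with c'
  have hc'e : c' = y⁻¹ * u⁻¹ * y * u * (w' ^ s')⁻¹ := by
    calc c' = y⁻¹ * (y * (c' * w' ^ s')) * (w' ^ s')⁻¹ := by group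
      _ = y⁻¹ * (u⁻¹ * y * u) * (w' ^ s')⁻¹ := by rw [hyu]
      _ = y⁻¹ * u⁻¹ * y * u * (w' ^ s')⁻¹ := by group
  have hwc : Commute w' c' := by
    have h1 : Commute w' (y⁻¹ * u⁻¹ * y * u * (w' ^ s')⁻¹) :=
      ((((hwy'.inv_right).mul_right hwu.inv_right).mul_right hwy').mul_right hwu).mul_right
        (((Commute.refl w').zpow_right s').inv_right)
    rwa [← hc'e] at h1
  obtain ⟨al, hal⟩ : ∃ al, al = c'⁻¹ := ⟨_, rfl⟩
  have hat : Commute al w' := by rw [hal]; exact hwc.symm.inv_left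
  have hau : Commute u al := by rw [hal]; exact hcu.symm.inv_right
  have hxu : Commute x u := comm h H (i := 1) (j := 4) (by norm_num) hx hu
  have hxa : Commute x al := by rw [hal]; exact (hab 1 x c' hx hc').inv_right
  -- conjugates of al and u
  have ha1 : y⁻¹ * al * y = al * w' := by
    calc y⁻¹ * al * y = (y⁻¹ * c'⁻¹ * y * c') * c'⁻¹ := by rw [hal]; group
      _ = w' * al := by rw [hyc, hal]
      _ = al * w' := hat.eq.symm
  have hu1 : y⁻¹ * u * y = u * (al ^ (1 : ℤ) * w' ^ (-s')) := by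
    have h1 : y⁻¹ * u⁻¹ * y * u = c' * w' ^ s' := by
      calc y⁻¹ * u⁻¹ * y * u = y⁻¹ * (u⁻¹ * y * u) := by group
        _ = y⁻¹ * (y * (c' * w' ^ s')) := by rw [hyu]
        _ = c' * w' ^ s' := by group
    have h2 : y⁻¹ * u * y = u * (y⁻¹ * u⁻¹ * y * u)⁻¹ := by group
    have h3 : (c' * w' ^ s')⁻¹ = al ^ (1 : ℤ) * w' ^ (-s') := by
      rw [mul_inv_rev, zpow_neg, zpow_one, ← hal]
      exact ((hat.zpow_right s').inv_right).eq.symm
    rw [h2, h1, h3]
  obtain ⟨s1, hs1⟩ : ∃ s1, s1 = -s' := ⟨_, rfl⟩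
  rw [← hs1] at hu1
  have hC : ∀ i j : ℤ, y⁻¹ * (al ^ i * w' ^ j) * y = al ^ i * w' ^ (i + j) :=
    fun i j => cm_conj hat ha1 hwy' i j
  have hstep : ∀ i j : ℤ, y⁻¹ * (u * (al ^ i * w' ^ j)) * y = u * (al ^ (1 + i) * w' ^ (s1 + (i + j))) := by
    intro i j
    calc y⁻¹ * (u * (al ^ i * w' ^ j)) * y = (y⁻¹ * u * y) * (y⁻¹ * (al ^ i * w' ^ j) * y) := by group
      _ = u * (al ^ (1 : ℤ) * w' ^ s1) * (al ^ i * w' ^ (i + j)) := by rw [hu1, hC]
      _ = u * ((al ^ (1 : ℤ) * w' ^ s1) * (al ^ i * w' ^ (i + j))) := by rw [mul_assoc]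
      _ = u * (al ^ (1 + i) * w' ^ (s1 + (i + j))) := by rw [cm_aux hat]
  -- commutations
  have hA1 : Commute (x * κ) (u * (al ^ (1 : ℤ) * w' ^ s1)) := by
    have := commute_conj (y := y) hxu
    rwa [hx1, hu1] at this
  have hB1 : Commute (x * κ) (al ^ (1 : ℤ) * w' ^ (1 : ℤ)) := by
    have := commute_conj (y := y) hxa
    rw [hx1, ha1] at this
    simpa using this
  have hA2 : Commute (x * κ ^ 2) (u * (al ^ (1 + 1 : ℤ) * w' ^ (s1 + (1 + s1)))) := by
    have := commute_conj (y := y) hA1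
    rwa [hx2, hstep] at this
  have hA3 : Commute (x * κ ^ 3) (u * (al ^ (1 + (1 + 1) : ℤ) * w' ^ (s1 + (1 + 1 + (s1 + (1 + s1)))))) := by
    have := commute_conj (y := y) hA2
    rwa [hx3, hstep] at this
  have hB2 : Commute (x * κ ^ 2) (al ^ (1 : ℤ) * w' ^ (1 + 1 : ℤ)) := by
    have := commute_conj (y := y) hB1
    rwa [hx2, hC] at this
  have hB3 : Commute (x * κ ^ 3) (al ^ (1 : ℤ) * w' ^ (1 + (1 + 1) : ℤ)) := by
    have := commute_conj (y := y) hB2
    rwa [hx3, hC] at this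
  have hpw : ∀ j m : ℤ, (al ^ (1 : ℤ) * w' ^ j) ^ m = al ^ m * w' ^ (j * m) := by
    intro j m
    rw [(hat.zpow_zpow 1 j).mul_zpow, ← zpow_mul, ← zpow_mul, one_mul]
  have hE1 : Commute (x * κ) (u * al ^ (1 - s1)) := by
    have := hA1.mul_right (hB1.zpow_right (-s1))
    rw [hpw, mul_assoc, cm_aux hat] at this
    have e1 : (1 : ℤ) + -s1 = 1 - s1 := by ring
    have e2 : s1 + 1 * -s1 = 0 := by ring
    rw [e1, e2, zpow_zero, mul_one] at this
    exact this
  have hE3 : Commute (x * κ ^ 3) (u * al ^ (2 - s1)) := by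
    have := hA3.mul_right (hB3.zpow_right (-(s1 + 1)))
    rw [hpw, mul_assoc, cm_aux hat] at this
    have e1 : (1 + (1 + 1) : ℤ) + -(s1 + 1) = 2 - s1 := by ring
    have e2 : s1 + (1 + 1 + (s1 + (1 + s1))) + (1 + (1 + 1)) * -(s1 + 1) = 0 := by ring
    rw [e1, e2, zpow_zero, mul_one] at this
    exact this
  have hxE : ∀ m : ℤ, Commute x (u * al ^ m) := fun m => hxu.mul_right (hxa.zpow_right m)
  have hK1 : Commute κ (u * al ^ (1 - s1)) := by
    have := (hxE (1 - s1)).inv_left.mul_left hE1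
    rwa [inv_mul_cancel_left] at this
  have hK3 : Commute (κ ^ 3) (u * al ^ (2 - s1)) := by
    have := (hxE (2 - s1)).inv_left.mul_left hE3
    rwa [inv_mul_cancel_left] at this
  have hK3' : Commute κ (u * al ^ (2 - s1)) := commute_of_cube h H hK3
  have hKa : Commute κ al := by
    have := hK1.inv_right.mul_right hK3'
    have e : (u * al ^ (1 - s1))⁻¹ * (u * al ^ (2 - s1)) = al := by
      rw [mul_inv_rev, ← zpow_neg, mul_assoc, inv_mul_cancel_left, ← zpow_add]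
      have : -(1 - s1) + (2 - s1) = 1 := by ring
      rw [this, zpow_one]
    rwa [e] at this
  have := hK1.mul_right (hKa.zpow_right (-(1 - s1)))
  rwa [mul_assoc, ← zpow_add, add_neg_cancel, zpow_zero, mul_one] at this

theorem trick_c (h : Root r k) (H : Hyp r a)
    (hab : ∀ (i : ℕ) (x y : X), Eig r k a i x → Eig r k a i y → Commute x y) {x y c w : X} {s : ℤ}
    (hx : Eig r k a 1 x) (hy : Eig r k a 2 y) (hP : PairRel r k a x y c w s) :
    (∀ t : X, Eig r k a 2 t → Commute c t) ∧ (∀ t : X, Eig r k a 3 t → Commute c t) ∧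
      (∀ t : X, Eig r k a 4 t → Commute c t) := by
  obtain ⟨hc, hw, hxy, -, -, -, -⟩ := hP
  refine ⟨fun t ht => comm h H (i := 3) (j := 2) (by norm_num) hc ht, fun t ht => hab 3 c t hc ht,
    fun t ht => ?_⟩
  have h1 : x⁻¹ * y⁻¹ * x * y = c * w ^ s := by
    calc x⁻¹ * y⁻¹ * x * y = x⁻¹ * (y⁻¹ * x * y) := by group
      _ = x⁻¹ * (x * (c * w ^ s)) := by rw [hxy]
      _ = c * w ^ s := by group
  have h2 : Commute (c * w ^ s) t := by
    rw [← h1]; exact trick h H hab hx hy ht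
  have h3 : Commute w t := hab 4 w t hw ht
  have h4 := h2.mul_left (h3.zpow_left (-s))
  rwa [mul_assoc, ← zpow_add, add_neg_cancel, zpow_zero, mul_one] at h4

end Pool.Agent.FRB
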